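import Pool.Agent.MP_62f0b1_an.xi.Main
import Mathlib.Analysis.Normed.Module.Connected
import Mathlib.Analysis.Calculus.FDeriv.Analytic

/-!
Corollary: real-analytic commuting integrals of `ξ` on odd-gons, `n ≥ 5`, are dependent everywhere.
-/

set_option autoImplicit false
set_option linter.unusedSectionVars false

open Set Real Filter Topology Asymptotics Module
open scoped ContDiff

namespace Pool.Agent.MP_62f0b1_an.Xi

theorem eventually_zero_of_flat {E : Type*} [NormedAddCommGroup E] [NormedSpace ℝ E] {f : E → ℝ}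
    {x : E} (hf : AnalyticAt ℝ f x) (h : ∀ N : ℕ, f =O[𝓝 x] fun y => ‖y - x‖ ^ N) :
    f =ᶠ[𝓝 x] 0 := by
  obtain ⟨p, hp⟩ := hf
  have t1 : Tendsto (fun y => x + y) (𝓝 0) (𝓝 x) := by
    have : Continuous fun y => x + y := by fun_prop
    simpa using this.tendsto 0
  have key : ∀ n (y : E), (p n fun _ => y) = 0 := fun n => by
    refine Nat.strong_induction_on n fun k hk => ?_
    have e : p.partialSum (k + 1) = fun y => p k fun _ => y := by
      funext z
      refine Finset.sum_eq_single _ (fun b hb hnb => ?_) fun hn => ?_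
      · exact hk b ((Finset.mem_range_succ_iff.1 hb).lt_of_ne hnb) z
      · exact False.elim (hn (Finset.mem_range.2 (lt_add_one k)))
    have h1 := hp.isBigO_sub_partialSum_pow (k + 1)
    have h2 : (fun y => f (x + y)) =O[𝓝 0] fun y => ‖y‖ ^ (k + 1) := by
      simpa [Function.comp_def] using (h (k + 1)).comp_tendsto t1
    rw [e] at h1
    exact IsBigO.continuousMultilinearMap_apply_eq_zero (by simpa using h2.sub h1)
  filter_upwards [hp.eventually_hasSum_sub] with y hy
  simp only [key] at hy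
  exact hy.unique hasSum_zero

theorem preconn_polygon {n : ℕ} [NeZero n] : IsPreconnected {P : Fin n → ℂ | IsPolygon P} := by
  refine isPreconnected_of_forall_pair fun P hP Q hQ => ?_
  let g : ℂ → Fin n → ℂ := fun z => P + z • (Q - P)
  have hs : {z | ¬ IsPolygon (g z)}.Countable := by
    refine (Set.finite_range fun i => -(P i - P (i - 1)) /
      ((Q i - Q (i - 1)) - (P i - P (i - 1)))).countable.mono fun z hz => ?_
    obtain ⟨i, hi⟩ := not_forall.1 hz
    have h1 : P i + z * (Q i - P i) = P (i - 1) + z * (Q (i - 1) - P (i - 1)) := not_not.1 hi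
    have h2 : (Q i - Q (i - 1)) - (P i - P (i - 1)) ≠ 0 := fun h0 =>
      hP i (by linear_combination h1 - z * h0)
    exact ⟨i, by rw [div_eq_iff h2]; linear_combination -h1⟩
  have hc := (hs.isConnected_compl_of_one_lt_rank (by simp)).isPreconnected.image g
    (by fun_prop : Continuous g).continuousOn
  refine ⟨g '' {z | ¬ IsPolygon (g z)}ᶜ, ?_, ⟨0, ?_, by simp [g]⟩, ⟨1, ?_, by simp [g]⟩, hc⟩
  · rintro _ ⟨z, hz, rfl⟩
    exact not_not.1 hz
  · simpa [g] using hP
  · simpa [g] using hQ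

theorem analytic_dep (n : ℕ) [NeZero n] (odd : Odd n) (hn : 5 ≤ n)
    (F : Fin (n - 1) → (Fin n → ℂ) → ℝ) (hF : ∀ k, AnalyticOnNhd ℝ (F k) {P | IsPolygon P})
    (h1 : ∀ k P, IsPolygon P → ∀ c : ℂ, F k (fun i => P i + c) = F k P)
    (h2 : ∀ k P, IsPolygon P → fderiv ℝ (F k) P (xiField P) = 0)
    (h3 : ∀ k l P, IsPolygon P → ∀ v, (∀ w, omegaForm v w = fderiv ℝ (F k) P w) →
      fderiv ℝ (F l) P v = 0) (P : Fin n → ℂ) (hP : IsPolygon P) :
    ¬ LinearIndependent ℝ fun k => fderiv ℝ (F k) P := by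
  obtain ⟨k, rfl⟩ : ∃ k, n = k + 2 := ⟨n - 2, by omega⟩
  obtain ⟨Y, hY, h⟩ := xi_flat (Nat.odd_add_one.1 odd |> Nat.not_odd_iff_even.1)
    (by omega : 4 ≤ k + 1)
  intro hind
  obtain ⟨w, hw⟩ := exists_dual_family hind
  have h4 := h F (fun l => (hF l).contDiffOn_of_completeSpace) h1 h2 h3 w
  have h5 : AnalyticOnNhd ℝ (fun P => (Matrix.of fun l l' => fderiv ℝ (F l) P (w l')).det)
      {P | IsPolygon P} := by
    simp only [Matrix.det_apply', Matrix.of_apply]
    intro Q hQ
    refine Finset.analyticAt_fun_sum _ fun p _ => analyticAt_const.mul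
      (Finset.analyticAt_fun_prod _ fun i _ => ?_)
    exact ((ContinuousLinearMap.apply ℝ ℝ (w i)).analyticAt _).comp ((hF _).fderiv Q hQ)
  have h6 := h5.eqOn_zero_of_preconnected_of_eventuallyEq_zero preconn_polygon hY
    (eventually_zero_of_flat (h5 Y hY) h4) hP
  have h7 : (Matrix.of fun l l' : Fin (k + 1) => fderiv ℝ (F l) P (w l')) = 1 := by
    ext l l'
    exact hw l l'
  have h8 : (Matrix.of fun l l' : Fin (k + 1) => fderiv ℝ (F l) P (w l')).det = 0 := h6
  rw [h7, Matrix.det_one] at h8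
  exact one_ne_zero h8

end Pool.Agent.MP_62f0b1_an.Xi
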