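import Pool.Agent.MP_62f0b1_an.Defs

/-!
The vector field `ξ` on polygons.
-/

set_option autoImplicit false

namespace Pool.Agent.MP_62f0b1_an

/-- `ξ_i = ½ ((P_i - P_{i-1}) / |P_i - P_{i-1}| - (P_i - P_{i+1}) / |P_i - P_{i+1}|)`. -/
noncomputable def xiField {n : ℕ} [NeZero n] (P : Fin n → ℂ) : Fin n → ℂ :=
  fun i => (1 / 2 : ℝ) • ((‖P i - P (i - 1)‖⁻¹ : ℝ) • (P i - P (i - 1)) -
    (‖P i - P (i + 1)‖⁻¹ : ℝ) • (P i - P (i + 1)))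

end Pool.Agent.MP_62f0b1_an
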