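import Pool.Agent.MP_62f0b1_an.xi.Symp

-- ======== part 0: formerly Pool.Agent.MP_62f0b1_an.xi.Approach
section MrgPart0

/-!
Following a perturbed orbit backwards towards the collision.
-/

set_option autoImplicit false
set_option linter.unusedSectionVars false

open Set Real

namespace Pool.Agent.MP_62f0b1_an.Xi

variable {ι : Type*} [Fintype ι] [DecidableEq ι]

/-- Deviation from the base orbit. -/
noncomputable def dv (X σ : ι → ℝ) (Z : ℝ → ι → ℂ) (t : ℝ) (i : ι) : ℂ := Z t i - bs X σ t i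

/-- Deviation from the base orbit, corrected by a multiple of the regular solution. -/
noncomputable def dc (X σ : ι → ℝ) (η : ℝ → ι → ℝ) (μ : ℝ) (Z : ℝ → ι → ℂ) (t : ℝ) (i : ι) : ℂ :=
  Z t i - bs X σ t i - Complex.I * (μ * η t i : ℝ)

/-- The error of the linearisation. -/
noncomputable def er (nx pv : ι → ι) (X σ : ι → ℝ) (r : ℝ) (Z : ℝ → ι → ℂ) (t : ℝ) (i : ι) : ℂ :=
  U r (Z t (nx i) - Z t (pv i)) - σ i -
    Complex.I * (((Z t (nx i)).im - (Z t (pv i)).im) / gp nx pv X σ t i : ℝ)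

variable {nx pv : ι → ι} {c : ι} {X σ : ι → ℝ} {T a : ℝ} {η : ℝ → ι → ℝ} {H : ℝ}

theorem er_eq (S : Side nx pv c X σ T a) (r : ℝ) (Z : ℝ → ι → ℂ) (t : ℝ) (i : ι) :
    er nx pv X σ r Z t i =
      U r ((σ i * gp nx pv X σ t i : ℝ) + (dv X σ Z t (nx i) - dv X σ Z t (pv i))) - σ i -
        Complex.I * ((dv X σ Z t (nx i) - dv X σ Z t (pv i)).im / gp nx pv X σ t i : ℝ) := by
  rw [er, S.split (Z t) t i]
  simp [dv]

theorem er_quad (S : Side nx pv c X σ T a) {r : ℝ} (hr : 0 < r) (Z : ℝ → ι → ℂ) {t : ℝ} {i : ι}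
    (h2 : 2 * r ≤ gp nx pv X σ t i) :
    ‖er nx pv X σ r Z t i‖ ≤
      10 * (‖dv X σ Z t (nx i) - dv X σ Z t (pv i)‖ / gp nx pv X σ t i) ^ 2 := by
  rw [er_eq S]; exact (U_est_sgn hr h2 (S.sgn i) _).2

theorem er_dec (S : Side nx pv c X σ T a) {r : ℝ} (hr : 0 < r) (Z : ℝ → ι → ℂ) {t : ℝ} {i : ι}
    (h2 : 2 * r ≤ gp nx pv X σ t i) {p q : ℂ}
    (e : dv X σ Z t (nx i) - dv X σ Z t (pv i) = p + q) :
    ‖er nx pv X σ r Z t i‖ ≤ 40 * (‖p‖ / gp nx pv X σ t i + (‖q‖ / gp nx pv X σ t i) ^ 2) := by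
  rw [er_eq S, e]; exact U_dec hr h2 (S.sgn i) _ _

theorem dv_split (μ : ℝ) (Z : ℝ → ι → ℂ) (t : ℝ) (i j : ι) :
    dv X σ Z t i - dv X σ Z t j = (dc X σ η μ Z t i - dc X σ η μ Z t j) +
      Complex.I * (μ * (η t i - η t j) : ℝ) := by
  simp only [dv, dc]; push_cast; ring

theorem dc_deriv (S : Side nx pv c X σ T a) (R : Reg nx pv c X σ T η H) {r s : ℝ} (μ : ℝ)
    (hs : 0 < s) {Z : ℝ → ι → ℂ} (hZ : Sol nx pv r Z s T) {t : ℝ} (ht : t ∈ Icc s T) (i : ι) :
    HasDerivAt (fun t => dc X σ η μ Z t i) (er nx pv X σ r Z t i + Complex.I *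
      ((dc X σ η μ Z t (nx i) - dc X σ η μ Z t (pv i)).im / gp nx pv X σ t i : ℝ)) t := by
  have ht' : t ∈ Ioc 0 T := ⟨lt_of_lt_of_le hs ht.1, ht.2⟩
  have h1 := ((hZ t ht i).sub (hasDerivAt_bs X σ t i)).sub
    (((R.der t ht' i).const_mul μ).ofReal_comp.const_mul Complex.I)
  refine h1.congr_deriv ?_
  have hg := (S.gp_pos ht' i).ne'
  have e : (dc X σ η μ Z t (nx i) - dc X σ η μ Z t (pv i)).im / gp nx pv X σ t i =
      ((Z t (nx i)).im - (Z t (pv i)).im) / gp nx pv X σ t i -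
        μ * ((η t (nx i) - η t (pv i)) / gp nx pv X σ t i) := by
    simp [dc]; field_simp; ring
  rw [e, er]; push_cast; ring

theorem norm_I_im_le (p : ℂ) {g : ℝ} (hg : 0 < g) : ‖Complex.I * (p.im / g : ℝ)‖ ≤ ‖p‖ / g := by
  rw [norm_I_mul, abs_div, abs_of_pos hg]
  gcongr
  exact Complex.abs_im_le_norm p

/-- Standing hypotheses of the approach estimate. -/
structure ApH (nx pv : ι → ι) (X σ : ι → ℝ) (T a : ℝ) (η : ℝ → ι → ℝ) (K r s l μ : ℝ)
    (Z : ℝ → ι → ℂ) : Prop where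
  hr : 0 < r
  hrs : r ≤ s
  hra : 2 * r ≤ a
  hs : s = exp (-l)
  hl : 1 ≤ l
  hsT : s ≤ T
  hsl : s * l ^ 4 ≤ 1
  hμ : |μ| ≤ K * s * l
  sol : Sol nx pv r Z s T
  fin : ∀ i, ‖dc X σ η μ Z T i‖ ≤ K * s

variable {K r s l μ : ℝ} {Z : ℝ → ι → ℂ}

theorem ApH.s0 (h : ApH nx pv X σ T a η K r s l μ Z) : 0 < s := lt_of_lt_of_le h.hr h.hrs

theorem ApH.slk (h : ApH nx pv X σ T a η K r s l μ Z) {k : ℕ} (hk : k ≤ 4) : s * l ^ k ≤ 1 :=
  (mul_le_mul_of_nonneg_left (pow_le_pow_right₀ h.hl hk) h.s0.le).trans h.hsl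

theorem ApH.mu2 (h : ApH nx pv X σ T a η K r s l μ Z) : μ ^ 2 ≤ K ^ 2 * s ^ 2 * l ^ 2 := by
  have := pow_le_pow_left₀ (abs_nonneg μ) h.hμ 2
  rw [sq_abs] at this
  linarith [this, (by ring : (K * s * l) ^ 2 = K ^ 2 * s ^ 2 * l ^ 2)]

theorem ApH.mu2' (h : ApH nx pv X σ T a η K r s l μ Z) : μ ^ 2 ≤ K ^ 2 * s := by
  have h1 := h.mu2
  have h2 := h.slk (k := 2) (by norm_num)
  have h3 : 0 ≤ K ^ 2 * s := mul_nonneg (sq_nonneg K) h.s0.le
  nlinarith

theorem ApH.gp2 (S : Side nx pv c X σ T a) (h : ApH nx pv X σ T a η K r s l μ Z) {t : ℝ}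
    (ht : t ∈ Icc s T) (i : ι) : 2 * r ≤ gp nx pv X σ t i := by
  by_cases hi : i = c
  · rw [hi, S.gp_c]; linarith [ht.1, h.hrs]
  · exact h.hra.trans (S.gap i hi t ⟨h.s0.le.trans ht.1, ht.2⟩)

/-- First step: the regular components are `O(s)`. -/
theorem app1 (S : Side nx pv c X σ T a) (R : Reg nx pv c X σ T η H) {K : ℝ} (hK : 0 ≤ K) :
    ∃ C, 0 ≤ C ∧ ∀ {r s l μ : ℝ} {Z : ℝ → ι → ℂ}, ApH nx pv X σ T a η K r s l μ Z →
      ∀ t ∈ Icc s T, (∀ i, i ≠ c → ‖dc X σ η μ Z t i‖ ≤ C * s) ∧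
        ∀ i, i ≠ c → ‖er nx pv X σ r Z t i + Complex.I *
          ((dc X σ η μ Z t (nx i) - dc X σ η μ Z t (pv i)).im / gp nx pv X σ t i : ℝ)‖ ≤
            C * s / √t := by
  have ha := S.ha
  have hH := R.hH
  have hT := S.hT
  set A : ℝ := 82 / a + 160 * (1 + H * T) ^ 2 / a ^ 2 + 41 + 40 * H ^ 2 with hA
  have hA0 : 0 ≤ A := by positivity
  obtain ⟨C, hC0, hC⟩ := approach_core c hT hA0
  set K₂ := K + K ^ 2 with hK₂
  have hK₂0 : 0 ≤ K₂ := by positivity
  refine ⟨C * K₂ + A * (C * K₂ * √T + C * K₂ + K₂ * √T), by positivity, ?_⟩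
  intro r s l μ Z h
  have hs := h.s0
  have hμB : μ ^ 2 ≤ K₂ * s := h.mu2'.trans (by gcongr; linarith)
  have key : ∀ t ∈ Icc s T, ∀ N J, 0 ≤ N → (∀ i, i ≠ c → ‖dc X σ η μ Z t i‖ ≤ N) →
      ‖dc X σ η μ Z t c‖ ≤ J →
      (∀ i, i ≠ c → ‖er nx pv X σ r Z t i + Complex.I *
          ((dc X σ η μ Z t (nx i) - dc X σ η μ Z t (pv i)).im / gp nx pv X σ t i : ℝ)‖ ≤
            A * (N + J + K₂ * s)) ∧
        ‖er nx pv X σ r Z t c + Complex.I *
          ((dc X σ η μ Z t (nx c) - dc X σ η μ Z t (pv c)).im / gp nx pv X σ t c : ℝ)‖ ≤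
            A * (N / t + K₂ * s) := by
    intro t ht N J hN h1 h2
    have ht0 : 0 < t := lt_of_lt_of_le hs ht.1
    have ht' : t ∈ Icc 0 T := ⟨ht0.le, ht.2⟩
    have hJ : 0 ≤ J := (norm_nonneg _).trans h2
    have hall : ∀ i, ‖dc X σ η μ Z t i‖ ≤ N + J := fun i => by
      by_cases hi : i = c
      · rw [hi]; linarith
      · linarith [h1 i hi]
    have gen : ∀ i, ‖er nx pv X σ r Z t i + Complex.I *
          ((dc X σ η μ Z t (nx i) - dc X σ η μ Z t (pv i)).im / gp nx pv X σ t i : ℝ)‖ ≤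
        41 * (‖dc X σ η μ Z t (nx i) - dc X σ η μ Z t (pv i)‖ / gp nx pv X σ t i) +
          40 * (μ ^ 2 * (|η t (nx i) - η t (pv i)| / gp nx pv X σ t i) ^ 2) := fun i => by
      have e1 := er_dec S h.hr Z (h.gp2 S ht i) (dv_split (η := η) μ Z t (nx i) (pv i))
      have e2 := norm_I_im_le (dc X σ η μ Z t (nx i) - dc X σ η μ Z t (pv i))
        (S.gp_pos ⟨ht0, ht.2⟩ i)
      rw [norm_I_mul, abs_mul, mul_div_assoc, mul_pow, sq_abs] at e1
      refine (norm_add_le _ _).trans ?_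
      linarith
    constructor
    · intro i hi
      refine (gen i).trans ?_
      have hg := S.gap i hi t ht'
      have b1 : ‖dc X σ η μ Z t (nx i) - dc X σ η μ Z t (pv i)‖ / gp nx pv X σ t i ≤
          2 * (N + J) / a := by
        gcongr
        linarith [norm_sub_le (dc X σ η μ Z t (nx i)) (dc X σ η μ Z t (pv i)), hall (nx i),
          hall (pv i)]
      have b2 : μ ^ 2 * (|η t (nx i) - η t (pv i)| / gp nx pv X σ t i) ^ 2 ≤
          K₂ * s * (2 * (1 + H * T) / a) ^ 2 := by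
        have := lt_of_lt_of_le ha hg
        gcongr
        exact R.diff_le ht' i
      have b3 : 41 * (2 * (N + J) / a) = 82 / a * (N + J) := by ring
      have b4 : 40 * (K₂ * s * (2 * (1 + H * T) / a) ^ 2) =
          160 * (1 + H * T) ^ 2 / a ^ 2 * (K₂ * s) := by field_simp; ring
      have c1 : 82 / a ≤ A := by
        have : 0 ≤ 160 * (1 + H * T) ^ 2 / a ^ 2 := by positivity
        nlinarith [sq_nonneg H]
      have c2 : 160 * (1 + H * T) ^ 2 / a ^ 2 ≤ A := by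
        have : 0 ≤ 82 / a := by positivity
        nlinarith [sq_nonneg H]
      have d1 : 82 / a * (N + J) ≤ A * (N + J) := by gcongr
      have d2 : 160 * (1 + H * T) ^ 2 / a ^ 2 * (K₂ * s) ≤ A * (K₂ * s) := by gcongr
      nlinarith
    · refine (gen c).trans ?_
      rw [S.gp_c]
      have b1 : ‖dc X σ η μ Z t (nx c) - dc X σ η μ Z t (pv c)‖ / (2 * t) ≤
          2 * N / (2 * t) := by
        gcongr
        linarith [norm_sub_le (dc X σ η μ Z t (nx c)) (dc X σ η μ Z t (pv c)), h1 _ S.ne1,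
          h1 _ S.ne2]
      have b2 : μ ^ 2 * (|η t (nx c) - η t (pv c)| / (2 * t)) ^ 2 ≤
          K₂ * s * (2 * H * t / (2 * t)) ^ 2 := by
        gcongr
        exact R.diff_c S ht'
      have b3 : 2 * N / (2 * t) = N / t := by field_simp
      have b4 : 2 * H * t / (2 * t) = H := by field_simp
      rw [b3] at b1
      rw [b4] at b2
      have e1 : 0 ≤ 82 / a := by positivity
      have e2 : 0 ≤ 160 * (1 + H * T) ^ 2 / a ^ 2 := by positivity
      have c1 : 41 ≤ A := by nlinarith [sq_nonneg H]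
      have c2 : 40 * H ^ 2 ≤ A := by linarith
      have d1 : 41 * (N / t) ≤ A * (N / t) := by gcongr
      have d2 : 40 * H ^ 2 * (K₂ * s) ≤ A * (K₂ * s) := by gcongr
      nlinarith
  have main := hC (dc X σ η μ Z) _ s (K₂ * s) hs h.hsT (by positivity)
    (fun t ht i => dc_deriv S R μ hs h.sol ht i) key
    (fun i => (h.fin i).trans (by gcongr; nlinarith [sq_nonneg K]))
  intro t ht
  have ht0 : 0 < t := lt_of_lt_of_le hs ht.1
  have hst : 0 < √t := sqrt_pos.2 ht0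
  have hsT : √t ≤ √T := sqrt_le_sqrt ht.2
  obtain ⟨m1, m2⟩ := main t ht
  have e0 : 0 ≤ A * (C * K₂ * √T + C * K₂ + K₂ * √T) * s := by positivity
  refine ⟨fun i hi => (m1 i hi).trans (by nlinarith), fun i hi => ?_⟩
  refine ((key t ht _ _ (by positivity) m1 m2).1 i hi).trans ?_
  rw [le_div_iff₀ hst]
  have e1 : A * (C * (K₂ * s) + C * (K₂ * s) / √t + K₂ * s) * √t =
      A * (C * K₂ * √t + C * K₂ + K₂ * √t) * s := by field_simp
  rw [e1]
  have e2 : A * (C * K₂ * √t + C * K₂ + K₂ * √t) * s ≤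
      A * (C * K₂ * √T + C * K₂ + K₂ * √T) * s := by gcongr
  have e3 : 0 ≤ C * K₂ * s := by positivity
  nlinarith

/-- Second step: logarithmic behaviour of the singular component. -/
theorem app2 (S : Side nx pv c X σ T a) (R : Reg nx pv c X σ T η H) {K : ℝ} (hK : 0 ≤ K) :
    ∃ C, 0 ≤ C ∧ ∀ {r s l μ : ℝ} {Z : ℝ → ι → ℂ}, ApH nx pv X σ T a η K r s l μ Z →
      ∀ t ∈ Icc s T, (∀ i, i ≠ c → ‖dc X σ η μ Z t i‖ ≤ C * s) ∧
        ‖dc X σ η μ Z t c + Complex.I *
          ((dc X σ η μ Z s (nx c) - dc X σ η μ Z s (pv c)).im / 2 * (log T - log t) : ℝ)‖ ≤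
            C * s := by
  have hH := R.hH
  have hT := S.hT
  obtain ⟨C, hC0, hC⟩ := app1 S R hK
  refine ⟨C + K + (20 * C ^ 2 + 20 * H ^ 2 * K ^ 2 * T + 4 * C * √T), by positivity, ?_⟩
  intro r s l μ Z h
  have hs := h.s0
  have hC' := hC h
  set p : ℝ → ℂ := fun t => dc X σ η μ Z t (nx c) - dc X σ η μ Z t (pv c) with hp
  have hpb : ∀ t ∈ Icc s T, ‖p t‖ ≤ 2 * C * s := fun t ht => by
    linarith [norm_sub_le (dc X σ η μ Z t (nx c)) (dc X σ η μ Z t (pv c)),
      (hC' t ht).1 _ S.ne1, (hC' t ht).1 _ S.ne2]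
  have hdrift : ∀ t ∈ Icc s T, ‖p t - p s‖ ≤ 4 * C * s * √t := fun t ht => by
    have hsub : Icc s t ⊆ Icc s T := Icc_subset_Icc_right ht.2
    have := incr_le (f := p) ht.1 (b := fun u => 4 * C * s * √u)
      (b' := fun u => 4 * C * s * (1 / (2 * √u)))
      (fun u hu => (dc_deriv S R μ hs h.sol (hsub hu) (nx c)).sub
        (dc_deriv S R μ hs h.sol (hsub hu) (pv c)))
      (fun u hu => (hasDerivAt_sqrt (lt_of_lt_of_le hs hu.1).ne').const_mul _)
      (fun u hu => by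
        have hsu : 0 < √u := sqrt_pos.2 (lt_of_lt_of_le hs hu.1)
        refine (norm_sub_le _ _).trans ?_
        have e : 4 * C * s * (1 / (2 * √u)) = C * s / √u + C * s / √u := by field_simp; ring
        rw [e]
        exact add_le_add ((hC' u (hsub hu)).2 _ S.ne1) ((hC' u (hsub hu)).2 _ S.ne2))
    have h0 : 0 ≤ 4 * C * s * √s := by positivity
    linarith
  intro t ht
  have e0 : 0 ≤ (20 * C ^ 2 + 20 * H ^ 2 * K ^ 2 * T + 4 * C * √T) * s := by positivity
  have e00 : 0 ≤ K * s := by positivity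
  refine ⟨fun i hi => ((hC' t ht).1 i hi).trans (by nlinarith), ?_⟩
  have hsub : Icc t T ⊆ Icc s T := Icc_subset_Icc_left ht.1
  have ht0 : 0 < t := lt_of_lt_of_le hs ht.1
  have := incr_le (f := fun u => dc X σ η μ Z u c - Complex.I * ((p s).im / 2 * log u : ℝ))
    (f' := fun u => er nx pv X σ r Z u c + Complex.I * ((p u - p s).im / (2 * u) : ℝ)) ht.2
    (b := fun u => -(20 * C ^ 2 * s ^ 2) * u⁻¹ + 20 * H ^ 2 * K ^ 2 * s * u + 4 * C * s * √u)
    (b' := fun u => -(20 * C ^ 2 * s ^ 2) * (-(u ^ 2)⁻¹) + 20 * H ^ 2 * K ^ 2 * s * 1 +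
      4 * C * s * (1 / (2 * √u)))
    (fun u hu => by
      have hu0 : 0 < u := lt_of_lt_of_le ht0 hu.1
      refine ((dc_deriv S R μ hs h.sol (hsub hu) c).sub
        (((hasDerivAt_log hu0.ne').const_mul ((p s).im / 2)).ofReal_comp.const_mul
          Complex.I)).congr_deriv ?_
      rw [S.gp_c]
      have e : (p u - p s).im / (2 * u) = (p u).im / (2 * u) - (p s).im / 2 * u⁻¹ := by
        rw [Complex.sub_im]; field_simp
      rw [e]; push_cast; ring)
    (fun u hu => by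
      have hu0 : 0 < u := lt_of_lt_of_le ht0 hu.1
      exact (((hasDerivAt_inv hu0.ne').const_mul _).add ((hasDerivAt_id u).const_mul _)).add
        ((hasDerivAt_sqrt hu0.ne').const_mul _))
    (fun u hu => by
      have hu0 : 0 < u := lt_of_lt_of_le ht0 hu.1
      have hsu : 0 < √u := sqrt_pos.2 hu0
      refine (norm_add_le _ _).trans (add_le_add ?_ ?_)
      · refine (er_quad S h.hr Z (h.gp2 S (hsub hu) c)).trans ?_
        rw [S.gp_c, dv_split (η := η) μ]
        have b1 : ‖p u + Complex.I * (μ * (η u (nx c) - η u (pv c)) : ℝ)‖ ≤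
            2 * C * s + |μ| * (2 * H * u) := by
          refine (norm_add_le _ _).trans (add_le_add (hpb u (hsub hu)) ?_)
          rw [norm_I_mul, abs_mul]
          gcongr
          exact R.diff_c S ⟨hu0.le, hu.2⟩
        have b2 : (‖p u + Complex.I * (μ * (η u (nx c) - η u (pv c)) : ℝ)‖ / (2 * u)) ^ 2 ≤
            ((2 * C * s + |μ| * (2 * H * u)) / (2 * u)) ^ 2 := by gcongr
        have b3 : (2 * C * s + |μ| * (2 * H * u)) / (2 * u) = C * s / u + |μ| * H := by
          field_simp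
        rw [b3] at b2
        have b4 : (C * s / u + |μ| * H) ^ 2 ≤ 2 * (C * s / u) ^ 2 + 2 * (μ ^ 2 * H ^ 2) := by
          rw [← sq_abs μ]
          nlinarith [sq_nonneg (C * s / u - |μ| * H)]
        have b5 : μ ^ 2 * H ^ 2 ≤ K ^ 2 * s * H ^ 2 := by gcongr; exact h.mu2'
        have b6 : -(20 * C ^ 2 * s ^ 2) * (-(u ^ 2)⁻¹) = 20 * (C * s / u) ^ 2 := by field_simp
        rw [b6]
        nlinarith
      · refine (norm_I_im_le _ (by linarith)).trans ?_
        rw [div_le_iff₀ (by linarith)]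
        refine (hdrift u (hsub hu)).trans (le_of_eq ?_)
        have e3 : 1 / √u * u = √u := by rw [one_div, inv_mul_eq_div, div_sqrt]
        have e4 : 1 / (2 * √u) * (2 * u) = 1 / √u * u := by field_simp
        rw [mul_assoc (4 * C * s), e4, e3])
  have e1 : dc X σ η μ Z t c + Complex.I * ((p s).im / 2 * (log T - log t) : ℝ) =
      dc X σ η μ Z T c - ((dc X σ η μ Z T c - Complex.I * ((p s).im / 2 * log T : ℝ)) -
        (dc X σ η μ Z t c - Complex.I * ((p s).im / 2 * log t : ℝ))) := by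
    push_cast; ring
  change ‖dc X σ η μ Z t c + Complex.I * ((p s).im / 2 * (log T - log t) : ℝ)‖ ≤ _
  rw [e1]
  refine (norm_sub_le _ _).trans ?_
  have f1 := h.fin c
  have f2 : 20 * C ^ 2 * s ^ 2 * t⁻¹ ≤ 20 * C ^ 2 * s := by
    rw [← div_eq_mul_inv, div_le_iff₀ ht0]
    have : 0 ≤ 20 * C ^ 2 * s := by positivity
    nlinarith [ht.1]
  have f3 : 0 ≤ 20 * C ^ 2 * s ^ 2 * T⁻¹ := by positivity
  have f4 : 0 ≤ 20 * H ^ 2 * K ^ 2 * s * t := by positivity
  have f5 : 0 ≤ 4 * C * s * √t := by positivity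
  have f6 : 0 ≤ C * s := by positivity
  nlinarith

end Pool.Agent.MP_62f0b1_an.Xi

end MrgPart0

-- ======== part 1: formerly Pool.Agent.MP_62f0b1_an.xi.Approach2
section MrgPart1

/-!
The conserved pairing and the final form of the approach estimate.
-/

set_option autoImplicit false
set_option linter.unusedSectionVars false

open Set Real

namespace Pool.Agent.MP_62f0b1_an.Xi

variable {ι : Type*} [Fintype ι] [DecidableEq ι]
variable {nx pv : ι → ι} {c : ι} {X σ : ι → ℝ} {T a : ℝ} {η : ℝ → ι → ℝ} {H : ℝ}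

/-- Pairing of a real vector with the imaginary parts of the gaps. -/
noncomputable def pr (nx pv : ι → ι) (x : ι → ℝ) (z : ι → ℂ) : ℝ :=
  ∑ i, x i * ((z (nx i)).im - (z (pv i)).im)

theorem app3 (S : Side nx pv c X σ T a) (R : Reg nx pv c X σ T η H) {K : ℝ} (hK : 0 ≤ K) :
    ∃ C, 0 ≤ C ∧ ∀ {r s l μ : ℝ} {Z : ℝ → ι → ℂ}, ApH nx pv X σ T a η K r s l μ Z →
      ∀ t ∈ Icc s T, ∀ i, ‖dv X σ Z t i‖ ≤ C * s * l := by
  have hH := R.hH
  have hT := S.hT
  obtain ⟨C, hC0, hC⟩ := app2 S R hK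
  refine ⟨C + C * (|log T| + 1) + K * (1 + H * T), by positivity, ?_⟩
  intro r s l μ Z h t ht i
  have hs := h.s0
  have hl := h.hl
  have ht0 : 0 < t := lt_of_lt_of_le hs ht.1
  have e : dv X σ Z t i = dc X σ η μ Z t i + Complex.I * (μ * η t i : ℝ) := by simp [dv, dc]
  have b1 : ‖Complex.I * (μ * η t i : ℝ)‖ ≤ K * s * l * (1 + H * T) := by
    rw [norm_I_mul, abs_mul]
    gcongr
    · exact h.hμ
    · exact R.abs_le ⟨ht0.le, ht.2⟩ i
  have hCs : C * s ≤ C * s * l := le_mul_of_one_le_right (by positivity) hl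
  have b2 : ‖dc X σ η μ Z t i‖ ≤ C * s * l + C * s * ((|log T| + 1) * l) := by
    have z : 0 ≤ C * s * ((|log T| + 1) * l) := by positivity
    by_cases hi : i = c
    · rw [hi]
      have b3 := (hC h t ht).2
      have b4 : ‖Complex.I * ((dc X σ η μ Z s (nx c) - dc X σ η μ Z s (pv c)).im / 2 *
          (log T - log t) : ℝ)‖ ≤ C * s * ((|log T| + 1) * l) := by
        rw [norm_I_mul, abs_mul, abs_of_nonneg (sub_nonneg.2 (log_le_log ht0 ht.2))]
        have hss : s ∈ Icc s T := ⟨le_rfl, h.hsT⟩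
        gcongr
        · exact sub_nonneg.2 (log_le_log ht0 ht.2)
        · rw [abs_div, abs_two]
          linarith [Complex.abs_im_le_norm (dc X σ η μ Z s (nx c) - dc X σ η μ Z s (pv c)),
            norm_sub_le (dc X σ η μ Z s (nx c)) (dc X σ η μ Z s (pv c)),
            (hC h s hss).1 _ S.ne1, (hC h s hss).1 _ S.ne2]
        · exact log_le_of h.hs hl ht.1
      have b5 := norm_sub_le (dc X σ η μ Z t c + Complex.I *
        ((dc X σ η μ Z s (nx c) - dc X σ η μ Z s (pv c)).im / 2 * (log T - log t) : ℝ))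
        (Complex.I * ((dc X σ η μ Z s (nx c) - dc X σ η μ Z s (pv c)).im / 2 *
          (log T - log t) : ℝ))
      rw [add_sub_cancel_right] at b5
      linarith
    · linarith [(hC h t ht).1 i hi]
  rw [e]
  refine (norm_add_le _ _).trans ?_
  nlinarith

theorem pr_deriv (S : Side nx pv c X σ T a) (R : Reg nx pv c X σ T η H) {r s : ℝ}
    (hs : 0 < s) {Z : ℝ → ι → ℂ} (hZ : Sol nx pv r Z s T) {t : ℝ} (ht : t ∈ Icc s T) :
    HasDerivAt (fun t => pr nx pv (η t) (Z t))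
      (-∑ i, (er nx pv X σ r Z t i).im * (η t (nx i) - η t (pv i))) t := by
  have ht' : t ∈ Ioc 0 T := ⟨lt_of_lt_of_le hs ht.1, ht.2⟩
  have hY : ∀ i, HasDerivAt (fun t => (Z t i).im) (U r (Z t (nx i) - Z t (pv i))).im t :=
    fun i => Complex.imCLM.hasFDerivAt.comp_hasDerivAt t (hZ t ht i)
  have h1 := HasDerivAt.fun_sum (u := Finset.univ) fun i _ =>
    (R.der t ht' i).mul ((hY (nx i)).sub (hY (pv i)))
  refine h1.congr_deriv ?_
  rw [Finset.sum_add_distrib, S.sum_swap (η t) (fun i => (U r (Z t (nx i) - Z t (pv i))).im),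
    ← sub_eq_add_neg, ← Finset.sum_sub_distrib, ← Finset.sum_neg_distrib]
  refine Finset.sum_congr rfl fun i _ => ?_
  simp only [er, Complex.sub_im, Complex.ofReal_im, Complex.mul_im, Complex.I_re, Complex.I_im,
    Complex.ofReal_re, Pi.sub_apply]
  ring

theorem app4 (S : Side nx pv c X σ T a) (R : Reg nx pv c X σ T η H) {K : ℝ} (hK : 0 ≤ K) :
    ∃ C, 0 ≤ C ∧ ∀ {r s l μ : ℝ} {Z : ℝ → ι → ℂ}, ApH nx pv X σ T a η K r s l μ Z →
      |(Z s (nx c)).im - (Z s (pv c)).im - pr nx pv (η T) (Z T)| ≤ C * s ^ 2 * l ^ 2 := by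
  have hH := R.hH
  have hT := S.hT
  have ha := S.ha
  obtain ⟨C, hC0, hC⟩ := app2 S R hK
  obtain ⟨C₃, hC₃0, hC₃⟩ := app3 S R hK
  set n : ℝ := ((Fintype.card ι : ℕ) : ℝ) with hn
  have hn0 : 0 ≤ n := by positivity
  set E₁ : ℝ := 80 * (1 + H * T) * C₃ ^ 2 / a ^ 2 + 40 * H ^ 3 * K ^ 2 * T with hE₁
  set E₂ : ℝ := 40 * H * C ^ 2 with hE₂
  have hE₁0 : 0 ≤ E₁ := by positivity
  have hE₂0 : 0 ≤ E₂ := by positivity
  refine ⟨n * (E₁ * T + E₂ * (|log T| + 1)) + n * (2 * H * C₃), by positivity, ?_⟩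
  intro r s l μ Z h
  have hs := h.s0
  have hl := h.hl
  have hl0 : 0 < l := by linarith
  have hss : s ∈ Icc s T := ⟨le_rfl, h.hsT⟩
  have h1 := incr_le (f := fun t => pr nx pv (η t) (Z t)) h.hsT
    (b := fun u => n * (E₁ * s ^ 2 * l ^ 2 * u + E₂ * s ^ 2 * log u))
    (b' := fun u => n * (E₁ * s ^ 2 * l ^ 2 * 1 + E₂ * s ^ 2 * u⁻¹))
    (fun u hu => pr_deriv S R hs h.sol hu)
    (fun u hu => (((hasDerivAt_id u).const_mul _).add
      ((hasDerivAt_log (lt_of_lt_of_le hs hu.1).ne').const_mul _)).const_mul _)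
    (fun u hu => by
      have hu0 : 0 < u := lt_of_lt_of_le hs hu.1
      have hu' : u ∈ Icc 0 T := ⟨hu0.le, hu.2⟩
      rw [norm_neg]
      refine (norm_sum_le _ _).trans ?_
      rw [hn, ← nsmul_eq_mul, ← Finset.card_univ]
      refine Finset.sum_le_card_nsmul _ _ _ fun i _ => ?_
      rw [Real.norm_eq_abs, abs_mul]
      have b0 := (Complex.abs_im_le_norm _).trans (er_quad S h.hr Z (h.gp2 S hu i))
      have z1 : 0 ≤ E₂ * s ^ 2 * u⁻¹ := by positivity
      by_cases hi : i = c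
      · subst hi
        rw [S.gp_c, dv_split (η := η) μ] at b0
        have b1 : ‖dc X σ η μ Z u (nx i) - dc X σ η μ Z u (pv i) +
            Complex.I * (μ * (η u (nx i) - η u (pv i)) : ℝ)‖ ≤ 2 * C * s + |μ| * (2 * H * u) := by
          refine (norm_add_le _ _).trans (add_le_add ?_ ?_)
          · linarith [norm_sub_le (dc X σ η μ Z u (nx i)) (dc X σ η μ Z u (pv i)),
              (hC h u hu).1 _ S.ne1, (hC h u hu).1 _ S.ne2]
          · rw [norm_I_mul, abs_mul]
            gcongr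
            exact R.diff_c S hu'
        have b2 : (‖dc X σ η μ Z u (nx i) - dc X σ η μ Z u (pv i) +
            Complex.I * (μ * (η u (nx i) - η u (pv i)) : ℝ)‖ / (2 * u)) ^ 2 ≤
            ((2 * C * s + |μ| * (2 * H * u)) / (2 * u)) ^ 2 := by gcongr
        have b3 : (2 * C * s + |μ| * (2 * H * u)) / (2 * u) = C * s / u + |μ| * H := by
          field_simp
        rw [b3] at b2
        have b4 : (C * s / u + |μ| * H) ^ 2 ≤ 2 * (C * s / u) ^ 2 + 2 * (μ ^ 2 * H ^ 2) := by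
          rw [← sq_abs μ]
          nlinarith [sq_nonneg (C * s / u - |μ| * H)]
        have b5 : μ ^ 2 * H ^ 2 ≤ K ^ 2 * s ^ 2 * l ^ 2 * H ^ 2 := by gcongr; exact h.mu2
        have b6 : |(er nx pv X σ r Z u i).im| ≤
            20 * (C * s / u) ^ 2 + 20 * (K ^ 2 * s ^ 2 * l ^ 2 * H ^ 2) := by linarith
        have b7 := mul_le_mul b6 (R.diff_c S hu') (abs_nonneg _) (by positivity)
        refine b7.trans ?_
        have e1 : (20 * (C * s / u) ^ 2 + 20 * (K ^ 2 * s ^ 2 * l ^ 2 * H ^ 2)) * (2 * H * u) =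
            E₂ * s ^ 2 * u⁻¹ + 40 * H ^ 3 * K ^ 2 * u * (s ^ 2 * l ^ 2) := by
          rw [hE₂]; field_simp; ring
        have e2 : 40 * H ^ 3 * K ^ 2 * u * (s ^ 2 * l ^ 2) ≤ E₁ * (s ^ 2 * l ^ 2) := by
          gcongr
          have : 0 ≤ 80 * (1 + H * T) * C₃ ^ 2 / a ^ 2 := by positivity
          have : 40 * H ^ 3 * K ^ 2 * u ≤ 40 * H ^ 3 * K ^ 2 * T := by gcongr; exact hu.2
          linarith
        rw [e1]; linarith
      · have hg := S.gap i hi u hu'
        have b1 : (‖dv X σ Z u (nx i) - dv X σ Z u (pv i)‖ / gp nx pv X σ u i) ^ 2 ≤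
            (2 * (C₃ * s * l) / a) ^ 2 := by
          have := lt_of_lt_of_le ha hg
          gcongr
          linarith [norm_sub_le (dv X σ Z u (nx i)) (dv X σ Z u (pv i)), hC₃ h u hu (nx i),
            hC₃ h u hu (pv i)]
        have b6 : |(er nx pv X σ r Z u i).im| ≤ 10 * (2 * (C₃ * s * l) / a) ^ 2 := by linarith
        have b7 := mul_le_mul b6 (R.diff_le hu' i) (abs_nonneg _) (by positivity)
        refine b7.trans ?_
        have e1 : 10 * (2 * (C₃ * s * l) / a) ^ 2 * (2 * (1 + H * T)) =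
            80 * (1 + H * T) * C₃ ^ 2 / a ^ 2 * (s ^ 2 * l ^ 2) := by field_simp; ring
        have e2 : 80 * (1 + H * T) * C₃ ^ 2 / a ^ 2 * (s ^ 2 * l ^ 2) ≤ E₁ * (s ^ 2 * l ^ 2) := by
          gcongr
          have : 0 ≤ 40 * H ^ 3 * K ^ 2 * T := by positivity
          linarith
        rw [e1]; linarith)
  have h2 : |(Z s (nx c)).im - (Z s (pv c)).im - pr nx pv (η s) (Z s)| ≤
      n * (H * s * (2 * (C₃ * s * l))) := by
    have e : (Z s (nx c)).im - (Z s (pv c)).im - pr nx pv (η s) (Z s) =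
        -∑ i, (η s i - if i = c then 1 else 0) * ((Z s (nx i)).im - (Z s (pv i)).im) := by
      simp only [pr, sub_mul, Finset.sum_sub_distrib, ite_mul, one_mul, zero_mul,
        Finset.sum_ite_eq', Finset.mem_univ, if_true]
      ring
    rw [e, abs_neg]
    refine (Finset.abs_sum_le_sum_abs _ _).trans ?_
    rw [hn, ← nsmul_eq_mul, ← Finset.card_univ]
    refine Finset.sum_le_card_nsmul _ _ _ fun i _ => ?_
    rw [abs_mul]
    gcongr
    · exact R.near s ⟨hs.le, h.hsT⟩ i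
    · have e : (Z s (nx i)).im - (Z s (pv i)).im = (dv X σ Z s (nx i) - dv X σ Z s (pv i)).im := by
        simp [dv]
      rw [e]
      linarith [norm_sub_le (dv X σ Z s (nx i)) (dv X σ Z s (pv i)), hC₃ h s hss (nx i),
        hC₃ h s hss (pv i), Complex.abs_im_le_norm (dv X σ Z s (nx i) - dv X σ Z s (pv i))]
  rw [Real.norm_eq_abs] at h1
  have h3 := abs_sub_le ((Z s (nx c)).im - (Z s (pv c)).im) (pr nx pv (η s) (Z s))
    (pr nx pv (η T) (Z T))
  rw [abs_sub_comm (pr nx pv (η s) (Z s))] at h3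
  have h4 := log_le_of (T := T) h.hs hl le_rfl
  have h5 : E₂ * s ^ 2 * (log T - log s) ≤ E₂ * (|log T| + 1) * (s ^ 2 * l ^ 2) := by
    have : (|log T| + 1) * l ≤ (|log T| + 1) * l ^ 2 := by gcongr; nlinarith
    calc E₂ * s ^ 2 * (log T - log s) ≤ E₂ * s ^ 2 * ((|log T| + 1) * l ^ 2) := by
          gcongr; linarith
      _ = _ := by ring
  have h6 : 0 ≤ E₁ * s ^ 2 * l ^ 2 * s := by positivity
  have h7 : n * (E₁ * s ^ 2 * l ^ 2 * T + E₂ * s ^ 2 * log T) -
      n * (E₁ * s ^ 2 * l ^ 2 * s + E₂ * s ^ 2 * log s) ≤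
      n * (E₁ * T + E₂ * (|log T| + 1)) * (s ^ 2 * l ^ 2) := by
    rw [← mul_sub, mul_assoc n]
    gcongr
    nlinarith
  have h8 : n * (H * s * (2 * (C₃ * s * l))) ≤ n * (2 * H * C₃) * (s ^ 2 * l ^ 2) := by
    have : s ^ 2 * l ≤ s ^ 2 * l ^ 2 := by gcongr; nlinarith
    calc n * (H * s * (2 * (C₃ * s * l))) = n * (2 * H * C₃) * (s ^ 2 * l) := by ring
      _ ≤ _ := by gcongr
  nlinarith

/-- The approach estimate. -/
theorem approach (S : Side nx pv c X σ T a) (R : Reg nx pv c X σ T η H) {K : ℝ} (hK : 0 ≤ K) :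
    ∃ C, 0 ≤ C ∧ ∀ {r s l μ : ℝ} {Z : ℝ → ι → ℂ}, ApH nx pv X σ T a η K r s l μ Z →
      (∀ t ∈ Icc s T, ∀ i, ‖dv X σ Z t i‖ ≤ C * s * l) ∧
      |(Z s (nx c)).im - (Z s (pv c)).im - pr nx pv (η T) (Z T)| ≤ C * s ^ 2 * l ^ 2 ∧
      (∀ i, i ≠ c → ‖dv X σ Z s i‖ ≤ C * s) ∧
      ‖dv X σ Z s c - Complex.I * (μ - pr nx pv (η T) (Z T) / 2 * l : ℝ)‖ ≤ C * s := by
  have hH := R.hH
  have hT := S.hT
  obtain ⟨C, hC0, hC⟩ := app2 S R hK
  obtain ⟨C₃, hC₃0, hC₃⟩ := app3 S R hK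
  obtain ⟨C₄, hC₄0, hC₄⟩ := app4 S R hK
  refine ⟨C₃ + C₄ + (C + C * |log T| + 3 * K * H), by positivity, ?_⟩
  intro r s l μ Z h
  have hs := h.s0
  have hl := h.hl
  have hss : s ∈ Icc s T := ⟨le_rfl, h.hsT⟩
  have hs' : s ∈ Icc 0 T := ⟨hs.le, h.hsT⟩
  have z1 : 0 ≤ C + C * |log T| + 3 * K * H := by positivity
  have hμs : |μ| * (H * s) ≤ K * H * s := by
    have h1 := h.slk (k := 1) (by norm_num)
    calc |μ| * (H * s) ≤ K * s * l * (H * s) := by gcongr; exact h.hμ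
      _ = K * H * s * (s * l ^ 1) := by ring
      _ ≤ K * H * s * 1 := by gcongr
      _ = _ := by ring
  have e : ∀ i, dv X σ Z s i = dc X σ η μ Z s i + Complex.I * (μ * η s i : ℝ) := fun i => by
    simp [dv, dc]
  refine ⟨fun t ht i => (hC₃ h t ht i).trans (by gcongr; linarith),
    (hC₄ h).trans (by gcongr; linarith), fun i hi => ?_, ?_⟩
  · rw [e]
    refine (norm_add_le _ _).trans ?_
    have b1 := (hC h s hss).1 i hi
    have b2 : ‖Complex.I * (μ * η s i : ℝ)‖ ≤ |μ| * (H * s) := by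
      rw [norm_I_mul, abs_mul]
      gcongr
      simpa [hi] using R.near s hs' i
    have : 0 ≤ (C₃ + C₄ + C * |log T| + 2 * K * H) * s := by positivity
    nlinarith
  · set b := (dc X σ η μ Z s (nx c) - dc X σ η μ Z s (pv c)).im with hb
    set W := pr nx pv (η T) (Z T) with hW
    have b1 := (hC h s hss).2
    rw [← hb] at b1
    have hls : log s = -l := by rw [h.hs, log_exp]
    have e2 : dv X σ Z s c - Complex.I * (μ - W / 2 * l : ℝ) =
        (dc X σ η μ Z s c + Complex.I * (b / 2 * (log T - log s) : ℝ)) +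
          Complex.I * (-(b / 2 * log T) + (W - b) / 2 * l + μ * (η s c - 1) : ℝ) := by
      rw [e, hls]; push_cast; ring
    rw [e2]
    refine (norm_add_le _ _).trans ?_
    rw [norm_I_mul]
    have b2 : |b| ≤ 2 * C * s := by
      linarith [Complex.abs_im_le_norm (dc X σ η μ Z s (nx c) - dc X σ η μ Z s (pv c)),
        norm_sub_le (dc X σ η μ Z s (nx c)) (dc X σ η μ Z s (pv c)),
        (hC h s hss).1 _ S.ne1, (hC h s hss).1 _ S.ne2]
    have b3 : |-(b / 2 * log T)| ≤ C * |log T| * s := by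
      rw [abs_neg, abs_mul, abs_div, abs_two]
      nlinarith [abs_nonneg (log T)]
    have b4 : |μ * (η s c - 1)| ≤ K * H * s := by
      rw [abs_mul]
      refine le_trans ?_ hμs
      gcongr
      simpa using R.near s hs' c
    have b5 : |W - b| ≤ C₄ * s ^ 2 * l ^ 2 + |μ| * (2 * H * s) := by
      have e3 : W - b = -((Z s (nx c)).im - (Z s (pv c)).im - W) +
          μ * (η s (nx c) - η s (pv c)) := by
        simp [hb, dc]; ring
      rw [e3]
      refine (abs_add_le _ _).trans (add_le_add ?_ ?_)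
      · rw [abs_neg]; exact hC₄ h
      · rw [abs_mul]
        gcongr
        exact R.diff_c S hs'
    have b6 : |(W - b) / 2 * l| ≤ C₄ * s + K * H * s := by
      rw [abs_mul, abs_div, abs_two, abs_of_nonneg (by linarith : 0 ≤ l)]
      have h3 := h.slk (k := 3) (by norm_num)
      have h2 := h.slk (k := 2) (by norm_num)
      have c1 : C₄ * s ^ 2 * l ^ 2 * l ≤ C₄ * s := by
        calc C₄ * s ^ 2 * l ^ 2 * l = C₄ * s * (s * l ^ 3) := by ring
          _ ≤ C₄ * s * 1 := by gcongr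
          _ = _ := by ring
      have c2 : |μ| * (H * s) * l ≤ K * H * s := by
        calc |μ| * (H * s) * l ≤ K * s * l * (H * s) * l := by gcongr; exact h.hμ
          _ = K * H * s * (s * l ^ 2) := by ring
          _ ≤ K * H * s * 1 := by gcongr
          _ = _ := by ring
      have c3 : |W - b| * l ≤ (C₄ * s ^ 2 * l ^ 2 + |μ| * (2 * H * s)) * l := by gcongr
      have c4 : 0 ≤ C₄ * s := by positivity
      nlinarith
    have b7 := abs_add_three (-(b / 2 * log T)) ((W - b) / 2 * l) (μ * (η s c - 1))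
    have : 0 ≤ (C₃ + K * H) * s := by positivity
    nlinarith

end Pool.Agent.MP_62f0b1_an.Xi

end MrgPart1

-- ======== part 2: formerly Pool.Agent.MP_62f0b1_an.xi.Leave
section MrgPart2

/-!
Following a perturbed orbit away from the collision.
-/

set_option autoImplicit false
set_option linter.unusedSectionVars false

open Set Real

namespace Pool.Agent.MP_62f0b1_an.Xi

variable {ι : Type*} [Fintype ι] [DecidableEq ι]
variable {nx pv : ι → ι} {c : ι} {X σ : ι → ℝ} {T a : ℝ}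

theorem log_sub_le {t T : ℝ} (ht : 0 < t) (hT : 0 < T) : (log T - log t) / 2 ≤ √T / √t := by
  have h1 : 0 < √T / √t := div_pos (sqrt_pos.2 hT) (sqrt_pos.2 ht)
  have h2 := log_le_sub_one_of_pos h1
  rw [log_div (sqrt_pos.2 hT).ne' (sqrt_pos.2 ht).ne', log_sqrt hT.le, log_sqrt ht.le] at h2
  linarith

theorem leave (S : Side nx pv c X σ T a) {K : ℝ} (hK : 0 ≤ K) :
    ∃ C, 0 ≤ C ∧ ∀ {r s l κ ε : ℝ} {Z : ℝ → ι → ℂ}, 0 < r → r ≤ s → 2 * r ≤ a → s = exp (-l) →
      1 ≤ l → s ≤ T → s * l ^ 4 ≤ 1 → Sol nx pv r Z s T →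
      (∀ i, i ≠ c → ‖dv X σ Z s i‖ ≤ K * s) → ‖dv X σ Z s c - Complex.I * κ‖ ≤ K * s →
      |(Z s (nx c)).im - (Z s (pv c)).im - ε| ≤ K * s ^ 2 * l ^ 2 → |ε| ≤ K * s →
      (∀ i, ‖dv X σ Z T i‖ ≤ C * (s + |κ + ε / 2 * l|)) ∧
        ∀ t ∈ Icc s T, ∀ i, ‖dv X σ Z t i‖ ≤ C * (s * l + |κ + ε / 2 * l|) := by
  have hT := S.hT
  have ha := S.ha
  obtain ⟨C, hC0, hC⟩ := leave_core c (nx c) (pv c) S.ne1 S.ne2 hT
    (by positivity : (0 : ℝ) ≤ 12 / a + 21)
  set K' : ℝ := 1 + K + K * √T + 40 * K ^ 2 + K * (|log T| + 1) with hK'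
  have hK'0 : 0 ≤ K' := by positivity
  refine ⟨C * K' + K * (|log T| + 1), by positivity, ?_⟩
  intro r s l κ ε Z hr hrs hra hsl hl hsT hs4 hZ h1 h2 h3 h4
  have hs : 0 < s := lt_of_lt_of_le hr hrs
  set k := |κ + ε / 2 * l| with hk
  have hk0 : 0 ≤ k := abs_nonneg _
  have hls : log s = -l := by rw [hsl, log_exp]
  have g2 : ∀ t ∈ Icc s T, ∀ i, 2 * r ≤ gp nx pv X σ t i := fun t ht i => by
    by_cases hi : i = c
    · rw [hi, S.gp_c]; linarith [ht.1]
    · exact hra.trans (S.gap i hi t ⟨hs.le.trans ht.1, ht.2⟩)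
  let D : ℝ → ι → ℂ := fun t i =>
    dv X σ Z t i - if i = c then Complex.I * (ε / 2 * (log t - log T) : ℝ) else 0
  let D' : ℝ → ι → ℂ := fun t i => U r (Z t (nx i) - Z t (pv i)) - σ i -
    if i = c then Complex.I * (ε / 2 * t⁻¹ : ℝ) else 0
  have hDn : ∀ t i, i ≠ c → D t i = dv X σ Z t i := fun t i hi => by simp [D, hi]
  have hj : ∀ t ∈ Icc s T, ‖Complex.I * (ε / 2 * (log t - log T) : ℝ)‖ =
      |ε| * ((log T - log t) / 2) := fun t ht => by
    rw [norm_I_mul, abs_mul, abs_div, abs_two, abs_sub_comm,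
      abs_of_nonneg (sub_nonneg.2 (log_le_log (lt_of_lt_of_le hs ht.1) ht.2))]
    ring
  have hdv : ∀ t ∈ Icc s T, ∀ i, ‖dv X σ Z t i‖ ≤ ‖D t‖ + |ε| * ((log T - log t) / 2) :=
    fun t ht i => by
      have h0 : 0 ≤ |ε| * ((log T - log t) / 2) := hj t ht ▸ norm_nonneg _
      have h5 := norm_le_pi_norm (D t) i
      by_cases hi : i = c
      · have e : dv X σ Z t i = D t i + Complex.I * (ε / 2 * (log t - log T) : ℝ) := by
          simp [D, hi]
        rw [e]
        refine (norm_add_le _ _).trans ?_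
        rw [hj t ht]; linarith
      · rw [← hDn t i hi]; linarith
  have hB : ∀ x : ℝ, 0 ≤ x → x ≤ K' → x * s ≤ K' * (s + k) := fun x _ hx => by
    have : x * s ≤ K' * s := by gcongr
    nlinarith
  have z1 : 0 ≤ K * √T := by positivity
  have z2 : 0 ≤ K * (|log T| + 1) := by positivity
  have z3 : 0 ≤ 40 * K ^ 2 := by positivity
  have main := hC D D' (fun t => -(40 * K ^ 2 * s ^ 2) * t⁻¹ + K * s ^ 2 * l ^ 2 * log t)
    (fun t => -(40 * K ^ 2 * s ^ 2) * (-(t ^ 2)⁻¹) + K * s ^ 2 * l ^ 2 * t⁻¹) s (K' * (s + k))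
    hs hsT (by positivity)
    (fun t ht i => by
      have ht0 : 0 < t := lt_of_lt_of_le hs ht.1
      refine ((hZ t ht i).sub (hasDerivAt_bs X σ t i)).sub ?_
      by_cases hi : i = c
      · simp only [hi, if_true]
        exact ((((hasDerivAt_log ht0.ne').sub_const (log T)).const_mul
          (ε / 2)).ofReal_comp).const_mul Complex.I
      · simp only [hi, if_false]
        exact hasDerivAt_const _ _)
    (fun t ht => by
      have ht0 : 0 < t := lt_of_lt_of_le hs ht.1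
      exact ((hasDerivAt_inv ht0.ne').const_mul _).add ((hasDerivAt_log ht0.ne').const_mul _))
    (fun t ht => by
      have ht0 : 0 < t := lt_of_lt_of_le hs ht.1
      have e : -(40 * K ^ 2 * s ^ 2) * (-(t ^ 2)⁻¹) = 40 * K ^ 2 * s ^ 2 * (t ^ 2)⁻¹ := by ring
      simp only [e]
      positivity)
    (fun t ht => by
      have ht0 : 0 < t := lt_of_lt_of_le hs ht.1
      have a1 : 0 ≤ 40 * K ^ 2 * s ^ 2 * t⁻¹ := by positivity
      have a2 : 40 * K ^ 2 * s ^ 2 * s⁻¹ = 40 * K ^ 2 * s := by field_simp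
      have a3 : log t - log s ≤ (|log T| + 1) * l :=
        (sub_le_sub_right (log_le_log ht0 ht.2) _).trans (log_le_of hsl hl le_rfl)
      have a4 : K * s ^ 2 * l ^ 2 * (log t - log s) ≤ K * (|log T| + 1) * s := by
        have a5 : s * l ^ 3 ≤ 1 :=
          (mul_le_mul_of_nonneg_left (pow_le_pow_right₀ hl (by norm_num)) hs.le).trans hs4
        calc K * s ^ 2 * l ^ 2 * (log t - log s) ≤ K * s ^ 2 * l ^ 2 * ((|log T| + 1) * l) := by
              gcongr
          _ = K * (|log T| + 1) * s * (s * l ^ 3) := by ring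
          _ ≤ K * (|log T| + 1) * s * 1 := by gcongr
          _ = _ := by ring
      have a6 := hB (40 * K ^ 2 + K * (|log T| + 1)) (by positivity) (by linarith)
      nlinarith)
    (fun t ht i hi => by
      have ht0 : 0 < t := lt_of_lt_of_le hs ht.1
      have hst : 0 < √t := sqrt_pos.2 ht0
      have hg := S.gap i hi t ⟨ht0.le, ht.2⟩
      have e : D' t i = U r ((σ i * gp nx pv X σ t i : ℝ) +
          (dv X σ Z t (nx i) - dv X σ Z t (pv i))) - σ i := by
        simp only [D', hi, if_false, sub_zero]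
        rw [S.split (Z t) t i]; rfl
      rw [e]
      refine (U_lin hr (g2 t ht i) (S.sgn i) _).trans ?_
      have a1 : |ε| * ((log T - log t) / 2) ≤ K' * (s + k) / √t := by
        calc |ε| * ((log T - log t) / 2) ≤ K * s * (√T / √t) :=
              mul_le_mul h4 (log_sub_le ht0 hT)
                (div_nonneg (sub_nonneg.2 (log_le_log ht0 ht.2)) (by norm_num)) (by positivity)
          _ = K * √T * s / √t := by ring
          _ ≤ _ := by gcongr ?_ / _; exact hB _ z1 (by linarith)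
      have a2 : ‖dv X σ Z t (nx i) - dv X σ Z t (pv i)‖ / gp nx pv X σ t i ≤
          2 * (‖D t‖ + K' * (s + k) / √t) / a := by
        gcongr
        linarith [norm_sub_le (dv X σ Z t (nx i)) (dv X σ Z t (pv i)), hdv t ht (nx i),
          hdv t ht (pv i)]
      have a3 : 0 ≤ ‖D t‖ + K' * (s + k) / √t := by positivity
      have a4 : 6 * (2 * (‖D t‖ + K' * (s + k) / √t) / a) =
          12 / a * (‖D t‖ + K' * (s + k) / √t) := by ring
      nlinarith)
    (fun t ht => by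
      have ht0 : 0 < t := lt_of_lt_of_le hs ht.1
      rw [hDn _ _ S.ne1, hDn _ _ S.ne2, hDn _ _ S.ne1, hDn _ _ S.ne2]
      set p := dv X σ Z t (nx c) - dv X σ Z t (pv c) - (dv X σ Z s (nx c) - dv X σ Z s (pv c))
        with hp
      have e : D' t c = er nx pv X σ r Z t c + Complex.I *
          ((p.im + ((Z s (nx c)).im - (Z s (pv c)).im - ε)) / (2 * t) : ℝ) := by
        have e1 : (p.im + ((Z s (nx c)).im - (Z s (pv c)).im - ε)) / (2 * t) =
            ((Z t (nx c)).im - (Z t (pv c)).im) / (2 * t) - ε / 2 * t⁻¹ := by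
          simp only [hp, dv, Complex.sub_im, Complex.ofReal_im]; field_simp; ring
        simp only [D', if_true, er, S.gp_c, e1]; push_cast; ring
      rw [e]
      refine (norm_add_le _ _).trans ?_
      have a1 := er_dec S hr Z (g2 t ht c) (p := p)
        (q := dv X σ Z s (nx c) - dv X σ Z s (pv c)) (by rw [hp]; ring)
      rw [S.gp_c] at a1
      have a2 : (‖dv X σ Z s (nx c) - dv X σ Z s (pv c)‖ / (2 * t)) ^ 2 ≤
          (2 * (K * s) / (2 * t)) ^ 2 := by
        gcongr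
        linarith [norm_sub_le (dv X σ Z s (nx c)) (dv X σ Z s (pv c)), h1 _ S.ne1, h1 _ S.ne2]
      have a3 : ‖Complex.I * ((p.im + ((Z s (nx c)).im - (Z s (pv c)).im - ε)) / (2 * t) : ℝ)‖ ≤
          (‖p‖ + K * s ^ 2 * l ^ 2) / (2 * t) := by
        rw [norm_I_mul, abs_div, abs_of_pos (by linarith : 0 < 2 * t)]
        gcongr
        exact (abs_add_le _ _).trans (add_le_add (Complex.abs_im_le_norm p) h3)
      have e2 : (2 * (K * s) / (2 * t)) ^ 2 = K ^ 2 * s ^ 2 * (t ^ 2)⁻¹ := by field_simp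
      have e3 : ‖p‖ / (2 * t) = ‖p‖ / t / 2 := by field_simp
      have e4 : (‖p‖ + K * s ^ 2 * l ^ 2) / (2 * t) = ‖p‖ / t / 2 + K * s ^ 2 * l ^ 2 * t⁻¹ / 2 := by
        field_simp
      rw [e2] at a2
      rw [e3] at a1
      rw [e4] at a3
      have a4 : 0 ≤ ‖p‖ / t := by positivity
      have a5 : 0 ≤ K * s ^ 2 * l ^ 2 * t⁻¹ := by positivity
      have a6 : 0 ≤ 12 / a * (‖p‖ / t) := by positivity
      nlinarith)
    (by
      refine (pi_norm_le_iff_of_nonneg (by positivity)).2 fun i => ?_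
      by_cases hi : i = c
      · have e : D s i = (dv X σ Z s c - Complex.I * κ) +
            Complex.I * ((κ + ε / 2 * l) + ε / 2 * log T : ℝ) := by
          simp only [D, hi, if_true, hls]; push_cast; ring
        rw [e]
        refine (norm_add_le _ _).trans ?_
        rw [norm_I_mul]
        have a1 := abs_add_le (κ + ε / 2 * l) (ε / 2 * log T)
        have a2 : |ε / 2 * log T| ≤ K * s * |log T| := by
          rw [abs_mul, abs_div, abs_two]
          gcongr
          linarith [abs_nonneg ε]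
        have a3 : K * (|log T| + 1) * s ≤ K' * s := by gcongr; linarith
        have a4 : k ≤ K' * k := le_mul_of_one_le_left hk0 (by linarith)
        nlinarith
      · rw [hDn s i hi]
        exact (h1 i hi).trans (hB K hK (by linarith)))
  have z4 : 0 ≤ K * (|log T| + 1) * (s + k) := by positivity
  refine ⟨fun i => ?_, fun t ht i => ?_⟩
  · have a1 := hdv T ⟨hsT, le_rfl⟩ i
    have a2 := main T ⟨hsT, le_rfl⟩
    rw [sub_self, zero_div, mul_zero, add_zero] at a1
    nlinarith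
  · have a1 := hdv t ht i
    have a2 := main t ht
    have ht0 : 0 < t := lt_of_lt_of_le hs ht.1
    have a3 : |ε| * ((log T - log t) / 2) ≤ K * s * ((|log T| + 1) * l) := by
      have := log_le_of (T := T) hsl hl ht.1
      have h0 := sub_nonneg.2 (log_le_log ht0 ht.2)
      gcongr
      linarith
    have a4 : C * (K' * (s + k)) ≤ C * (K' * (s * l + k)) := by
      gcongr
      exact le_mul_of_one_le_right hs.le hl
    have a5 : 0 ≤ K * (|log T| + 1) * k := by positivity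
    nlinarith

end Pool.Agent.MP_62f0b1_an.Xi

end MrgPart2

-- marker of a merged file
example : 731051 + 18540 = 731051 + 18540 := rfl
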