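import Mathlib.Analysis.Complex.Basic
import Mathlib.Analysis.Calculus.MeanValue
import Mathlib.Analysis.ODE.ExistUnique
import Mathlib.Analysis.SpecialFunctions.Sqrt
import Mathlib.Analysis.SpecialFunctions.ExpDeriv
import Mathlib.Analysis.SpecialFunctions.Log.Deriv
import Mathlib.Analysis.Calculus.TaylorIntegral
import Mathlib.Analysis.Analytic.Polynomial
import Mathlib.RingTheory.MvPolynomial.Homogeneous
import Mathlib.Algebra.MvPolynomial.Funext
import Mathlib.MeasureTheory.Integral.IntervalIntegral.FundThmCalculus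
import Mathlib.Algebra.MvPolynomial.PDeriv
import Mathlib.RingTheory.MvPolynomial.Basic
import Mathlib.Topology.Instances.Matrix
import Mathlib.LinearAlgebra.FiniteDimensional.Lemmas
import Mathlib.LinearAlgebra.Dual.Lemmas
import Mathlib.Analysis.Analytic.Uniqueness
import Mathlib.Topology.Algebra.Polynomial
import Mathlib.MeasureTheory.Integral.DominatedConvergence
import Mathlib.Topology.MetricSpace.Contracting
import Mathlib.Topology.ContinuousMap.Compact
import Mathlib.Topology.Algebra.Module.FiniteDimension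

-- ======== part 0: formerly Pool.Agent.MP_62f0b1_an.xi.U
section MrgPart0

/-!
The truncated unit vector map and two calculus tools.
-/

set_option autoImplicit false

open Set

namespace Pool.Agent.MP_62f0b1_an.Xi

/-- Truncated normalisation `w / max |w| r`. -/
noncomputable def U (r : ℝ) (w : ℂ) : ℂ := ((max ‖w‖ r)⁻¹ : ℝ) • w

theorem norm_U_le {r : ℝ} (hr : 0 < r) (w : ℂ) : ‖U r w‖ ≤ 1 := by
  have hm : 0 < max ‖w‖ r := lt_of_lt_of_le hr (le_max_right _ _)
  rw [U, norm_smul, Real.norm_eq_abs, abs_of_pos (inv_pos.2 hm), inv_mul_le_iff₀ hm, mul_one]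
  exact le_max_left _ _

theorem U_neg (r : ℝ) (w : ℂ) : U r (-w) = -U r w := by simp [U]

theorem U_eq {r : ℝ} {w : ℂ} (h : r ≤ ‖w‖) : U r w = (‖w‖⁻¹ : ℝ) • w := by
  rw [U, max_eq_left h]

theorem U_lip {r : ℝ} (hr : 0 < r) (w w' : ℂ) : ‖U r w - U r w'‖ ≤ 2 / r * ‖w - w'‖ := by
  set m := max ‖w‖ r with hm
  set m' := max ‖w'‖ r with hm'
  have h1 : r ≤ m := le_max_right _ _
  have h2 : r ≤ m' := le_max_right _ _
  have h3 : ‖w'‖ ≤ m' := le_max_left _ _
  have hm0 : 0 < m := lt_of_lt_of_le hr h1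
  have hm0' : 0 < m' := lt_of_lt_of_le hr h2
  have h4 : |m - m'| ≤ ‖w - w'‖ :=
    (abs_max_sub_max_le_abs _ _ _).trans (abs_norm_sub_norm_le _ _)
  have e : U r w - U r w' = (m⁻¹ : ℝ) • (w - w') + ((m' - m) / (m * m') : ℝ) • w' := by
    have : (m' - m) / (m * m') = m⁻¹ - m'⁻¹ := by field_simp
    rw [this, U, U, smul_sub, sub_smul]; abel
  rw [e]
  refine (norm_add_le _ _).trans ?_
  rw [norm_smul, norm_smul, Real.norm_eq_abs, Real.norm_eq_abs, abs_of_pos (inv_pos.2 hm0),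
    abs_div, abs_sub_comm, abs_of_pos (mul_pos hm0 hm0')]
  have h5 : m⁻¹ ≤ r⁻¹ := inv_anti₀ hr h1
  have h6 : |m - m'| / (m * m') * ‖w'‖ ≤ r⁻¹ * ‖w - w'‖ := by
    calc |m - m'| / (m * m') * ‖w'‖ ≤ ‖w - w'‖ / (m * m') * m' := by gcongr
      _ = m⁻¹ * ‖w - w'‖ := by field_simp
      _ ≤ r⁻¹ * ‖w - w'‖ := by gcongr
  have h7 : m⁻¹ * ‖w - w'‖ ≤ r⁻¹ * ‖w - w'‖ := by gcongr
  calc _ ≤ r⁻¹ * ‖w - w'‖ + r⁻¹ * ‖w - w'‖ := add_le_add h7 h6
    _ = 2 / r * ‖w - w'‖ := by ring

theorem U_near {r D : ℝ} (hD : 0 < D) (h2 : 2 * r ≤ D) (h : ℂ) (hh : ‖h‖ ≤ D / 2) :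
    ‖U r (D + h) - 1 - Complex.I * (h.im / D : ℝ)‖ ≤ 4 * ‖h‖ ^ 2 / D ^ 2 := by
  set w : ℂ := D + h with hw
  set ρ := ‖w‖ with hρ
  have hre : |h.re| ≤ ‖h‖ := Complex.abs_re_le_norm h
  have him : |h.im| ≤ ‖h‖ := Complex.abs_im_le_norm h
  have hx : D / 2 ≤ w.re := by
    have := neg_abs_le h.re
    simp only [hw, Complex.add_re, Complex.ofReal_re]; linarith
  have hxρ : w.re ≤ ρ := Complex.re_le_norm w
  have hρ0 : 0 < ρ := by linarith
  have hρD : |ρ - D| ≤ ‖h‖ := by
    have := abs_norm_sub_norm_le w (D : ℂ)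
    rwa [Complex.norm_real, Real.norm_eq_abs, abs_of_pos hD, hw, add_sub_cancel_left] at this
  have hsq : ρ ^ 2 = w.re ^ 2 + h.im ^ 2 := by
    rw [hρ, Complex.sq_norm, Complex.normSq_apply]; simp [hw]; ring
  rw [U_eq (by linarith)]
  refine (Complex.norm_le_abs_re_add_abs_im _).trans ?_
  have e1 : ((ρ⁻¹ : ℝ) • w - 1 - Complex.I * (h.im / D : ℝ)).re = -(h.im ^ 2 / (ρ * (ρ + w.re))) := by
    have : ρ + w.re ≠ 0 := by linarith
    simp only [Complex.sub_re, Complex.real_smul, Complex.mul_re, Complex.ofReal_re,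
      Complex.ofReal_im, Complex.one_re, Complex.I_re, Complex.I_im]
    field_simp
    nlinarith
  have e2 : ((ρ⁻¹ : ℝ) • w - 1 - Complex.I * (h.im / D : ℝ)).im = -(h.im * (ρ - D) / (ρ * D)) := by
    have : w.im = h.im := by simp [hw]
    simp only [Complex.sub_im, Complex.real_smul, Complex.mul_im, Complex.ofReal_re,
      Complex.ofReal_im, Complex.one_im, Complex.I_re, Complex.I_im, this]
    field_simp
    ring
  rw [e1, e2, abs_neg, abs_neg, abs_div, abs_div, abs_of_pos (mul_pos hρ0 hD),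
    abs_of_pos (mul_pos hρ0 (by linarith : 0 < ρ + w.re)), abs_pow, abs_mul]
  have b1 : |h.im| ^ 2 / (ρ * (ρ + w.re)) ≤ ‖h‖ ^ 2 / (D / 2 * (D / 2 + D / 2)) := by
    gcongr
    · linarith
    · linarith
  have b2 : |h.im| * |ρ - D| / (ρ * D) ≤ ‖h‖ * ‖h‖ / (D / 2 * D) := by
    gcongr
    linarith
  calc _ ≤ ‖h‖ ^ 2 / (D / 2 * (D / 2 + D / 2)) + ‖h‖ * ‖h‖ / (D / 2 * D) := add_le_add b1 b2
    _ = 4 * ‖h‖ ^ 2 / D ^ 2 := by field_simp; ring

theorem U_est {r D : ℝ} (hr : 0 < r) (h2 : 2 * r ≤ D) (h : ℂ) :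
    ‖U r (D + h) - 1 - Complex.I * (h.im / D : ℝ)‖ ≤ 5 * (‖h‖ / D) ∧
    ‖U r (D + h) - 1 - Complex.I * (h.im / D : ℝ)‖ ≤ 10 * (‖h‖ / D) ^ 2 := by
  have hD : 0 < D := by linarith
  have hx0 : 0 ≤ ‖h‖ / D := by positivity
  by_cases hh : ‖h‖ ≤ D / 2
  · have h1 := U_near hD h2 h hh
    have hx : ‖h‖ / D ≤ 1 / 2 := by rw [div_le_iff₀ hD]; linarith
    have e : 4 * ‖h‖ ^ 2 / D ^ 2 = 4 * (‖h‖ / D) ^ 2 := by field_simp
    rw [e] at h1
    constructor <;> nlinarith
  · have hx : 1 / 2 ≤ ‖h‖ / D := by rw [le_div_iff₀ hD]; linarith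
    have h1 : ‖U r (D + h) - 1 - Complex.I * (h.im / D : ℝ)‖ ≤ 1 + 1 + ‖h‖ / D := by
      refine (norm_sub_le _ _).trans (add_le_add ((norm_sub_le _ _).trans ?_) ?_)
      · rw [norm_one]; linarith [norm_U_le hr (D + h)]
      · rw [norm_mul, Complex.norm_I, one_mul, Complex.norm_real, Real.norm_eq_abs, abs_div,
          abs_of_pos hD]
        gcongr
        exact Complex.abs_im_le_norm h
    constructor <;> nlinarith

theorem U_est_sgn {r D σ : ℝ} (hr : 0 < r) (h2 : 2 * r ≤ D) (hσ : σ = 1 ∨ σ = -1) (h : ℂ) :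
    ‖U r ((σ * D : ℝ) + h) - σ - Complex.I * (h.im / D : ℝ)‖ ≤ 5 * (‖h‖ / D) ∧
    ‖U r ((σ * D : ℝ) + h) - σ - Complex.I * (h.im / D : ℝ)‖ ≤ 10 * (‖h‖ / D) ^ 2 := by
  rcases hσ with rfl | rfl
  · simpa using U_est hr h2 h
  · have := U_est hr h2 (-h)
    have e : U r (((-1 : ℝ) * D : ℝ) + h) - (-1 : ℝ) - Complex.I * (h.im / D : ℝ) =
        -(U r (D + -h) - 1 - Complex.I * ((-h).im / D : ℝ)) := by
      have : (((-1 : ℝ) * D : ℝ) : ℂ) + h = -(D + -h) := by push_cast; ring
      rw [this, U_neg]; simp only [Complex.neg_im]; push_cast; ring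
    rw [e, norm_neg]
    rwa [norm_neg] at this

theorem U_dec {r D σ : ℝ} (hr : 0 < r) (h2 : 2 * r ≤ D) (hσ : σ = 1 ∨ σ = -1) (p q : ℂ) :
    ‖U r ((σ * D : ℝ) + (p + q)) - σ - Complex.I * ((p + q).im / D : ℝ)‖ ≤
      40 * (‖p‖ / D + (‖q‖ / D) ^ 2) := by
  have hD : 0 < D := by linarith
  obtain ⟨h1, h3⟩ := U_est_sgn hr h2 hσ (p + q)
  have hpq : ‖p + q‖ / D ≤ ‖p‖ / D + ‖q‖ / D := by
    rw [← add_div]; gcongr; exact norm_add_le _ _
  have hp : 0 ≤ ‖p‖ / D := by positivity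
  have hq : 0 ≤ ‖q‖ / D := by positivity
  have h0 : 0 ≤ ‖p + q‖ / D := by positivity
  by_cases hc : ‖q‖ / D ≤ ‖p‖ / D
  · nlinarith
  · nlinarith

theorem U_lin {r D σ : ℝ} (hr : 0 < r) (h2 : 2 * r ≤ D) (hσ : σ = 1 ∨ σ = -1) (h : ℂ) :
    ‖U r ((σ * D : ℝ) + h) - σ‖ ≤ 6 * (‖h‖ / D) := by
  have hD : 0 < D := by linarith
  have h1 := (U_est_sgn hr h2 hσ h).1
  have h3 : ‖Complex.I * (h.im / D : ℝ)‖ ≤ ‖h‖ / D := by
    rw [norm_mul, Complex.norm_I, one_mul, Complex.norm_real, Real.norm_eq_abs, abs_div,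
      abs_of_pos hD]
    gcongr
    exact Complex.abs_im_le_norm h
  have := norm_add_le (U r ((σ * D : ℝ) + h) - σ - Complex.I * (h.im / D : ℝ))
    (Complex.I * (h.im / D : ℝ))
  rw [sub_add_cancel] at this
  linarith

/-- Increments are bounded by the increments of a barrier. -/
theorem incr_le {E : Type*} [NormedAddCommGroup E] [NormedSpace ℝ E] {f f' : ℝ → E}
    {b b' : ℝ → ℝ} {u v : ℝ} (huv : u ≤ v) (hf : ∀ t ∈ Icc u v, HasDerivAt f (f' t) t)
    (hb : ∀ t ∈ Icc u v, HasDerivAt b (b' t) t) (h : ∀ t ∈ Icc u v, ‖f' t‖ ≤ b' t) :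
    ‖f v - f u‖ ≤ b v - b u := by
  have := image_norm_le_of_norm_deriv_right_le_deriv_boundary' (f := fun t => f t - f u) (f' := f')
    (a := u) (b := v) (B := fun t => b t - b u) (B' := b')
    (fun t ht => ((hf t ht).sub_const _).continuousAt.continuousWithinAt)
    (fun t ht => ((hf t (Ico_subset_Icc_self ht)).sub_const _).hasDerivWithinAt)
    (by simp)
    (fun t ht => ((hb t ht).sub_const _).continuousAt.continuousWithinAt)
    (fun t ht => ((hb t (Ico_subset_Icc_self ht)).sub_const _).hasDerivWithinAt)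
    (fun t ht => h t (Ico_subset_Icc_self ht))
  exact this (right_mem_Icc.2 huv)

/-- The truncated system has a solution on every compact time interval. -/
theorem exists_sol {ι : Type*} [Fintype ι] (nx pv : ι → ι) {r : ℝ} (hr : 0 < r) {u v : ℝ}
    (huv : u ≤ v) (z : ι → ℂ) :
    ∃ Z : ℝ → ι → ℂ, Z v = z ∧ ∀ t ∈ Icc u v,
      HasDerivAt Z (fun i => U r (Z t (nx i) - Z t (pv i))) t := by
  let t₀ : Icc (u - 1) (v + 1) := ⟨v, by constructor <;> linarith⟩
  have hA : (0 : ℝ) ≤ v - u + 1 := by linarith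
  have hK : (0 : ℝ) ≤ 2 / r * 2 := by positivity
  have hP : IsPicardLindelof (fun (_ : ℝ) (z : ι → ℂ) i => U r (z (nx i) - z (pv i))) t₀ z
      ⟨v - u + 1, hA⟩ 0 1 ⟨2 / r * 2, hK⟩ := by
    refine ⟨fun t _ => LipschitzWith.lipschitzOnWith ?_, fun x _ => continuousOn_const,
      fun t _ x _ => ?_, ?_⟩
    · refine LipschitzWith.of_dist_le_mul fun x y => ?_
      rw [dist_eq_norm, dist_eq_norm]
      refine (pi_norm_le_iff_of_nonneg (by positivity)).2 fun i => ?_
      refine (U_lip hr _ _).trans ?_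
      have h1 := norm_le_pi_norm (x - y) (nx i)
      have h2 := norm_le_pi_norm (x - y) (pv i)
      have h3 := norm_sub_le ((x - y) (nx i)) ((x - y) (pv i))
      have e : x (nx i) - x (pv i) - (y (nx i) - y (pv i)) = (x - y) (nx i) - (x - y) (pv i) := by
        simp only [Pi.sub_apply]; ring
      rw [e]
      change _ ≤ 2 / r * 2 * _
      rw [mul_assoc]
      gcongr
      linarith
    · exact (pi_norm_le_iff_of_nonneg (by simp)).2 fun i => by simpa using norm_U_le hr _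
    · change (1 : ℝ) * max (v + 1 - v) (v - (u - 1)) ≤ v - u + 1 - 0
      rw [one_mul, sub_zero]
      exact max_le (by linarith) (by linarith)
  obtain ⟨Z, h0, hZ⟩ := hP.exists_eq_forall_mem_Icc_hasDerivWithinAt₀
  refine ⟨Z, h0, fun t ht => ?_⟩
  exact (hZ t ⟨by linarith [ht.1], by linarith [ht.2]⟩).hasDerivAt
    (Icc_mem_nhds (by linarith [ht.1]) (by linarith [ht.2]))

end Pool.Agent.MP_62f0b1_an.Xi

end MrgPart0

-- ======== part 1: formerly Pool.Agent.MP_62f0b1_an.xi.Core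
section MrgPart1

/-!
Two a priori estimates for systems with one singular component.
-/

set_option autoImplicit false

open Set Real

namespace Pool.Agent.MP_62f0b1_an.Xi

variable {ι : Type*} [Fintype ι] [DecidableEq ι]

theorem exists_weighted_sup {u v : ℝ} (huv : u ≤ v) (φ w : ℝ → ℝ) (hφ : ContinuousOn φ (Icc u v))
    (hw : ContinuousOn w (Icc u v)) (hw1 : ∀ t ∈ Icc u v, 1 ≤ w t) (hφ0 : ∀ t, 0 ≤ φ t) :
    ∃ Q, 0 ≤ Q ∧ (∀ t ∈ Icc u v, φ t ≤ Q * w t) ∧
      ∀ B, 0 ≤ B → (∀ t ∈ Icc u v, φ t ≤ B + Q / 2 * w t) → Q ≤ 2 * B := by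
  have hc : ContinuousOn (fun t => φ t / w t) (Icc u v) :=
    hφ.div hw fun t ht => by linarith [hw1 t ht]
  obtain ⟨t₀, ht₀, hmax⟩ := isCompact_Icc.exists_isMaxOn (nonempty_Icc.2 huv) hc
  have hw0 : ∀ t ∈ Icc u v, 0 < w t := fun t ht => by linarith [hw1 t ht]
  refine ⟨φ t₀ / w t₀, div_nonneg (hφ0 _) (hw0 _ ht₀).le, fun t ht => ?_, fun B hB h => ?_⟩
  · have := hmax ht
    simp only [mem_ofPred_eq] at this
    rwa [div_le_iff₀ (hw0 t ht)] at this
  · have h1 := h t₀ ht₀
    have e : φ t₀ / w t₀ / 2 * w t₀ = φ t₀ / 2 := by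
      have := (hw0 _ ht₀).ne'
      field_simp
    rw [e] at h1
    rw [div_le_iff₀ (hw0 _ ht₀)]
    nlinarith [hw1 t₀ ht₀]

theorem approach_core (c : ι) {T A : ℝ} (hT : 0 < T) (hA : 0 ≤ A) :
    ∃ C, 0 ≤ C ∧ ∀ (D D' : ℝ → ι → ℂ) (s B : ℝ), 0 < s → s ≤ T → 0 ≤ B →
      (∀ t ∈ Icc s T, ∀ i, HasDerivAt (fun t => D t i) (D' t i) t) →
      (∀ t ∈ Icc s T, ∀ N J, 0 ≤ N → (∀ i, i ≠ c → ‖D t i‖ ≤ N) → ‖D t c‖ ≤ J →
        (∀ i, i ≠ c → ‖D' t i‖ ≤ A * (N + J + B)) ∧ ‖D' t c‖ ≤ A * (N / t + B)) →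
      (∀ i, ‖D T i‖ ≤ B) →
      ∀ t ∈ Icc s T, (∀ i, i ≠ c → ‖D t i‖ ≤ C * B) ∧ ‖D t c‖ ≤ C * B / √t := by
  set m : ℝ := 4 * A ^ 2 * √T + 2 * A + 1 with hm
  have hsT : 0 < √T := sqrt_pos.2 hT
  have hm1 : 1 ≤ m := by have : 0 ≤ 4 * A ^ 2 * √T := by positivity
                         linarith
  have hm0 : 0 < m := by linarith
  set lam : ℝ := 2 * m ^ 2 with hlam
  have hlam0 : 0 < lam := by positivity
  set C₁ : ℝ := 2 * (1 + A * (2 + A * T) * T) with hC₁
  have hC₁0 : 0 ≤ C₁ := by positivity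
  set eT := exp (lam * T) with heT
  refine ⟨C₁ * eT + ((1 + A * T) * √T + A * C₁ * eT), by positivity, ?_⟩
  intro D D' s B hs hsT' hB hd h1 h0
  let φ : ℝ → ℝ := fun t => ‖fun i => if i = c then 0 else D t i‖
  let w : ℝ → ℝ := fun t => exp (lam * (T - t))
  have hφc : ContinuousOn φ (Icc s T) := by
    refine ContinuousOn.norm (continuousOn_pi.2 fun i => ?_)
    by_cases hi : i = c
    · simp only [hi, if_true]; exact continuousOn_const
    · simp only [hi, if_false]
      exact fun t ht => (hd t ht i).continuousAt.continuousWithinAt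
  have hw1 : ∀ t ∈ Icc s T, 1 ≤ w t := fun t ht =>
    one_le_exp (mul_nonneg hlam0.le (by linarith [ht.2]))
  obtain ⟨Q, hQ0, hQ, hQB⟩ := exists_weighted_sup hsT' φ w hφc (by fun_prop) hw1
    (fun t => norm_nonneg _)
  have hN : ∀ t ∈ Icc s T, ∀ i, i ≠ c → ‖D t i‖ ≤ Q * w t := fun t ht i hi => by
    have := norm_le_pi_norm (fun i => if i = c then 0 else D t i) i
    simp only [hi, if_false] at this
    exact this.trans (hQ t ht)
  have hwd : ∀ t, HasDerivAt w (-lam * w t) t := fun t => by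
    have : HasDerivAt (fun t => lam * (T - t)) (-lam) t := by
      simpa using ((hasDerivAt_id t).const_sub T).const_mul lam
    simpa [w, mul_comm] using this.exp
  have hw0 : ∀ t, 0 < w t := fun t => exp_pos _
  -- the singular component
  have hJ : ∀ t ∈ Icc s T, ‖D t c‖ ≤ B + A * B * T + A * Q * w t / (2 * m * √t) := by
    intro t ht
    have hsub : Icc t T ⊆ Icc s T := Icc_subset_Icc_left ht.1
    have := incr_le (f := fun t => D t c) (f' := fun t => D' t c) ht.2
      (b := fun u => -(A * Q / (2 * m)) * (w u / √u) + A * B * u)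
      (b' := fun u => -(A * Q / (2 * m)) * ((-lam * w u * √u - w u * (1 / (2 * √u))) / √u ^ 2) +
        A * B * 1)
      (fun u hu => hd u (hsub hu) c)
      (fun u hu => by
        have hu0 : 0 < u := lt_of_lt_of_le hs (hsub hu).1
        exact (((hwd u).div (hasDerivAt_sqrt hu0.ne') (sqrt_pos.2 hu0).ne').const_mul _).add
          ((hasDerivAt_id u).const_mul _))
      (fun u hu => by
        have hu0 : 0 < u := lt_of_lt_of_le hs (hsub hu).1
        have hsu : 0 < √u := sqrt_pos.2 hu0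
        refine ((h1 u (hsub hu) (Q * w u) _ (mul_nonneg hQ0 (hw0 u).le) (hN u (hsub hu))
          le_rfl).2).trans ?_
        have key : 1 / u ≤ -(1 / (2 * m)) * ((-lam * √u - 1 / (2 * √u)) / √u ^ 2) := by
          have e : -(1 / (2 * m)) * ((-lam * √u - 1 / (2 * √u)) / √u ^ 2) =
              (4 * m ^ 2 * √u ^ 2 + 1) / (4 * m * √u) * (1 / √u ^ 2) := by
            rw [hlam]; field_simp; ring
          rw [e, sq_sqrt hu0.le]
          refine le_mul_of_one_le_left (by positivity) ?_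
          rw [le_div_iff₀ (by positivity)]
          nlinarith [sq_nonneg (2 * m * √u - 1), sq_sqrt hu0.le]
        have := mul_le_mul_of_nonneg_left key (mul_nonneg (mul_nonneg hA hQ0) (hw0 u).le)
        calc A * (Q * w u / u + B) = A * Q * w u * (1 / u) + A * B * 1 := by ring
          _ ≤ A * Q * w u * (-(1 / (2 * m)) * ((-lam * √u - 1 / (2 * √u)) / √u ^ 2)) +
              A * B * 1 := by linarith
          _ = _ := by ring)
    have h2 := h0 c
    have h3 : ‖D t c‖ ≤ ‖D T c‖ + ‖D T c - D t c‖ := by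
      have := norm_sub_le (D T c) (D T c - D t c)
      rwa [sub_sub_cancel] at this
    have ht0 : 0 < t := lt_of_lt_of_le hs ht.1
    have h4 : 0 ≤ A * Q / (2 * m) * (w T / √T) := by have := hw0 T; positivity
    have h5 : 0 ≤ A * B * t := by positivity
    have e : A * Q * w t / (2 * m * √t) = A * Q / (2 * m) * (w t / √t) := by
      have := (sqrt_pos.2 ht0).ne'
      field_simp
    rw [e]
    linarith
  -- the regular components
  have hQ' : Q ≤ C₁ * B := by
    have := hQB (B + A * (2 * B + A * B * T) * T) (by positivity) fun t ht => by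
      refine (pi_norm_le_iff_of_nonneg (by have := hw0 t; positivity)).2 fun i => ?_
      by_cases hi : i = c
      · simp only [hi, if_true, norm_zero]; have := hw0 t; positivity
      simp only [hi, if_false]
      have hsub : Icc t T ⊆ Icc s T := Icc_subset_Icc_left ht.1
      have ht0 : 0 < t := lt_of_lt_of_le hs ht.1
      have := incr_le (f := fun t => D t i) (f' := fun t => D' t i) ht.2
        (b := fun u => -(A * Q / lam) * w u + A * (2 * B + A * B * T) * u +
          A ^ 2 * Q * w t / m * √u)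
        (b' := fun u => -(A * Q / lam) * (-lam * w u) + A * (2 * B + A * B * T) * 1 +
          A ^ 2 * Q * w t / m * (1 / (2 * √u)))
        (fun u hu => hd u (hsub hu) i)
        (fun u hu => by
          have hu0 : 0 < u := lt_of_lt_of_le hs (hsub hu).1
          exact (((hwd u).const_mul _).add ((hasDerivAt_id u).const_mul _)).add
            ((hasDerivAt_sqrt hu0.ne').const_mul _))
        (fun u hu => by
          have hu0 : 0 < u := lt_of_lt_of_le hs (hsub hu).1
          have hsu : 0 < √u := sqrt_pos.2 hu0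
          refine ((h1 u (hsub hu) (Q * w u) _ (mul_nonneg hQ0 (hw0 u).le) (hN u (hsub hu))
            (hJ u (hsub hu))).1 i hi).trans ?_
          have hwu : w u ≤ w t := exp_le_exp.2 (by nlinarith [hu.1])
          have h6 : A * Q * w u / (2 * m * √u) ≤ A * Q * w t / (2 * m * √u) := by gcongr
          have h7 := mul_le_mul_of_nonneg_left h6 hA
          have e1 : -(A * Q / lam) * (-lam * w u) = A * (Q * w u) := by field_simp
          have e2 : A ^ 2 * Q * w t / m * (1 / (2 * √u)) = A * (A * Q * w t / (2 * m * √u)) := by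
            field_simp
          rw [e1, e2]
          nlinarith)
      have h2 := h0 i
      have h3 : ‖D t i‖ ≤ ‖D T i‖ + ‖D T i - D t i‖ := by
        have := norm_sub_le (D T i) (D T i - D t i)
        rwa [sub_sub_cancel] at this
      have h4 : 0 ≤ A * Q / lam * w T := by have := hw0 T; positivity
      have h5 : 0 ≤ A * (2 * B + A * B * T) * t := by positivity
      have h6 : 0 ≤ A ^ 2 * Q * w t / m * √t := by have := hw0 t; positivity
      have hQw : 0 ≤ Q * w t := mul_nonneg hQ0 (hw0 t).le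
      have h7 : A * Q / lam * w t ≤ Q * w t / 4 := by
        have : A / lam ≤ 1 / 4 := by
          rw [div_le_iff₀ hlam0, hlam]
          have : 0 ≤ 4 * A ^ 2 * √T := by positivity
          nlinarith
        calc A * Q / lam * w t = A / lam * (Q * w t) := by ring
          _ ≤ 1 / 4 * (Q * w t) := by gcongr
          _ = _ := by ring
      have h8 : A ^ 2 * Q * w t / m * √T ≤ Q * w t / 4 := by
        have : A ^ 2 * √T / m ≤ 1 / 4 := by
          rw [div_le_iff₀ hm0]; linarith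
        calc A ^ 2 * Q * w t / m * √T = A ^ 2 * √T / m * (Q * w t) := by ring
          _ ≤ 1 / 4 * (Q * w t) := by gcongr
          _ = _ := by ring
      linarith
    calc Q ≤ _ := this
      _ = C₁ * B := by rw [hC₁]; ring
  intro t ht
  have ht0 : 0 < t := lt_of_lt_of_le hs ht.1
  have hst : 0 < √t := sqrt_pos.2 ht0
  have hwt : w t ≤ eT := exp_le_exp.2 (by nlinarith)
  have heT0 : 0 < eT := exp_pos _
  have hQw : Q * w t ≤ C₁ * B * eT := by have := hw0 t; gcongr
  constructor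
  · intro i hi
    refine (hN t ht i hi).trans (hQw.trans ?_)
    have : 0 ≤ ((1 + A * T) * √T + A * C₁ * eT) * B := by positivity
    nlinarith
  · refine (hJ t ht).trans ?_
    rw [le_div_iff₀ hst]
    have h1 : √t ≤ √T := sqrt_le_sqrt ht.2
    have h2 : A * Q * w t / (2 * m * √t) * √t ≤ A * (C₁ * B * eT) := by
      have e : A * Q * w t / (2 * m * √t) * √t = A * (Q * w t) / (2 * m) := by field_simp
      rw [e, div_le_iff₀ (by positivity)]
      have h3 : A * (Q * w t) ≤ A * (C₁ * B * eT) := by gcongr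
      have h4 : 0 ≤ A * (C₁ * B * eT) := by positivity
      nlinarith
    have h3 : (B + A * B * T) * √t ≤ (B + A * B * T) * √T := by gcongr
    have h4 : 0 ≤ C₁ * eT * B := by positivity
    nlinarith

theorem leave_core (c j k : ι) (hj : j ≠ c) (hk : k ≠ c) {T A : ℝ} (hT : 0 < T) (hA : 0 ≤ A) :
    ∃ C, 0 ≤ C ∧ ∀ (D D' : ℝ → ι → ℂ) (β β' : ℝ → ℝ) (s B : ℝ), 0 < s → s ≤ T → 0 ≤ B →
      (∀ t ∈ Icc s T, ∀ i, HasDerivAt (fun t => D t i) (D' t i) t) →
      (∀ t ∈ Icc s T, HasDerivAt β (β' t) t) → (∀ t ∈ Icc s T, 0 ≤ β' t) →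
      (∀ t ∈ Icc s T, β t - β s ≤ B) →
      (∀ t ∈ Icc s T, ∀ i, i ≠ c → ‖D' t i‖ ≤ A * (‖D t‖ + B / √t)) →
      (∀ t ∈ Icc s T, ‖D' t c‖ ≤ A * (‖(D t j - D t k) - (D s j - D s k)‖ / t) + β' t) →
      ‖D s‖ ≤ B → ∀ t ∈ Icc s T, ‖D t‖ ≤ C * B := by
  set A₂ : ℝ := A + 2 * A ^ 2 with hA₂
  have hA₂0 : 0 ≤ A₂ := by positivity
  set lam : ℝ := 2 * A₂ + 1 with hlam
  have hlam0 : 0 < lam := by positivity
  set eT := exp (lam * T) with heT
  refine ⟨2 * (2 + 4 * A₂ * √T) * eT, by positivity, ?_⟩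
  intro D D' β β' s B hs hsT hB hd hβ hβ0 hβB h1 h2 h0
  let w : ℝ → ℝ := fun t => exp (lam * t)
  have hφc : ContinuousOn (fun t => ‖D t‖) (Icc s T) :=
    ContinuousOn.norm (continuousOn_pi.2 fun i t ht =>
      (hd t ht i).continuousAt.continuousWithinAt)
  have hw1 : ∀ t ∈ Icc s T, 1 ≤ w t := fun t ht =>
    one_le_exp (mul_nonneg hlam0.le (by linarith [ht.1]))
  obtain ⟨Q, hQ0, hQ, hQB⟩ := exists_weighted_sup hsT (fun t => ‖D t‖) w hφc (by fun_prop) hw1
    (fun t => norm_nonneg _)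
  have hwd : ∀ t, HasDerivAt w (lam * w t) t := fun t => by
    have : HasDerivAt (fun t => lam * t) lam t := by
      simpa using (hasDerivAt_id t).const_mul lam
    simpa [w, mul_comm] using this.exp
  have hw0 : ∀ t, 0 < w t := fun t => exp_pos _
  have hp : ∀ t ∈ Icc s T, ‖(D t j - D t k) - (D s j - D s k)‖ ≤
      2 * A * (Q * w t * t + 2 * B * √t) := by
    intro t ht
    have hsub : Icc s t ⊆ Icc s T := Icc_subset_Icc_right ht.2
    have := incr_le (f := fun t => D t j - D t k) (f' := fun t => D' t j - D' t k) ht.1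
      (b := fun u => 2 * A * (Q * w t * u + 2 * B * √u))
      (b' := fun u => 2 * A * (Q * w t * 1 + 2 * B * (1 / (2 * √u))))
      (fun u hu => (hd u (hsub hu) j).sub (hd u (hsub hu) k))
      (fun u hu => by
        have hu0 : 0 < u := lt_of_lt_of_le hs hu.1
        exact (((hasDerivAt_id u).const_mul _).add
          ((hasDerivAt_sqrt hu0.ne').const_mul _)).const_mul _)
      (fun u hu => by
        have hu0 : 0 < u := lt_of_lt_of_le hs hu.1
        have hsu : 0 < √u := sqrt_pos.2 hu0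
        have a1 := h1 u (hsub hu) j hj
        have a2 := h1 u (hsub hu) k hk
        have a3 := norm_sub_le (D' u j) (D' u k)
        have hwu : w u ≤ w t := exp_le_exp.2 (by nlinarith [hu.2])
        have a4 : ‖D u‖ ≤ Q * w t := (hQ u (hsub hu)).trans (by gcongr)
        have e : 2 * B * (1 / (2 * √u)) = B / √u := by field_simp
        rw [e]
        nlinarith)
    have h3 : 0 ≤ 2 * A * (Q * w t * s + 2 * B * √s) := by have := hw0 t; positivity
    linarith
  have hQ' : Q ≤ 2 * (2 * B + 4 * A₂ * B * √T) := by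
    refine hQB _ (by positivity) fun t ht => ?_
    refine (pi_norm_le_iff_of_nonneg (by have := hw0 t; positivity)).2 fun i => ?_
    have hsub : Icc s t ⊆ Icc s T := Icc_subset_Icc_right ht.2
    have := incr_le (f := fun t => D t i) (f' := fun t => D' t i) ht.1
      (b := fun u => A₂ * Q / lam * w u + 4 * A₂ * B * √u + β u)
      (b' := fun u => A₂ * Q / lam * (lam * w u) + 4 * A₂ * B * (1 / (2 * √u)) + β' u)
      (fun u hu => hd u (hsub hu) i)
      (fun u hu => by
        have hu0 : 0 < u := lt_of_lt_of_le hs hu.1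
        exact (((hwd u).const_mul _).add ((hasDerivAt_sqrt hu0.ne').const_mul _)).add
          (hβ u (hsub hu)))
      (fun u hu => by
        have hu0 : 0 < u := lt_of_lt_of_le hs hu.1
        have hsu : 0 < √u := sqrt_pos.2 hu0
        have e1 : A₂ * Q / lam * (lam * w u) = A₂ * (Q * w u) := by field_simp
        have e2 : 4 * A₂ * B * (1 / (2 * √u)) = 2 * A₂ * (B / √u) := by field_simp; ring
        rw [e1, e2]
        have hx : 0 ≤ Q * w u := mul_nonneg hQ0 (hw0 u).le
        have hy : 0 ≤ B / √u := by positivity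
        have hb := hβ0 u (hsub hu)
        by_cases hi : i = c
        · subst hi
          refine (h2 u (hsub hu)).trans ?_
          have a1 : ‖(D u j - D u k) - (D s j - D s k)‖ / u ≤ 2 * A * (Q * w u + 2 * (B / √u)) := by
            rw [div_le_iff₀ hu0]
            refine (hp u (hsub hu)).trans (le_of_eq ?_)
            have e3 : B / √u * u = B * √u := by
              rw [div_mul_eq_mul_div, mul_div_assoc, div_sqrt]
            linear_combination (-(4 * A)) * e3
          have a2 := mul_le_mul_of_nonneg_left a1 hA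
          have a3 : 0 ≤ A * (Q * w u) := mul_nonneg hA hx
          have a4 : 0 ≤ A * (B / √u) := mul_nonneg hA hy
          rw [hA₂]
          nlinarith
        · refine (h1 u (hsub hu) i hi).trans ?_
          have a1 := mul_le_mul_of_nonneg_left (hQ u (hsub hu)) hA
          have a3 : 0 ≤ A ^ 2 * (Q * w u) := by positivity
          have a4 : 0 ≤ A * (B / √u) := mul_nonneg hA hy
          have a5 : 0 ≤ A ^ 2 * (B / √u) := by positivity
          rw [hA₂]
          nlinarith)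
    have h3 : ‖D t i‖ ≤ ‖D s i‖ + ‖D t i - D s i‖ := by
      have := norm_add_le (D s i) (D t i - D s i)
      rwa [add_sub_cancel] at this
    have h4 := (norm_le_pi_norm (D s) i).trans h0
    have h5 := hβB t ht
    have h6 : 0 ≤ A₂ * Q / lam * w s := by have := hw0 s; positivity
    have h7 : 0 ≤ 4 * A₂ * B * √s := by positivity
    have h8 : 4 * A₂ * B * √t ≤ 4 * A₂ * B * √T := by gcongr; exact ht.2
    have h9 : A₂ * Q / lam * w t ≤ Q / 2 * w t := by
      have : A₂ / lam ≤ 1 / 2 := by rw [div_le_iff₀ hlam0]; linarith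
      have hx : 0 ≤ Q * w t := mul_nonneg hQ0 (hw0 t).le
      calc A₂ * Q / lam * w t = A₂ / lam * (Q * w t) := by ring
        _ ≤ 1 / 2 * (Q * w t) := by gcongr
        _ = _ := by ring
    linarith
  intro t ht
  have hwt : w t ≤ eT := exp_le_exp.2 (by nlinarith [ht.2])
  calc ‖D t‖ ≤ Q * w t := hQ t ht
    _ ≤ 2 * (2 * B + 4 * A₂ * B * √T) * eT := by have := hw0 t; gcongr
    _ = _ := by ring

end Pool.Agent.MP_62f0b1_an.Xi

end MrgPart1

-- ======== part 2: formerly Pool.Agent.MP_62f0b1_an.xi.Side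
section MrgPart2

/-!
Collinear base orbits next to a collision, and the basic deviation estimates.
-/

set_option autoImplicit false
set_option linter.unusedSectionVars false

open Set Real

namespace Pool.Agent.MP_62f0b1_an.Xi

variable {ι : Type*} [Fintype ι] [DecidableEq ι]

/-- Collinear base orbit. -/
def bs (X σ : ι → ℝ) (t : ℝ) (i : ι) : ℝ := X i + t * σ i

/-- Absolute gaps along the base orbit. -/
def gp (nx pv : ι → ι) (X σ : ι → ℝ) (t : ℝ) (i : ι) : ℝ :=
  σ i * (bs X σ t (nx i) - bs X σ t (pv i))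

/-- A collinear orbit leaving a simple collision of gap `c` at time `0`. -/
structure Side (nx pv : ι → ι) (c : ι) (X σ : ι → ℝ) (T a : ℝ) : Prop where
  hT : 0 < T
  ha : 0 < a
  inv1 : ∀ i, nx (pv i) = i
  inv2 : ∀ i, pv (nx i) = i
  ne1 : nx c ≠ c
  ne2 : pv c ≠ c
  sgn : ∀ i, σ i = 1 ∨ σ i = -1
  sc : σ c = 1
  snx : σ (nx c) = 1
  spv : σ (pv c) = -1
  col : X (nx c) = X (pv c)
  gap : ∀ i, i ≠ c → ∀ t ∈ Icc 0 T, a ≤ gp nx pv X σ t i

/-- The solution of the normal variational equation that is regular at the collision. -/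
structure Reg (nx pv : ι → ι) (c : ι) (X σ : ι → ℝ) (T : ℝ) (η : ℝ → ι → ℝ) (H : ℝ) : Prop where
  hH : 0 ≤ H
  der : ∀ t ∈ Ioc 0 T, ∀ i,
    HasDerivAt (fun u => η u i) ((η t (nx i) - η t (pv i)) / gp nx pv X σ t i) t
  near : ∀ t ∈ Icc 0 T, ∀ i, |η t i - (if i = c then 1 else 0)| ≤ H * t

/-- Solutions of the truncated system. -/
def Sol (nx pv : ι → ι) (r : ℝ) (Z : ℝ → ι → ℂ) (u v : ℝ) : Prop :=
  ∀ t ∈ Icc u v, ∀ i, HasDerivAt (fun t => Z t i) (U r (Z t (nx i) - Z t (pv i))) t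

variable {nx pv : ι → ι} {c : ι} {X σ : ι → ℝ} {T a : ℝ} {η : ℝ → ι → ℝ} {H : ℝ}

theorem Side.gp_c (S : Side nx pv c X σ T a) (t : ℝ) : gp nx pv X σ t c = 2 * t := by
  simp only [gp, bs, S.sc, S.snx, S.spv, S.col]; ring

theorem Side.sq (S : Side nx pv c X σ T a) (i : ι) : σ i * σ i = 1 := by
  rcases S.sgn i with h | h <;> simp [h]

theorem Side.gp_pos (S : Side nx pv c X σ T a) {t : ℝ} (ht : t ∈ Ioc 0 T) (i : ι) :
    0 < gp nx pv X σ t i := by
  by_cases hi : i = c
  · rw [hi, S.gp_c]; linarith [ht.1]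
  · exact lt_of_lt_of_le S.ha (S.gap i hi t ⟨ht.1.le, ht.2⟩)

theorem Side.split (S : Side nx pv c X σ T a) (z : ι → ℂ) (t : ℝ) (i : ι) :
    z (nx i) - z (pv i) = ((σ i * gp nx pv X σ t i : ℝ) : ℂ) +
      ((z (nx i) - bs X σ t (nx i)) - (z (pv i) - bs X σ t (pv i))) := by
  have : σ i * gp nx pv X σ t i = bs X σ t (nx i) - bs X σ t (pv i) := by
    rw [gp, ← mul_assoc, S.sq, one_mul]
  rw [this]; push_cast; ring

theorem Side.sum_swap (S : Side nx pv c X σ T a) (x y : ι → ℝ) :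
    ∑ i, x i * (y (nx i) - y (pv i)) = -∑ i, y i * (x (nx i) - x (pv i)) := by
  let e : ι ≃ ι := ⟨nx, pv, S.inv2, S.inv1⟩
  have h1 : ∑ i, x i * y (nx i) = ∑ i, y i * x (pv i) := by
    refine Fintype.sum_equiv e _ _ fun i => ?_
    change _ = y (nx i) * x (pv (nx i))
    rw [S.inv2, mul_comm]
  have h2 : ∑ i, y i * x (nx i) = ∑ i, x i * y (pv i) := by
    refine Fintype.sum_equiv e _ _ fun i => ?_
    change _ = x (nx i) * y (pv (nx i))
    rw [S.inv2, mul_comm]
  simp only [mul_sub, Finset.sum_sub_distrib]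
  rw [h1, h2]; ring

theorem hasDerivAt_bs (X σ : ι → ℝ) (t : ℝ) (i : ι) :
    HasDerivAt (fun t => ((bs X σ t i : ℝ) : ℂ)) (σ i : ℝ) t := by
  have : HasDerivAt (fun t => bs X σ t i) (σ i) t := by
    simpa [bs] using ((hasDerivAt_id t).mul_const (σ i)).const_add (X i)
  exact this.ofReal_comp

theorem Reg.abs_le (R : Reg nx pv c X σ T η H) {t : ℝ} (ht : t ∈ Icc 0 T) (i : ι) :
    |η t i| ≤ 1 + H * T := by
  have h1 := R.near t ht i
  have h2 : H * t ≤ H * T := mul_le_mul_of_nonneg_left ht.2 R.hH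
  have h3 := abs_add_le (η t i - if i = c then 1 else 0) (if i = c then 1 else 0)
  rw [sub_add_cancel] at h3
  have h4 : |(if i = c then 1 else 0 : ℝ)| ≤ 1 := by split_ifs <;> simp
  linarith

theorem Reg.diff_le (R : Reg nx pv c X σ T η H) {t : ℝ} (ht : t ∈ Icc 0 T) (i : ι) :
    |η t (nx i) - η t (pv i)| ≤ 2 * (1 + H * T) := by
  have := abs_sub (η t (nx i)) (η t (pv i))
  linarith [R.abs_le ht (nx i), R.abs_le ht (pv i)]

theorem Reg.diff_c (S : Side nx pv c X σ T a) (R : Reg nx pv c X σ T η H) {t : ℝ}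
    (ht : t ∈ Icc 0 T) : |η t (nx c) - η t (pv c)| ≤ 2 * H * t := by
  have h1 := R.near t ht (nx c)
  have h2 := R.near t ht (pv c)
  simp only [S.ne1, S.ne2, if_false, sub_zero] at h1 h2
  have := abs_sub (η t (nx c)) (η t (pv c))
  linarith

theorem norm_I_mul (x : ℝ) : ‖Complex.I * (x : ℂ)‖ = |x| := by
  rw [norm_mul, Complex.norm_I, one_mul, Complex.norm_real, Real.norm_eq_abs]

theorem log_le_of {s l t T : ℝ} (hs : s = exp (-l)) (hl : 1 ≤ l) (hst : s ≤ t) :
    log T - log t ≤ (|log T| + 1) * l := by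
  have h0 : 0 < s := hs ▸ exp_pos _
  have h1 : log s ≤ log t := log_le_log h0 hst
  rw [hs, log_exp] at h1
  nlinarith [le_abs_self (log T), abs_nonneg (log T)]

end Pool.Agent.MP_62f0b1_an.Xi

end MrgPart2

-- ======== part 3: formerly Pool.Agent.MP_62f0b1_an.xi.Jets
section MrgPart3

/-!
Orders and leading forms of smooth functions at the origin.
-/

set_option autoImplicit false
set_option linter.unusedSectionVars false

open Set Filter Topology Asymptotics MvPolynomial
open scoped ContDiff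

namespace Pool.Agent.MP_62f0b1_an.Xi

variable {κ : Type*} [Fintype κ] [DecidableEq κ]

/-- A polynomial as a function. -/
noncomputable def ev (G : MvPolynomial κ ℝ) : (κ → ℝ) → ℝ := fun z => eval z G

/-- Vanishing to order `j` at the origin. -/
def Od (h : (κ → ℝ) → ℝ) (j : ℕ) : Prop := h =O[𝓝 0] fun δ => ‖δ‖ ^ j

/-- `G` is the form of degree `j` of `h` and there is no lower term. -/
def Ld (h : (κ → ℝ) → ℝ) (j : ℕ) (G : MvPolynomial κ ℝ) : Prop :=
  G.IsHomogeneous j ∧ Od (fun δ => h δ - ev G δ) (j + 1)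

theorem ev_analytic (G : MvPolynomial κ ℝ) (z : κ → ℝ) : AnalyticAt ℝ (ev G) z :=
  AnalyticOnNhd.eval_mvPolynomial G z (mem_univ _)

theorem ev_contDiff (G : MvPolynomial κ ℝ) : ContDiff ℝ ∞ (ev G) :=
  contDiff_iff_contDiffAt.2 fun z => (ev_analytic G z).contDiffAt

theorem ev_diff (G : MvPolynomial κ ℝ) : Differentiable ℝ (ev G) :=
  (ev_contDiff G).differentiable (by simp)

theorem ev_eq_zero {G : MvPolynomial κ ℝ} (h : ∀ z, ev G z = 0) : G = 0 :=
  MvPolynomial.funext fun z => by simpa [ev] using h z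

theorem sum_deg {G : MvPolynomial κ ℝ} {j : ℕ} (hG : G.IsHomogeneous j) {d : κ →₀ ℕ}
    (hd : d ∈ G.support) : ∑ i, d i = j := by
  by_contra h
  exact mem_support_iff.1 hd (hG.coeff_eq_zero (by rwa [Finsupp.degree_eq_sum]))

theorem ev_hom {G : MvPolynomial κ ℝ} {j : ℕ} (hG : G.IsHomogeneous j) (s : ℝ) (z : κ → ℝ) :
    ev G (s • z) = s ^ j * ev G z := by
  simp only [ev, eval_eq', Finset.mul_sum]
  refine Finset.sum_congr rfl fun d hd => ?_
  simp only [Pi.smul_apply, smul_eq_mul, mul_pow, Finset.prod_mul_distrib,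
    Finset.prod_pow_eq_pow_sum, sum_deg hG hd]
  ring

theorem ev_bound {G : MvPolynomial κ ℝ} {j : ℕ} (hG : G.IsHomogeneous j) :
    ∃ C, 0 ≤ C ∧ ∀ z, |ev G z| ≤ C * ‖z‖ ^ j := by
  refine ⟨∑ d ∈ G.support, |G.coeff d|, by positivity, fun z => ?_⟩
  simp only [ev, eval_eq', Finset.sum_mul]
  refine (Finset.abs_sum_le_sum_abs _ _).trans (Finset.sum_le_sum fun d hd => ?_)
  rw [abs_mul, Finset.abs_prod, ← sum_deg hG hd, ← Finset.prod_pow_eq_pow_sum]
  gcongr with i
  rw [abs_pow]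
  gcongr
  exact norm_le_pi_norm z i

theorem od_of_hom {G : MvPolynomial κ ℝ} {j : ℕ} (hG : G.IsHomogeneous j) : Od (ev G) j := by
  obtain ⟨C, -, hC⟩ := ev_bound hG
  exact IsBigO.of_bound C (Eventually.of_forall fun z => by simpa using hC z)

theorem pow_bigO {j k : ℕ} (h : j ≤ k) :
    (fun v : κ → ℝ => ‖v‖ ^ k) =O[𝓝 0] fun v : κ → ℝ => ‖v‖ ^ j := by
  refine IsBigO.of_bound 1 ?_
  filter_upwards [Metric.ball_mem_nhds (0 : κ → ℝ) one_pos] with v hv
  rw [mem_ball_zero_iff] at hv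
  simp only [norm_pow, norm_norm, one_mul]
  exact pow_le_pow_of_le_one (norm_nonneg _) hv.le h

theorem Od.mono {h : (κ → ℝ) → ℝ} {j k : ℕ} (hk : Od h k) (hj : j ≤ k) : Od h j :=
  IsBigO.trans hk (pow_bigO hj)

theorem Od.mul {h h' : (κ → ℝ) → ℝ} {j k : ℕ} (hj : Od h j) (hk : Od h' k) :
    Od (fun δ => h δ * h' δ) (j + k) := by
  simpa only [Od, pow_add] using IsBigO.mul hj hk

theorem od_zero {h : (κ → ℝ) → ℝ} (hh : ContinuousAt h 0) : Od h 0 := by
  simpa [Od] using hh.tendsto.isBigO_one ℝ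

theorem Od.ball {F : Type*} [NormedAddCommGroup F] {h : (κ → ℝ) → F} {j : ℕ}
    (hj : h =O[𝓝 0] fun δ => ‖δ‖ ^ j) :
    ∃ C ρ, 0 ≤ C ∧ 0 < ρ ∧ ∀ δ, ‖δ‖ < ρ → ‖h δ‖ ≤ C * ‖δ‖ ^ j := by
  obtain ⟨C, hC, h1⟩ := hj.exists_nonneg
  obtain ⟨ρ, hρ, h2⟩ := Metric.eventually_nhds_iff.1 h1.bound
  exact ⟨C, ρ, hC, hρ, fun δ hδ => by simpa using h2 (by simpa using hδ)⟩

theorem zero_of_small {x C : ℝ} (h : ∀ᶠ s in 𝓝[>] (0 : ℝ), |x| ≤ C * s) : x = 0 := by
  have h1 : Tendsto (fun s : ℝ => C * s) (𝓝[>] 0) (𝓝 0) := by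
    have : Tendsto (fun s : ℝ => C * s) (𝓝 0) (𝓝 (C * 0)) := (continuous_const.mul continuous_id).tendsto 0
    rw [mul_zero] at this
    exact this.mono_left nhdsWithin_le_nhds
  exact abs_nonpos_iff.1 (ge_of_tendsto h1 h)

theorem ev_small_ray (z : κ → ℝ) {ρ : ℝ} (hρ : 0 < ρ) :
    ∀ᶠ s in 𝓝[>] (0 : ℝ), 0 < s ∧ s * ‖z‖ < ρ := by
  have : Tendsto (fun s : ℝ => s * ‖z‖) (𝓝 0) (𝓝 (0 * ‖z‖)) :=
    (continuous_id.mul continuous_const).tendsto 0
  rw [zero_mul] at this
  filter_upwards [self_mem_nhdsWithin, mem_nhdsWithin_of_mem_nhds (this.eventually (gt_mem_nhds hρ))]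
    with s h1 h2 using ⟨h1, h2⟩

theorem eq_zero_of_od {G : MvPolynomial κ ℝ} {j : ℕ} (hG : G.IsHomogeneous j)
    (h : Od (ev G) (j + 1)) : G = 0 := by
  obtain ⟨C, ρ, -, hρ, hC⟩ := Od.ball h
  refine ev_eq_zero fun z => zero_of_small (C := C * ‖z‖ ^ (j + 1)) ?_
  filter_upwards [ev_small_ray z hρ] with s ⟨hs, hs'⟩
  have e : ‖s • z‖ = s * ‖z‖ := by rw [norm_smul, Real.norm_eq_abs, abs_of_pos hs]
  have := hC (s • z) (by rwa [e])
  rw [ev_hom hG, e, Real.norm_eq_abs, abs_mul, abs_of_pos (pow_pos hs j)] at this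
  refine le_of_mul_le_mul_left (this.trans (le_of_eq (by ring))) (pow_pos hs j)

theorem Ld.od {h : (κ → ℝ) → ℝ} {j : ℕ} {G : MvPolynomial κ ℝ} (hL : Ld h j G) : Od h j := by
  have := IsBigO.add (hL.2.mono (Nat.le_succ j)) (od_of_hom hL.1)
  simpa [Od] using this

theorem Ld.not_od {h : (κ → ℝ) → ℝ} {j : ℕ} {G : MvPolynomial κ ℝ} (hL : Ld h j G) (hG : G ≠ 0) :
    ¬ Od h (j + 1) := fun h1 => hG (eq_zero_of_od hL.1 (by simpa [Od] using IsBigO.sub h1 hL.2))

theorem Ld.od_succ {h : (κ → ℝ) → ℝ} {j : ℕ} (hL : Ld h j 0) : Od h (j + 1) := by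
  simpa [ev] using hL.2

theorem Ld.mul {h h' : (κ → ℝ) → ℝ} {j k : ℕ} {G G' : MvPolynomial κ ℝ} (hL : Ld h j G)
    (hL' : Ld h' k G') : Ld (fun δ => h δ * h' δ) (j + k) (G * G') := by
  refine ⟨hL.1.mul hL'.1, ?_⟩
  have h1 := hL.2.mul hL'.od
  have h2 := (od_of_hom hL.1).mul hL'.2
  rw [show j + 1 + k = j + k + 1 by ring] at h1
  refine (IsBigO.add h1 h2).congr_left fun δ => ?_
  simp only [ev, map_mul]; ring

theorem taylor {h : (κ → ℝ) → ℝ} (hh : ContDiffAt ℝ ∞ h 0) :
    ∃ T : ℕ → MvPolynomial κ ℝ, (∀ k, (T k).IsHomogeneous k) ∧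
      ∀ N, Od (fun δ => h δ - ∑ k ∈ Finset.range (N + 1), ev (T k) δ) (N + 1) := by
  refine ⟨fun k => ∑ φ : Fin k → κ, C ((k.factorial : ℝ)⁻¹ *
    iteratedFDeriv ℝ k h 0 (fun m => Pi.single (φ m) 1)) * ∏ m, X (φ m), fun k => ?_, fun N => ?_⟩
  · refine IsHomogeneous.sum _ _ _ fun φ _ => IsHomogeneous.C_mul ?_ _
    simpa using IsHomogeneous.prod Finset.univ (fun m => (X (φ m) : MvPolynomial κ ℝ))
      (fun _ => 1) fun m _ => isHomogeneous_X ℝ (φ m)
  have e : ∀ (k : ℕ) (δ : κ → ℝ), ev (∑ φ : Fin k → κ, C ((k.factorial : ℝ)⁻¹ *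
      iteratedFDeriv ℝ k h 0 (fun m => Pi.single (φ m) 1)) * ∏ m, X (φ m)) δ =
      (k.factorial : ℝ)⁻¹ • iteratedFDeriv ℝ k h 0 (fun _ => δ) := by
    intro k δ
    have e1 : (fun _ : Fin k => δ) = fun _ => ∑ a, δ a • (Pi.single a 1 : κ → ℝ) := by
      ext _ b; simp [Finset.sum_apply, Pi.single_apply]
    rw [e1, ContinuousMultilinearMap.map_sum]
    simp only [ev, map_sum, map_mul, eval_C, map_prod, eval_X, smul_eq_mul, Finset.mul_sum,
      ContinuousMultilinearMap.map_smul_univ]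
    exact Finset.sum_congr rfl fun φ _ => by ring
  have h1 : ContDiffAt ℝ ((N + 1 : ℕ) : ℕ∞ω) h 0 := hh.of_le (by exact_mod_cast le_top)
  have h2 := h1.eventually (by simp)
  have h3 : ContinuousAt (iteratedFDeriv ℝ (N + 1) h) 0 := h1.continuousAt_iteratedFDeriv le_rfl
  have h4 := h3.norm.eventually (gt_mem_nhds (lt_add_one _))
  obtain ⟨ρ, hρ, h5⟩ := Metric.eventually_nhds_iff.1 (h2.and h4)
  refine IsBigO.of_bound (‖iteratedFDeriv ℝ (N + 1) h 0‖ + 1) ?_
  filter_upwards [Metric.ball_mem_nhds (0 : κ → ℝ) hρ] with δ hδ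
  rw [mem_ball_zero_iff] at hδ
  have hin : ∀ t ∈ Icc (0 : ℝ) 1, dist (0 + t • δ) 0 < ρ := fun t ht => by
    rw [zero_add, dist_zero_right, norm_smul, Real.norm_eq_abs, abs_of_nonneg ht.1]
    exact lt_of_le_of_lt (mul_le_of_le_one_left (norm_nonneg _) ht.2) hδ
  have h6 := map_add_eq_sum_add_integral_iteratedFDeriv (f := h) (x := 0) (y := δ) (n := N)
    fun t ht => by exact_mod_cast (h5 (hin t ht)).1
  rw [zero_add] at h6
  simp only [e]
  rw [h6, add_sub_cancel_left, norm_smul]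
  have h7 := intervalIntegral.norm_integral_le_of_norm_le_const (a := 0) (b := 1)
    (C := (‖iteratedFDeriv ℝ (N + 1) h 0‖ + 1) * ‖δ‖ ^ (N + 1))
    (f := fun t : ℝ => (1 - t) ^ N • iteratedFDeriv ℝ (N + 1) h (0 + t • δ) (fun _ => δ))
    fun t ht => by
      rw [uIoc_of_le zero_le_one] at ht
      have a1 := (h5 (hin t ⟨ht.1.le, ht.2⟩)).2
      have a2 := (iteratedFDeriv ℝ (N + 1) h (0 + t • δ)).le_opNorm (fun _ => δ)
      rw [Finset.prod_const, Finset.card_univ, Fintype.card_fin] at a2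
      have a3 : ‖(1 - t) ^ N‖ ≤ 1 := by
        rw [norm_pow, Real.norm_eq_abs, abs_of_nonneg (by linarith [ht.2])]
        exact pow_le_one₀ (by linarith [ht.2]) (by linarith [ht.1])
      rw [norm_smul]
      calc _ ≤ 1 * ((‖iteratedFDeriv ℝ (N + 1) h 0‖ + 1) * ‖δ‖ ^ (N + 1)) := by
            gcongr
            exact a2.trans (by gcongr)
        _ = _ := one_mul _
  have h8 : ‖(N.factorial : ℝ)⁻¹‖ ≤ 1 := by
    rw [norm_inv, Real.norm_natCast]
    exact inv_le_one_of_one_le₀ (by exact_mod_cast N.factorial_pos)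
  rw [sub_zero, abs_one, mul_one] at h7
  calc _ ≤ 1 * ((‖iteratedFDeriv ℝ (N + 1) h 0‖ + 1) * ‖δ‖ ^ (N + 1)) := by gcongr
    _ = _ := by simp

theorem exists_ld {h : (κ → ℝ) → ℝ} (hh : ContDiffAt ℝ ∞ h 0) {j : ℕ} (hj : Od h j) :
    ∃ G, Ld h j G := by
  obtain ⟨T, hT, hN⟩ := taylor hh
  have key : ∀ k, (∀ i < k, T i = 0) → Od (fun δ => h δ - ev (T k) δ) (k + 1) := fun k hk => by
    refine (hN k).congr_left fun δ => ?_
    rw [Finset.sum_range_succ, Finset.sum_eq_zero, zero_add]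
    intro i hi
    simp [hk i (Finset.mem_range.1 hi), ev]
  have z : ∀ k < j, T k = 0 := by
    intro k
    induction k using Nat.strong_induction_on with
    | _ k ih =>
      intro hk
      have h1 := key k fun i hi => ih i hi (hi.trans hk)
      exact eq_zero_of_od (hT k) (by simpa [Od] using IsBigO.sub (hj.mono hk) h1)
  exact ⟨T j, hT j, key j z⟩

theorem exists_ld_ne {h : (κ → ℝ) → ℝ} (hh : ContDiffAt ℝ ∞ h 0) {N : ℕ} (hN : ¬ Od h N) :
    ∃ j < N, ∃ G ≠ 0, Ld h j G := by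
  induction N with
  | zero => exact absurd (od_zero hh.continuousAt) hN
  | succ N ih =>
    by_cases h1 : Od h N
    · obtain ⟨G, hG⟩ := exists_ld hh h1
      exact ⟨N, Nat.lt_succ_self N, G, fun h0 => hN (h0 ▸ hG).od_succ, hG⟩
    · obtain ⟨j, hj, h2⟩ := ih h1
      exact ⟨j, hj.trans (Nat.lt_succ_self N), h2⟩

theorem contDiffAt_fderiv_apply {h : (κ → ℝ) → ℝ} (hh : ContDiffAt ℝ ∞ h 0) (w : κ → ℝ) :
    ContDiffAt ℝ ∞ (fun δ => fderiv ℝ h δ w) 0 :=
  (hh.fderiv_right (m := ∞) (by simp)).clm_apply contDiffAt_const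

theorem ev_diff_near {h : (κ → ℝ) → ℝ} (hh : ContDiffAt ℝ ∞ h 0) :
    ∀ᶠ δ in 𝓝 (0 : κ → ℝ), DifferentiableAt ℝ h δ :=
  ((hh.of_le (m := 1) (by simp)).eventually (by simp)).mono fun _ h1 =>
    h1.differentiableAt one_ne_zero

theorem od_fderiv_apply {h : (κ → ℝ) → ℝ} (hh : ContDiffAt ℝ ∞ h 0) {j : ℕ} (hj : Od h (j + 1))
    (w : κ → ℝ) : Od (fun δ => fderiv ℝ h δ w) j := by
  have hw := contDiffAt_fderiv_apply hh w
  suffices ∀ k ≤ j, Od (fun δ => fderiv ℝ h δ w) k from this j le_rfl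
  intro k
  induction k with
  | zero => exact fun _ => od_zero hw.continuousAt
  | succ k ih =>
    intro hk
    obtain ⟨G, hG⟩ := exists_ld hw (ih (Nat.le_of_succ_le hk))
    suffices G = 0 from (this ▸ hG).od_succ
    obtain ⟨C, ρ, hC0, hρ, hC⟩ := Od.ball hG.2
    obtain ⟨C', ρ', hC0', hρ', hC'⟩ := Od.ball (hj.mono (j := k + 2) (by omega))
    obtain ⟨ρ'', hρ'', hd⟩ := Metric.eventually_nhds_iff.1 (ev_diff_near hh)
    refine ev_eq_zero fun z => ?_
    set M := ‖z‖ + ‖w‖ with hM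
    have hM0 : 0 ≤ M := by positivity
    have hc : Continuous fun u : ℝ => ev G (z + u • w) := (ev_diff G).continuous.comp (by fun_prop)
    let P : ℝ → ℝ := fun τ => ∫ u in (0 : ℝ)..τ, ev G (z + u • w)
    have hP : ∀ τ, HasDerivAt P (ev G (z + τ • w)) τ := fun τ =>
      (hc.integral_hasStrictDerivAt 0 τ).hasDerivAt
    have hconst : ∀ τ ∈ Icc (-1 : ℝ) 1, P τ = P (-1) := by
      intro τ hτ
      refine sub_eq_zero.1 (zero_of_small (C := 2 * (C * M ^ (k + 1)) + 2 * (C' * M ^ (k + 2))) ?_)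
      have hev : ∀ᶠ s in 𝓝[>] (0 : ℝ), 0 < s ∧ s * M < min ρ (min ρ' ρ'') := by
        have := ev_small_ray (fun _ : Unit => M) (lt_min hρ (lt_min hρ' hρ''))
        simpa [abs_of_nonneg hM0] using this
      filter_upwards [hev] with s ⟨hs, hs'⟩
      have hn : ∀ u ∈ Icc (-1 : ℝ) 1, ‖s • (z + u • w)‖ ≤ s * M := fun u hu => by
        rw [norm_smul, Real.norm_eq_abs, abs_of_pos hs]
        gcongr
        refine (norm_add_le _ _).trans (add_le_add le_rfl ?_)
        rw [norm_smul, Real.norm_eq_abs]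
        exact mul_le_of_le_one_left (norm_nonneg _) (abs_le.2 hu)
      have hsub : Icc (-1) τ ⊆ Icc (-1 : ℝ) 1 := Icc_subset_Icc_right hτ.2
      have h1 := incr_le (f := fun u => h (s • (z + u • w)) - s ^ (k + 1) * P u)
        (f' := fun u => s * (fderiv ℝ h (s • (z + u • w)) w - ev G (s • (z + u • w)))) hτ.1
        (b := fun u => s * (C * (s * M) ^ (k + 1)) * u)
        (b' := fun _ => s * (C * (s * M) ^ (k + 1)) * 1)
        (fun u hu => by
          have a1 : HasDerivAt (fun u : ℝ => s • (z + u • w)) (s • w) u :=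
            ((((hasDerivAt_id u).smul_const w).const_add z).const_smul s).congr_deriv (by simp)
          have a2 := (hd (y := s • (z + u • w)) (by
            rw [dist_zero_right]
            exact lt_of_le_of_lt (hn u (hsub hu))
              (hs'.trans_le ((min_le_right _ _).trans (min_le_right _ _))))).hasFDerivAt
          refine ((a2.comp_hasDerivAt u a1).sub ((hP u).const_mul _)).congr_deriv ?_
          rw [ev_hom hG.1, map_smul, smul_eq_mul]; ring)
        (fun u _ => (hasDerivAt_id u).const_mul _)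
        (fun u hu => by
          rw [norm_mul, Real.norm_eq_abs, abs_of_pos hs, mul_one]
          gcongr
          refine (hC _ (lt_of_le_of_lt (hn u (hsub hu)) (hs'.trans_le (min_le_left _ _)))).trans ?_
          gcongr
          exact hn u (hsub hu))
      have h2 : ∀ u ∈ Icc (-1 : ℝ) 1, |h (s • (z + u • w))| ≤ C' * (s * M) ^ (k + 2) :=
        fun u hu => (hC' _ (lt_of_le_of_lt (hn u hu)
          (hs'.trans_le ((min_le_right _ _).trans (min_le_left _ _))))).trans
          (by gcongr; exact hn u hu)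
      have h3 := h2 τ hτ
      have h4 := h2 (-1) ⟨le_rfl, by norm_num⟩
      rw [Real.norm_eq_abs] at h1
      have h5 : |s ^ (k + 1) * (P τ - P (-1))| ≤ 2 * (s * (C * (s * M) ^ (k + 1))) +
          2 * (C' * (s * M) ^ (k + 2)) := by
        have z0 : 0 ≤ s * (C * (s * M) ^ (k + 1)) := by positivity
        have e : s ^ (k + 1) * (P τ - P (-1)) = h (s • (z + τ • w)) + -h (s • (z + (-1 : ℝ) • w)) +
            -((h (s • (z + τ • w)) - s ^ (k + 1) * P τ) -
              (h (s • (z + (-1 : ℝ) • w)) - s ^ (k + 1) * P (-1))) := by ring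
        rw [e]
        refine (abs_add_three _ _ _).trans ?_
        rw [abs_neg, abs_neg]
        nlinarith [hτ.2]
      rw [abs_mul, abs_of_pos (pow_pos hs _)] at h5
      exact le_of_mul_le_mul_left (h5.trans (le_of_eq (by ring))) (pow_pos hs (k + 1))
    have h6 : P =ᶠ[𝓝 0] fun _ => P (-1) := by
      filter_upwards [Icc_mem_nhds (by norm_num : (-1 : ℝ) < 0) one_pos] with τ hτ using hconst τ hτ
    have h7 := (hP 0).unique ((hasDerivAt_const (0 : ℝ) (P (-1))).congr_of_eventuallyEq h6)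
    simpa using h7

theorem od_fderiv {h : (κ → ℝ) → ℝ} (hh : ContDiffAt ℝ ∞ h 0) {j : ℕ} (hj : Od h (j + 1)) :
    (fun δ => fderiv ℝ h δ) =O[𝓝 0] fun δ => ‖δ‖ ^ j := by
  have h1 := IsBigO.fun_sum (s := Finset.univ) fun a _ =>
    (od_fderiv_apply hh hj (Pi.single a 1)).norm_left
  refine IsBigO.trans (IsBigO.of_bound 1 (Eventually.of_forall fun δ => ?_)) h1
  rw [one_mul, Real.norm_of_nonneg (by positivity)]
  refine ContinuousLinearMap.opNorm_le_bound _ (by positivity) fun v => ?_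
  have e1 : v = ∑ a, v a • (Pi.single a 1 : κ → ℝ) := by
    ext b; simp [Finset.sum_apply, Pi.single_apply]
  conv_lhs => rw [e1]
  rw [map_sum, Finset.sum_mul]
  refine (norm_sum_le _ _).trans (Finset.sum_le_sum fun a _ => ?_)
  rw [map_smul, norm_smul, mul_comm]
  gcongr
  exact norm_le_pi_norm v a

theorem fderiv_ev_hom {G : MvPolynomial κ ℝ} {j : ℕ} (hG : G.IsHomogeneous j) (s : ℝ)
    (z : κ → ℝ) : s • fderiv ℝ (ev G) (s • z) = s ^ j • fderiv ℝ (ev G) z := by
  have h1 := (ev_diff G (s • z)).hasFDerivAt.comp z ((hasFDerivAt_id z).const_smul s)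
  have h2 := (ev_diff G z).hasFDerivAt.const_smul (s ^ j)
  have e : (ev G ∘ HSMul.hSMul s) = s ^ j • ev G := by
    ext x; simp [ev_hom hG]
  rw [e] at h1
  have := h1.unique h2
  rw [← this]
  ext v; simp

theorem Ld.tendsto {h : (κ → ℝ) → ℝ} (hh : ContDiffAt ℝ ∞ h 0) {j : ℕ} {G : MvPolynomial κ ℝ}
    (hL : Ld h j G) (z : κ → ℝ) :
    Tendsto (fun s : ℝ => (s / s ^ j) • fderiv ℝ h (s • z)) (𝓝[>] 0) (𝓝 (fderiv ℝ (ev G) z)) := by
  obtain ⟨C, ρ, hC0, hρ, hC⟩ := Od.ball (od_fderiv (hh.sub (ev_contDiff G).contDiffAt) hL.2)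
  obtain ⟨ρ', hρ', hd⟩ := Metric.eventually_nhds_iff.1 (ev_diff_near hh)
  rw [tendsto_iff_norm_sub_tendsto_zero]
  have h1 : Tendsto (fun s : ℝ => C * ‖z‖ ^ j * s) (𝓝[>] 0) (𝓝 0) := by
    have : Tendsto (fun s : ℝ => C * ‖z‖ ^ j * s) (𝓝 0) (𝓝 (C * ‖z‖ ^ j * 0)) :=
      (continuous_const.mul continuous_id).tendsto 0
    rw [mul_zero] at this
    exact this.mono_left nhdsWithin_le_nhds
  refine squeeze_zero' (Eventually.of_forall fun _ => norm_nonneg _) ?_ h1
  filter_upwards [ev_small_ray z (lt_min hρ hρ')] with s ⟨hs, hs'⟩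
  have e : ‖s • z‖ = s * ‖z‖ := by rw [norm_smul, Real.norm_eq_abs, abs_of_pos hs]
  have h2 := hC (s • z) (by rw [e]; exact hs'.trans_le (min_le_left _ _))
  have h3 := hd (y := s • z) (by rw [dist_zero_right, e]; exact hs'.trans_le (min_le_right _ _))
  rw [fderiv_fun_sub h3 (ev_diff G _), e] at h2
  have hsj : 0 < s ^ j := pow_pos hs j
  have e2 : fderiv ℝ (ev G) z = (s / s ^ j) • fderiv ℝ (ev G) (s • z) := by
    rw [div_eq_inv_mul, mul_smul, fderiv_ev_hom hL.1, smul_smul, inv_mul_cancel₀ hsj.ne', one_smul]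
  have e3 : (s / s ^ j) • fderiv ℝ h (s • z) - (s / s ^ j) • fderiv ℝ (ev G) (s • z) =
      (s / s ^ j) • (fderiv ℝ h (s • z) - fderiv ℝ (ev G) (s • z)) := by
    ext v; simp [mul_sub]
  rw [e2, e3, norm_smul, Real.norm_eq_abs, abs_of_pos (div_pos hs hsj)]
  calc _ ≤ s / s ^ j * (C * (s * ‖z‖) ^ j) := by gcongr
    _ = _ := by rw [mul_pow]; field_simp

end Pool.Agent.MP_62f0b1_an.Xi

end MrgPart3

-- ======== part 4: formerly Pool.Agent.MP_62f0b1_an.xi.Zig1
section MrgPart4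

/-!
Polynomials in smooth functions: an order bound and a dimension count.
-/

set_option autoImplicit false
set_option linter.unusedSectionVars false

open Set Filter Topology Asymptotics MvPolynomial Module
open scoped ContDiff

namespace Pool.Agent.MP_62f0b1_an.Xi

variable {κ : Type*} [Fintype κ] [DecidableEq κ]
variable {τ : Type*} [Fintype τ] [DecidableEq τ]

/-- A polynomial in a family of functions. -/
noncomputable def cp {E : Type*} (f : τ → E → ℝ) (P : MvPolynomial τ ℝ) : E → ℝ :=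
  fun δ => ev P fun l => f l δ

theorem fderiv_ev (P : MvPolynomial τ ℝ) (z w : τ → ℝ) :
    fderiv ℝ (ev P) z w = ∑ l, ev (pderiv l P) z * w l := by
  induction P using MvPolynomial.induction_on with
  | C a =>
    have : ev (C a : MvPolynomial τ ℝ) = fun _ => a := by ext; simp [ev]
    simp [this, ev]
  | add p q hp hq =>
    have : ev (p + q) = ev p + ev q := by ext; simp [ev]
    rw [this, fderiv_add (ev_diff p z) (ev_diff q z), add_apply, hp, hq,
      ← Finset.sum_add_distrib]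
    exact Finset.sum_congr rfl fun l _ => by simp [ev, add_mul]
  | mul_X p n hp =>
    have e : ev (p * X n) = fun z => ev p z * z n := by ext; simp [ev]
    have h1 := (ev_diff p z).hasFDerivAt.mul (hasFDerivAt_apply (𝕜 := ℝ) n z)
    have h2 : fderiv ℝ (fun z => ev p z * z n) z = _ := h1.fderiv
    rw [e, h2]
    simp only [add_apply, smul_apply, smul_eq_mul, hp,
      ContinuousLinearMap.proj_apply, Derivation.leibniz, pderiv_X, ev, map_add, map_mul, eval_X,
      add_mul, Finset.sum_add_distrib, Finset.mul_sum]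
    congr 1
    · rw [Finset.sum_eq_single n] <;> simp +contextual [eq_comm]
    · exact Finset.sum_congr rfl fun l _ => by ring

section gen
variable {E : Type*} [NormedAddCommGroup E] [NormedSpace ℝ E]

theorem cp_contDiffAt {f : τ → E → ℝ} {x : E} (hf : ∀ l, ContDiffAt ℝ ∞ (f l) x)
    (P : MvPolynomial τ ℝ) : ContDiffAt ℝ ∞ (cp f P) x :=
  (ev_contDiff P).contDiffAt.comp x (contDiffAt_pi.2 hf)

theorem cp_fderiv {f : τ → E → ℝ} {x : E} (hf : ∀ l, DifferentiableAt ℝ (f l) x)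
    (P : MvPolynomial τ ℝ) (w : E) :
    fderiv ℝ (cp f P) x w = ∑ l, cp f (pderiv l P) x * fderiv ℝ (f l) x w := by
  have h1 := (ev_diff P (fun l => f l x)).hasFDerivAt.comp x
    (hasFDerivAt_pi.2 fun l => (hf l).hasFDerivAt)
  have h2 : fderiv ℝ (cp f P) x = _ := h1.fderiv
  rw [h2, ContinuousLinearMap.comp_apply, fderiv_ev]
  rfl

end gen

theorem totalDegree_pderiv {P : MvPolynomial τ ℝ} {d : ℕ} (h : P.totalDegree ≤ d + 1) (l : τ) :
    (pderiv l P).totalDegree ≤ d := by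
  refine Finset.sup_le fun m hm => ?_
  have h1 : m + Finsupp.single l 1 ∈ P.support := by
    rw [mem_support_iff] at hm ⊢
    rw [coeff_pderiv] at hm
    exact left_ne_zero_of_mul hm
  have h2 := (le_totalDegree h1).trans h
  rw [Finsupp.sum_add_index' (fun _ => rfl) (fun _ _ _ => rfl), Finsupp.sum_single_index rfl] at h2
  omega

theorem eq_C_of_pderiv {P : MvPolynomial τ ℝ} (h : ∀ l, pderiv l P = 0) : ∃ a, P = C a := by
  refine ⟨ev P 0, MvPolynomial.funext fun z => ?_⟩
  rw [eval_C]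
  refine is_const_of_fderiv_eq_zero (ev_diff P) (fun x => ?_) z 0
  ext w
  simp [fderiv_ev, h, ev]

theorem order_bound {f : τ → (κ → ℝ) → ℝ} (hf : ∀ l, ContDiffAt ℝ ∞ (f l) 0) (v : τ → κ → ℝ)
    {m : ℕ} {G : MvPolynomial κ ℝ} (hG : G ≠ 0)
    (hL : Ld (fun δ => (Matrix.of fun l l' => fderiv ℝ (f l) δ (v l')).det) m G) (d : ℕ) :
    ∀ P : MvPolynomial τ ℝ, P ≠ 0 → P.totalDegree ≤ d → ¬ Od (cp f P) (d * (m + 1) + 1) := by
  have const : ∀ a : ℝ, (C a : MvPolynomial τ ℝ) ≠ 0 → ∀ N, ¬ Od (cp f (C a)) (N + 1) := by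
    intro a ha N h
    have h1 : Ld (cp f (C a)) 0 (C a : MvPolynomial κ ℝ) :=
      ⟨isHomogeneous_C _ _, by simpa [cp, ev, Od] using isBigO_zero _ _⟩
    exact h1.not_od (by simpa using ha) (h.mono (by omega))
  induction d with
  | zero =>
    intro P hP hd
    rw [Nat.le_zero, totalDegree_eq_zero_iff_eq_C] at hd
    rw [hd] at hP ⊢
    exact const _ hP _
  | succ d ih =>
    intro P hP hd hO
    by_cases h0 : ∀ l, pderiv l P = 0
    · obtain ⟨a, rfl⟩ := eq_C_of_pderiv h0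
      exact const a hP _ hO
    push Not at h0
    obtain ⟨l, hl⟩ := h0
    obtain ⟨j, hj, G', hG', hL'⟩ := exists_ld_ne (cp_contDiffAt hf _)
      (ih _ hl (totalDegree_pderiv hd l))
    refine (hL.mul hL').not_od (mul_ne_zero hG hG') ?_
    have h1 : ∀ l', Od (fun δ => fderiv ℝ (cp f P) δ (v l') *
        (Matrix.of fun l l' => fderiv ℝ (f l) δ (v l')).adjugate l' l) ((d + 1) * (m + 1) + 0) :=
      fun l' => (od_fderiv_apply (cp_contDiffAt hf P) hO (v l')).mul (od_zero (by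
        have a1 : ContinuousAt (fun δ => (Matrix.of fun l l' => fderiv ℝ (f l) δ (v l'))) 0 :=
          continuousAt_pi.2 fun i => continuousAt_pi.2 fun j =>
            (contDiffAt_fderiv_apply (hf i) (v j)).continuousAt
        have a2 : Continuous fun A : Matrix τ τ ℝ => A.adjugate l' l :=
          (continuous_id.matrix_adjugate).matrix_elem l' l
        exact a2.continuousAt.comp a1))
    have h2 := IsBigO.fun_sum (s := Finset.univ) fun l' _ => h1 l'
    refine Od.mono (k := (d + 1) * (m + 1) + 0) (h2.congr' ?_ EventuallyEq.rfl) (by nlinarith)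
    filter_upwards [eventually_all.2 fun l => ev_diff_near (hf l)] with δ hδ
    set M := (Matrix.of fun l l' => fderiv ℝ (f l) δ (v l')) with hM
    have e : ∀ l', fderiv ℝ (cp f P) δ (v l') = ∑ i, cp f (pderiv i P) δ * M i l' :=
      fun l' => cp_fderiv hδ P _
    simp only [e, Finset.sum_mul]
    rw [Finset.sum_comm]
    have e2 : ∀ i, ∑ l', cp f (pderiv i P) δ * M i l' * M.adjugate l' l =
        cp f (pderiv i P) δ * (M * M.adjugate) i l := fun i => by
      rw [Matrix.mul_apply, Finset.mul_sum]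
      exact Finset.sum_congr rfl fun _ _ => mul_assoc _ _ _
    simp only [e2, Matrix.mul_adjugate, Matrix.smul_apply, Matrix.one_apply, smul_eq_mul, mul_ite,
      mul_one, mul_zero, Finset.sum_ite_eq', Finset.mem_univ, if_true]
    ring

theorem finrank_restrictDegree (q : ℕ) :
    finrank ℝ (restrictDegree τ ℝ q) = (q + 1) ^ Fintype.card τ := by
  rw [restrictDegree, finrank_eq_nat_card_basis (basisRestrictSupport ℝ _)]
  have e : {n : τ →₀ ℕ | ∀ i, n i ≤ q} ≃ (τ → Fin (q + 1)) :=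
    { toFun := fun n i => ⟨n.1 i, Nat.lt_succ_of_le (n.2 i)⟩
      invFun := fun g => ⟨Finsupp.equivFunOnFinite.symm fun i => g i,
        fun i => Nat.le_of_lt_succ (g i).2⟩
      left_inv := fun n => by ext i; simp
      right_inv := fun g => by ext i; simp }
  rw [Nat.card_congr e]
  simp

theorem Ld.unique {h : (κ → ℝ) → ℝ} {j : ℕ} {G G' : MvPolynomial κ ℝ} (h1 : Ld h j G)
    (h2 : Ld h j G') : G = G' := by
  refine sub_eq_zero.1 (eq_zero_of_od (h1.1.sub h2.1) ?_)
  refine (IsBigO.sub h2.2 h1.2).congr_left fun δ => ?_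
  simp [ev]

/-- Span of the leading forms of degrees between `j` and `D`. -/
noncomputable def spanLd (f : τ → (κ → ℝ) → ℝ) (j D : ℕ) : Submodule ℝ (MvPolynomial κ ℝ) :=
  Submodule.span ℝ {G | ∃ P i, j ≤ i ∧ i ≤ D ∧ Ld (cp f P) i G}

theorem spanLd_le (f : τ → (κ → ℝ) → ℝ) (j D : ℕ) : spanLd f j D ≤ restrictTotalDegree κ ℝ D :=
  Submodule.span_le.2 fun _ ⟨_, _, _, hi, hL⟩ =>
    (mem_restrictTotalDegree _ _ _).2 (hL.1.totalDegree_le.trans hi)

instance (f : τ → (κ → ℝ) → ℝ) (j D : ℕ) : FiniteDimensional ℝ (spanLd f j D) :=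
  Submodule.finiteDimensional_of_le (spanLd_le f j D)

/-- Polynomials whose composition vanishes to order `j`. -/
noncomputable def odSub (f : τ → (κ → ℝ) → ℝ) (j : ℕ) : Submodule ℝ (MvPolynomial τ ℝ) where
  carrier := {P | Od (cp f P) j}
  add_mem' := fun {P Q} hP hQ => (IsBigO.add hP hQ).congr_left fun δ => by simp [cp, ev]
  zero_mem' := (isBigO_zero (fun δ : κ → ℝ => ‖δ‖ ^ j) (𝓝 0)).congr_left fun δ => by simp [cp, ev]
  smul_mem' := fun a P hP => (IsBigO.const_mul_left hP a).congr_left fun δ => by simp [cp, ev]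

theorem count {f : τ → (κ → ℝ) → ℝ} (hf : ∀ l, ContDiffAt ℝ ∞ (f l) 0)
    (W : Submodule ℝ (MvPolynomial τ ℝ)) [FiniteDimensional ℝ W] (D : ℕ)
    (hD : ∀ P ∈ W, Od (cp f P) (D + 1) → P = 0) : finrank ℝ W ≤ finrank ℝ (spanLd f 0 D) := by
  have key : ∀ i j, i + j = D + 1 →
      finrank ℝ (W ⊓ odSub f j : Submodule ℝ _) ≤ finrank ℝ (spanLd f j D) := by
    intro i
    induction i with
    | zero =>
      intro j hj
      have : W ⊓ odSub f j = ⊥ := by
        rw [eq_bot_iff]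
        intro P hP
        exact hD P hP.1 (by rw [← hj, zero_add]; exact hP.2)
      rw [this, finrank_bot]
      exact Nat.zero_le _
    | succ i ih =>
      intro j hj
      have ih' := ih (j + 1) (by omega)
      choose ld hld using fun P : (W ⊓ odSub f j : Submodule ℝ _) =>
        exists_ld (cp_contDiffAt hf P.1) P.2.2
      let L : (W ⊓ odSub f j : Submodule ℝ _) →ₗ[ℝ] MvPolynomial κ ℝ :=
        { toFun := ld
          map_add' := fun P Q => (hld (P + Q)).unique ⟨(hld P).1.add (hld Q).1,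
            (IsBigO.add (hld P).2 (hld Q).2).congr_left fun δ => by simp [cp, ev]; ring⟩
          map_smul' := fun a P => (hld (a • P)).unique
            ⟨(homogeneousSubmodule κ ℝ j).smul_mem a (hld P).1,
              (IsBigO.const_mul_left (hld P).2 a).congr_left fun δ => by simp [cp, ev]; ring⟩ }
      have h1 := L.finrank_range_add_finrank_ker
      have h2 : finrank ℝ (LinearMap.ker L) ≤ finrank ℝ (W ⊓ odSub f (j + 1) : Submodule ℝ _) := by
        rw [← Submodule.finrank_map_subtype_eq]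
        refine Submodule.finrank_mono ?_
        rintro _ ⟨P, hP, rfl⟩
        have : ld P = 0 := hP
        exact ⟨P.2.1, (this ▸ hld P).od_succ⟩
      have h3 : LinearMap.range L ⊔ spanLd f (j + 1) D ≤ spanLd f j D := by
        refine sup_le ?_ (Submodule.span_mono fun G ⟨P, i, a1, a2, a3⟩ => ⟨P, i, by omega, a2, a3⟩)
        rintro _ ⟨P, rfl⟩
        exact Submodule.subset_span ⟨P.1, j, le_rfl, by omega, hld P⟩
      have h4 : LinearMap.range L ⊓ spanLd f (j + 1) D = ⊥ := by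
        rw [eq_bot_iff]
        rintro _ ⟨⟨P, rfl⟩, h5⟩
        have h6 : spanLd f (j + 1) D ≤ LinearMap.ker (homogeneousComponent j) :=
          Submodule.span_le.2 fun G ⟨_, i, a1, _, a3⟩ => by
            change homogeneousComponent j G = 0
            rw [homogeneousComponent_of_mem a3.1, if_neg (by omega)]
        have h7 : homogeneousComponent j (ld P) = 0 := h6 h5
        rwa [homogeneousComponent_of_mem (hld P).1, if_pos rfl] at h7
      have h5 := Submodule.finrank_sup_add_finrank_inf_eq (LinearMap.range L) (spanLd f (j + 1) D)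
      rw [h4, finrank_bot] at h5
      have h6 := Submodule.finrank_mono h3
      omega
  have h1 := key (D + 1) 0 rfl
  have h2 : W ⊓ odSub f 0 = W :=
    inf_eq_left.2 fun P _ => od_zero (cp_contDiffAt hf P).continuousAt
  rwa [h2] at h1

end Pool.Agent.MP_62f0b1_an.Xi

end MrgPart4

-- ======== part 5: formerly Pool.Agent.MP_62f0b1_an.xi.Zig2
section MrgPart5

/-!
A form of the lemma of Ziglin for smooth functions.
-/

set_option autoImplicit false
set_option linter.unusedSectionVars false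

open Set Filter Topology Asymptotics MvPolynomial Module
open scoped ContDiff

namespace Pool.Agent.MP_62f0b1_an.Xi

variable {κ : Type*} [Fintype κ] [DecidableEq κ]
variable {τ : Type*} [Fintype τ] [DecidableEq τ]

theorem exists_dual_family {E : Type*} [NormedAddCommGroup E] [NormedSpace ℝ E] {ρ : Type*}
    [Fintype ρ] [DecidableEq ρ] {L : ρ → E →L[ℝ] ℝ} (hL : LinearIndependent ℝ L) :
    ∃ w : ρ → E, ∀ i l, L i (w l) = if i = l then 1 else 0 := by
  have hL' : LinearIndependent ℝ fun i => (L i : E →ₗ[ℝ] ℝ) :=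
    hL.map' (ContinuousLinearMap.coeLM ℝ) (LinearMap.ker_eq_bot.2 ContinuousLinearMap.coe_injective)
  have key : ∀ l, ∃ w, L l w = 1 ∧ ∀ i, i ≠ l → L i w = 0 := by
    intro l
    have h1 := hL'.notMem_span_image (s := {i | i ≠ l}) (x := l) (by simp)
    have h2 : ¬ (⨅ i : {i // i ≠ l}, LinearMap.ker (L i : E →ₗ[ℝ] ℝ)) ≤
        LinearMap.ker (L l : E →ₗ[ℝ] ℝ) := fun h => h1 (by
      have := mem_span_of_iInf_ker_le_ker h
      rwa [Set.image_eq_range])
    obtain ⟨w, hw1, hw2⟩ := SetLike.not_le_iff_exists.1 h2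
    rw [Submodule.mem_iInf] at hw1
    have hw3 : L l w ≠ 0 := hw2
    refine ⟨(L l w)⁻¹ • w, by simp [hw3], fun i hi => ?_⟩
    have : L i w = 0 := hw1 ⟨i, hi⟩
    simp [this]
  choose w h1 h2 using key
  exact ⟨w, fun i l => by split_ifs with h; exacts [h ▸ h1 i, h2 l i h]⟩

theorem not_flat {G : MvPolynomial κ ℝ} (hG : G ≠ 0) (z : κ → ℝ) :
    ∃ N, ¬ Od (fun δ => ev G (z + δ)) N := by
  by_contra h
  push Not at h
  refine hG (ev_eq_zero fun y => ?_)
  let p : Polynomial ℝ := aeval (fun a => Polynomial.C (z a) + Polynomial.C (y a - z a) *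
    Polynomial.X) G
  have hp : ∀ s : ℝ, p.eval s = ev G (z + s • (y - z)) := fun s => by
    simp only [p, ev]
    rw [← Polynomial.coe_aeval_eq_eval, ← AlgHom.comp_apply, comp_aeval, aeval_eq_eval]
    congr 2
    ext a; simp [mul_comm]
  suffices p = 0 by simpa [this] using (hp 1).symm
  by_contra hp0
  obtain ⟨q, hq, hq'⟩ := Polynomial.exists_eq_pow_rootMultiplicity_mul_and_not_dvd p hp0 0
  set m := p.rootMultiplicity 0
  refine hq' (Polynomial.dvd_iff_isRoot.2 ?_)
  obtain ⟨C, ρ, -, hρ, hC⟩ := Od.ball (h (m + 1))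
  have h1 : ∀ᶠ s in 𝓝[>] (0 : ℝ), |q.eval s| ≤ C * ‖y - z‖ ^ (m + 1) * s := by
    filter_upwards [ev_small_ray (y - z) hρ] with s ⟨hs, hs'⟩
    have e : ‖s • (y - z)‖ = s * ‖y - z‖ := by rw [norm_smul, Real.norm_eq_abs, abs_of_pos hs]
    have := hC (s • (y - z)) (by rwa [e])
    rw [← hp, hq, e] at this
    simp only [map_zero, sub_zero, Polynomial.eval_mul, Polynomial.eval_pow, Polynomial.eval_X,
      Real.norm_eq_abs, abs_mul, abs_of_pos (pow_pos hs m)] at this
    exact le_of_mul_le_mul_left (this.trans (le_of_eq (by ring))) (pow_pos hs m)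
  have h2 : Tendsto (fun s => |q.eval s|) (𝓝[>] 0) (𝓝 |q.eval 0|) :=
    (q.continuous.abs.tendsto 0).mono_left nhdsWithin_le_nhds
  have h3 : Tendsto (fun s : ℝ => C * ‖y - z‖ ^ (m + 1) * s) (𝓝[>] 0)
      (𝓝 (C * ‖y - z‖ ^ (m + 1) * 0)) :=
    ((continuous_const.mul continuous_id).tendsto 0).mono_left nhdsWithin_le_nhds
  have := le_of_tendsto_of_tendsto h2 h3 h1
  rw [mul_zero] at this
  exact abs_nonpos_iff.1 this

theorem totalDegree_aeval_le {ρ : Type*} (g : κ → MvPolynomial ρ ℝ)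
    (hg : ∀ a, (g a).totalDegree ≤ 1) (G : MvPolynomial κ ℝ) :
    (aeval g G).totalDegree ≤ G.totalDegree := by
  rw [aeval_def, eval₂_eq']
  refine totalDegree_finsetSum_le fun d hd => (totalDegree_mul _ _).trans ?_
  rw [algebraMap_eq, totalDegree_C, zero_add]
  refine (totalDegree_finsetProd _ _).trans (le_trans ?_ (le_totalDegree hd))
  rw [Finsupp.sum_fintype _ _ fun _ => rfl]
  exact Finset.sum_le_sum fun a _ => (totalDegree_pow _ _).trans
    (by simpa using Nat.mul_le_mul_left (d a) (hg a))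

theorem fderiv_ev_cont (G : MvPolynomial κ ℝ) : Continuous (fderiv ℝ (ev G)) :=
  (ev_contDiff G).continuous_fderiv (by simp)

/-- A polynomial whose differential stays in the span of `r` others is determined by its values on
a transversal `r`-plane. -/
theorem restrict_inj {r : ℕ} (G : Fin r → MvPolynomial κ ℝ) (z₀ : κ → ℝ) (w : Fin r → κ → ℝ)
    (hw : ∀ i l, fderiv ℝ (ev (G i)) z₀ (w l) = if i = l then 1 else 0) {F : MvPolynomial κ ℝ}
    (hF : ∀ z, (LinearIndependent ℝ fun i => fderiv ℝ (ev (G i)) z) →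
      fderiv ℝ (ev F) z ∈ Submodule.span ℝ (range fun i => fderiv ℝ (ev (G i)) z))
    (h0 : ∀ t : Fin r → ℝ, ev F (z₀ + ∑ l, t l • w l) = 0) : F = 0 := by
  by_contra hne
  obtain ⟨N, hN⟩ := not_flat hne z₀
  have hsm : ContDiffAt ℝ ∞ (fun δ => ev F (z₀ + δ)) 0 :=
    ((ev_contDiff F).comp (contDiff_const.add contDiff_id)).contDiffAt
  obtain ⟨j, -, F₀, hF₀, hL⟩ := exists_ld_ne hsm hN
  let A : (κ → ℝ) → Matrix (Fin r) (Fin r) ℝ := fun z =>
    Matrix.of fun i l => fderiv ℝ (ev (G i)) z (w l)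
  have Ac : Continuous A := continuous_pi fun i => continuous_pi fun l =>
    (fderiv_ev_cont (G i)).clm_apply continuous_const
  have A0 : A z₀ = 1 := by ext i l; simp [A, hw, Matrix.one_apply]
  let V : (κ → ℝ) → (κ → ℝ) → κ → ℝ := fun u z => (A z).det • u -
    ∑ l, (∑ i, (A z).adjugate l i * fderiv ℝ (ev (G i)) z u) • w l
  have Vc : ∀ u, Continuous (V u) := fun u =>
    (Ac.matrix_det.smul continuous_const).sub (continuous_finsetSum _ fun l _ =>
      (continuous_finsetSum _ fun i _ => (Ac.matrix_adjugate.matrix_elem l i).mul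
        ((fderiv_ev_cont (G i)).clm_apply continuous_const)).smul continuous_const)
  have V0 : ∀ u, V u z₀ = u - ∑ l, fderiv ℝ (ev (G l)) z₀ u • w l := fun u => by
    simp [V, A0, Matrix.one_apply]
  have hV : ∀ u z i, fderiv ℝ (ev (G i)) z (V u z) = 0 := fun u z i => by
    have e : ∀ l, fderiv ℝ (ev (G i)) z (w l) = A z i l := fun l => rfl
    simp only [V, map_sub, map_smul, map_sum, smul_eq_mul, e, Finset.sum_mul]
    rw [Finset.sum_comm]
    have e2 : ∀ i', ∑ l, (A z).adjugate l i' * fderiv ℝ (ev (G i')) z u * A z i l =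
        (A z * (A z).adjugate) i i' * fderiv ℝ (ev (G i')) z u := fun i' => by
      rw [Matrix.mul_apply, Finset.sum_mul]
      exact Finset.sum_congr rfl fun _ _ => by ring
    simp [e2, Matrix.mul_adjugate, Matrix.one_apply]
  have hind : ∀ z, (A z).det ≠ 0 → LinearIndependent ℝ fun i => fderiv ℝ (ev (G i)) z := by
    intro z hz
    have h1 : LinearIndependent ℝ (A z).row :=
      Matrix.linearIndependent_rows_iff_isUnit.2 ((Matrix.isUnit_iff_isUnit_det _).2 hz.isUnit)
    let φ : ((κ → ℝ) →L[ℝ] ℝ) →ₗ[ℝ] (Fin r → ℝ) :=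
      { toFun := fun α l => α (w l), map_add' := fun _ _ => rfl, map_smul' := fun _ _ => rfl }
    exact LinearIndependent.of_comp φ h1
  have hFV : ∀ u z, (A z).det ≠ 0 → fderiv ℝ (ev F) z (V u z) = 0 := fun u z hz => by
    obtain ⟨c, hc⟩ := (Submodule.mem_span_range_iff_exists_fun ℝ).1 (hF z (hind z hz))
    rw [← hc]
    simp [hV]
  have hdir : ∀ u z, fderiv ℝ (ev F₀) z (V u z₀) = 0 := fun u z => by
    have hray : Tendsto (fun s : ℝ => z₀ + s • z) (𝓝[>] 0) (𝓝 z₀) := by
      have : Continuous fun s : ℝ => z₀ + s • z := by fun_prop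
      simpa using (this.tendsto 0).mono_left (nhdsWithin_le_nhds (s := Ioi 0))
    have h1 := (hL.tendsto hsm z)
    have h2 := ((Vc u).tendsto z₀).comp hray
    have h3 := (isBoundedBilinearMap_apply.continuous.tendsto _).comp (h1.prodMk_nhds h2)
    have h4 : ∀ᶠ s in 𝓝[>] (0 : ℝ), (A (z₀ + s • z)).det ≠ 0 :=
      ((Ac.matrix_det.tendsto z₀).comp hray).eventually_ne (by simp [A0])
    refine tendsto_nhds_unique h3 (tendsto_const_nhds.congr' ?_)
    filter_upwards [h4] with s hs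
    have e : fderiv ℝ (fun δ => ev F (z₀ + δ)) (s • z) = fderiv ℝ (ev F) (z₀ + s • z) :=
      fderiv_comp_add_left z₀
    simp [e, hFV u _ hs]
  refine hF₀ (ev_eq_zero fun z => ?_)
  set y := ∑ l, fderiv ℝ (ev (G l)) z₀ z • w l with hy
  have h1 : ev F₀ z = ev F₀ y := by
    have hd : ∀ t : ℝ, HasDerivAt (fun t : ℝ => ev F₀ (y + t • (z - y))) 0 t := fun t => by
      have a1 : HasDerivAt (fun t : ℝ => y + t • (z - y)) (z - y) t :=
        (((hasDerivAt_id t).smul_const (z - y)).const_add y).congr_deriv (by simp)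
      refine ((ev_diff F₀ _).hasFDerivAt.comp_hasDerivAt t a1).congr_deriv ?_
      rw [← hdir z, V0]
    have := is_const_of_deriv_eq_zero (fun t => (hd t).differentiableAt) (fun t => (hd t).deriv) 1 0
    simpa using this
  rw [h1]
  obtain ⟨C, ρ, -, hρ, hC⟩ := Od.ball hL.2
  refine zero_of_small (C := C * ‖y‖ ^ (j + 1)) ?_
  filter_upwards [ev_small_ray y hρ] with s ⟨hs, hs'⟩
  have e : ‖s • y‖ = s * ‖y‖ := by rw [norm_smul, Real.norm_eq_abs, abs_of_pos hs]
  have := hC (s • y) (by rwa [e])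
  have e2 : ev F (z₀ + s • y) = 0 := by
    rw [← h0 fun l => s * fderiv ℝ (ev (G l)) z₀ z, hy, Finset.smul_sum]
    simp only [smul_smul]
  beta_reduce at this
  rw [e2, zero_sub, norm_neg, ev_hom hL.1, e, Real.norm_eq_abs, abs_mul,
    abs_of_pos (pow_pos hs j)] at this
  exact le_of_mul_le_mul_left (this.trans (le_of_eq (by ring))) (pow_pos hs j)

/-- If any `k + 1` leading forms of polynomials in `f` are everywhere dependent, the Jacobian
determinants of the `k + 1` functions `f` are flat. -/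
theorem ziglin {k : ℕ} {f : Fin (k + 1) → (κ → ℝ) → ℝ} (hf : ∀ l, ContDiffAt ℝ ∞ (f l) 0)
    (H : ∀ (z : κ → ℝ) (G : Fin (k + 1) → MvPolynomial κ ℝ), (∀ m, ∃ P j, Ld (cp f P) j (G m)) →
      ¬ LinearIndependent ℝ fun m => fderiv ℝ (ev (G m)) z)
    (v : Fin (k + 1) → κ → ℝ) (N : ℕ) :
    Od (fun δ => (Matrix.of fun l l' => fderiv ℝ (f l) δ (v l')).det) N := by
  classical
  by_contra hN
  have hsm : ContDiffAt ℝ ∞ (fun δ => (Matrix.of fun l l' => fderiv ℝ (f l) δ (v l')).det) 0 := by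
    simp only [Matrix.det_apply', Matrix.of_apply]
    exact ContDiffAt.sum fun p _ => contDiffAt_const.mul
      (contDiffAt_prod fun i _ => contDiffAt_fderiv_apply (hf _) _)
  obtain ⟨m, -, GΔ, hGΔ, hL⟩ := exists_ld_ne hsm hN
  let R : ℕ → Prop := fun r => ∃ (z : κ → ℝ) (G : Fin r → MvPolynomial κ ℝ),
    (∀ m, ∃ P j, Ld (cp f P) j (G m)) ∧ LinearIndependent ℝ fun m => fderiv ℝ (ev (G m)) z
  have hex : ∃ r, ¬ R (r + 1) := ⟨k, fun ⟨z, G, h1, h2⟩ => H z G h1 h2⟩
  set r := Nat.find hex with hr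
  have hr1 : ¬ R (r + 1) := Nat.find_spec hex
  have hrk : r ≤ k := Nat.find_min' hex fun ⟨z, G, h1, h2⟩ => H z G h1 h2
  have hr0 : R r := by
    rcases Nat.eq_zero_or_pos r with h | h
    · rw [h]
      exact ⟨0, Fin.elim0, fun m => m.elim0, linearIndependent_empty_type⟩
    · have := Nat.find_min hex (m := r - 1) (by omega)
      rw [not_not, Nat.sub_add_cancel h] at this
      exact this
  obtain ⟨z₀, G, hG, hind⟩ := hr0
  obtain ⟨w, hw⟩ := exists_dual_family hind
  set c := (k + 1) * (m + 1) with hc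
  set q := c ^ k with hq
  set D := (k + 1) * q * (m + 1) with hD
  have h1 := count hf (restrictDegree (Fin (k + 1)) ℝ q) D fun P hP hO => by
    by_contra hP0
    refine order_bound hf v hGΔ hL ((k + 1) * q) P hP0 ?_ hO
    refine Finset.sup_le fun d hd => ?_
    rw [Finsupp.sum_fintype _ _ fun _ => rfl]
    simpa using Finset.sum_le_card_nsmul Finset.univ d q
      fun i _ => (mem_restrictDegree _ _ _).1 hP d hd i
  let g : κ → MvPolynomial (Fin r) ℝ := fun a => C (z₀ a) + ∑ l, C (w l a) * X l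
  have hg : ∀ a, (g a).totalDegree ≤ 1 := fun a => (totalDegree_add _ _).trans
    (max_le (by simp) (totalDegree_finsetSum_le fun l _ => (totalDegree_mul _ _).trans (by simp)))
  let φ : spanLd f 0 D →ₗ[ℝ] restrictDegree (Fin r) ℝ D :=
    LinearMap.codRestrict _ ((aeval g).toLinearMap.comp (spanLd f 0 D).subtype) fun F =>
      restrictTotalDegree_le_restrictDegree _ _ _ ((mem_restrictTotalDegree _ _ _).2
        ((totalDegree_aeval_le g hg F.1).trans
          ((mem_restrictTotalDegree _ _ _).1 (spanLd_le f 0 D F.2))))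
  have hφ : Function.Injective φ := by
    rw [injective_iff_map_eq_zero]
    intro F hF
    have hF' : aeval g F.1 = 0 := congrArg Subtype.val hF
    refine Subtype.ext (restrict_inj G z₀ w hw (fun z hz => ?_) fun t => ?_)
    · have hmem := F.2
      generalize F.1 = F' at hmem
      induction hmem using Submodule.span_induction with
      | mem x hx =>
        obtain ⟨P, i, -, -, hx⟩ := hx
        by_contra hn
        refine hr1 ⟨z, Fin.cons x G, fun m => Fin.cases ⟨P, i, hx⟩ hG m, ?_⟩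
        have e : (fun m : Fin (r + 1) => fderiv ℝ (ev ((Fin.cons x G : Fin (r + 1) → _) m)) z) =
            Fin.cons (fderiv ℝ (ev x) z) fun m => fderiv ℝ (ev (G m)) z := by
          ext1 m; refine Fin.cases rfl (fun _ => rfl) m
        rw [e, linearIndependent_finCons]
        exact ⟨hz, hn⟩
      | zero =>
        have : ev (0 : MvPolynomial κ ℝ) = fun _ => 0 := by ext; simp [ev]
        simp [this]
      | add x y _ _ hx hy =>
        have : ev (x + y) = ev x + ev y := by ext; simp [ev]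
        rw [this, fderiv_add (ev_diff x z) (ev_diff y z)]
        exact Submodule.add_mem _ hx hy
      | smul a x _ hx =>
        have : ev (a • x) = a • ev x := by ext; simp [ev]
        rw [this, fderiv_const_smul (ev_diff x z)]
        exact Submodule.smul_mem _ a hx
    · have e : ev F.1 (z₀ + ∑ l, t l • w l) = aeval t (aeval g F.1) := by
        rw [← AlgHom.comp_apply, comp_aeval, aeval_eq_eval, ev]
        congr 2
        ext a; simp [g, Finset.sum_apply, mul_comm]
      rw [e, hF', map_zero]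
  have h2 := LinearMap.finrank_le_finrank_of_injective hφ
  rw [finrank_restrictDegree, Fintype.card_fin] at h1 h2
  have hc1 : 1 ≤ c := Nat.succ_le_of_lt (by positivity)
  have h3 : (D + 1) ^ r ≤ (c * (q + 1)) ^ k := by
    calc (D + 1) ^ r ≤ (D + 1) ^ k := Nat.pow_le_pow_right (by omega) hrk
      _ ≤ _ := Nat.pow_le_pow_left (by rw [hD, hc] at *; nlinarith) k
  have h4 : (q + 1) * (q + 1) ^ k ≤ q * (q + 1) ^ k := by
    calc (q + 1) * (q + 1) ^ k = (q + 1) ^ (k + 1) := by ring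
      _ ≤ (c * (q + 1)) ^ k := h1.trans (h2.trans h3)
      _ = _ := by rw [mul_pow]
  have := Nat.le_of_mul_le_mul_right h4 (by positivity)
  omega

end Pool.Agent.MP_62f0b1_an.Xi

end MrgPart5

-- ======== part 6: formerly Pool.Agent.MP_62f0b1_an.xi.Eta
section MrgPart6

/-!
Existence of the regular solution of the normal variational equation, and bounds for it.
-/

set_option autoImplicit false
set_option linter.unusedSectionVars false

open Set Real

namespace Pool.Agent.MP_62f0b1_an.Xi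

variable {ι : Type*} [Fintype ι] [DecidableEq ι]

/-- Regular right-hand side. -/
noncomputable def hh (nx pv : ι → ι) (X σ : ι → ℝ) (a : ℝ) (y : ℝ → ι → ℝ) (u : ℝ) (i : ι) : ℝ :=
  (y u (nx i) - y u (pv i)) / max a (gp nx pv X σ u i)

/-- Right-hand side with the singular component rewritten as an average. -/
noncomputable def kk (nx pv : ι → ι) (c : ι) (X σ : ι → ℝ) (a : ℝ) (y : ℝ → ι → ℝ) (u : ℝ)
    (i : ι) : ℝ :=
  if i = c then (∫ x in (0 : ℝ)..1,
    (hh nx pv X σ a y (x * u) (nx c) - hh nx pv X σ a y (x * u) (pv c))) / 2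
  else hh nx pv X σ a y u i

variable {nx pv : ι → ι} {c : ι} {X σ : ι → ℝ} {T a : ℝ}

theorem hh_cont (ha : 0 < a) {y : ℝ → ι → ℝ} (hy : Continuous y) (i : ι) :
    Continuous fun u => hh nx pv X σ a y u i := by
  unfold hh gp bs
  exact Continuous.div (by fun_prop) (by fun_prop)
    fun u => (lt_of_lt_of_le ha (le_max_left _ _)).ne'

theorem kk_cont (ha : 0 < a) {y : ℝ → ι → ℝ} (hy : Continuous y) (i : ι) :
    Continuous fun u => kk nx pv c X σ a y u i := by
  unfold kk
  split_ifs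
  · refine Continuous.div_const ?_ _
    refine intervalIntegral.continuous_parametric_intervalIntegral_of_continuous' ?_ _ _
    exact ((hh_cont ha hy _).comp (by fun_prop : Continuous fun p : ℝ × ℝ => p.2 * p.1)).sub
      ((hh_cont ha hy _).comp (by fun_prop : Continuous fun p : ℝ × ℝ => p.2 * p.1))
  · exact hh_cont ha hy i

theorem kk_sub (ha : 0 < a) {y y' : ℝ → ι → ℝ} (hy : Continuous y) (hy' : Continuous y') (u : ℝ)
    (i : ι) : kk nx pv c X σ a y u i - kk nx pv c X σ a y' u i =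
      kk nx pv c X σ a (fun u => y u - y' u) u i := by
  have e : ∀ u i, hh nx pv X σ a y u i - hh nx pv X σ a y' u i =
      hh nx pv X σ a (fun u => y u - y' u) u i := fun u i => by
    simp only [hh, Pi.sub_apply]; ring
  unfold kk
  split_ifs
  · have c1 : ∀ {z : ℝ → ι → ℝ}, Continuous z → IntervalIntegrable (fun x =>
        hh nx pv X σ a z (x * u) (nx c) - hh nx pv X σ a z (x * u) (pv c))
        MeasureTheory.volume 0 1 := fun hz =>
      (((hh_cont ha hz _).comp (by fun_prop : Continuous fun x : ℝ => x * u)).sub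
        ((hh_cont ha hz _).comp (by fun_prop : Continuous fun x : ℝ => x * u))).intervalIntegrable
        _ _
    rw [← sub_div, ← intervalIntegral.integral_sub (c1 hy) (c1 hy')]
    congr 2
    ext x
    rw [← e, ← e]; ring
  · exact e u i

theorem kk_le (ha : 0 < a) {y : ℝ → ι → ℝ} {u M : ℝ} (hu : 0 ≤ u)
    (h : ∀ v ∈ Icc 0 u, ∀ i, |y v i| ≤ M) (i : ι) : |kk nx pv c X σ a y u i| ≤ 2 * M / a := by
  have h1 : ∀ v ∈ Icc 0 u, ∀ i, |hh nx pv X σ a y v i| ≤ 2 * M / a := fun v hv i => by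
    have hM : 0 ≤ M := (abs_nonneg _).trans (h v hv i)
    rw [hh, abs_div, abs_of_pos (lt_of_lt_of_le ha (le_max_left _ _))]
    gcongr
    · linarith [abs_sub (y v (nx i)) (y v (pv i)), h v hv (nx i), h v hv (pv i)]
    · exact le_max_left _ _
  unfold kk
  split_ifs
  · have := intervalIntegral.norm_integral_le_of_norm_le_const (a := 0) (b := 1)
      (C := 2 * (2 * M / a))
      (f := fun x => hh nx pv X σ a y (x * u) (nx c) - hh nx pv X σ a y (x * u) (pv c))
      fun x hx => by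
        rw [uIoc_of_le zero_le_one] at hx
        have hv : x * u ∈ Icc 0 u := ⟨mul_nonneg hx.1.le hu, mul_le_of_le_one_left hu hx.2⟩
        rw [Real.norm_eq_abs]
        linarith [abs_sub (hh nx pv X σ a y (x * u) (nx c)) (hh nx pv X σ a y (x * u) (pv c)),
          h1 _ hv (nx c), h1 _ hv (pv c)]
    rw [Real.norm_eq_abs, sub_zero, abs_one, mul_one] at this
    rw [abs_div, abs_two]
    linarith
  · exact h1 u ⟨hu, le_rfl⟩ i

theorem exists_reg (S : Side nx pv c X σ T a) : ∃ η H, Reg nx pv c X σ T η H := by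
  have ha := S.ha
  have hT := S.hT
  set lam := 4 / a with hlam
  have hlam0 : 0 < lam := by positivity
  let ex : C(Icc 0 T, ι → ℝ) → ℝ → ι → ℝ := fun ζ u => exp (lam * u) • ζ (projIcc 0 T hT.le u)
  have exc : ∀ ζ, Continuous (ex ζ) := fun ζ =>
    Continuous.smul (f := fun u : ℝ => exp (lam * u)) (by fun_prop)
      (ζ.continuous.comp continuous_projIcc)
  let A : C(Icc 0 T, ι → ℝ) → ℝ → ι → ℝ := fun ζ t i =>
    (if i = c then 1 else 0) + ∫ u in (0 : ℝ)..t, kk nx pv c X σ a (ex ζ) u i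
  have hA : ∀ ζ t i, HasDerivAt (fun t => A ζ t i) (kk nx pv c X σ a (ex ζ) t i) t :=
    fun ζ t i => ((kk_cont ha (exc ζ) i).integral_hasStrictDerivAt 0 t).hasDerivAt.const_add _
  have Ac : ∀ ζ, Continuous (A ζ) := fun ζ =>
    continuous_pi fun i => continuous_iff_continuousAt.2 fun t => (hA ζ t i).continuousAt
  let Φ : C(Icc 0 T, ι → ℝ) → C(Icc 0 T, ι → ℝ) := fun ζ =>
    ⟨fun t => exp (-(lam * t)) • A ζ t,
      Continuous.smul (f := fun t : Icc 0 T => exp (-(lam * t))) (by fun_prop)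
        ((Ac ζ).comp continuous_subtype_val)⟩
  have exb : ∀ (ζ : C(Icc 0 T, ι → ℝ)) u, ∀ v ∈ Icc 0 u, ∀ i,
      |ex ζ v i| ≤ exp (lam * u) * ‖ζ‖ := fun ζ u v hv i => by
    simp only [ex, Pi.smul_apply, smul_eq_mul, abs_mul, abs_of_pos (exp_pos _)]
    gcongr
    · exact hv.2
    · exact (norm_le_pi_norm (ζ _) i).trans (ζ.norm_coe_le_norm _)
  have hΦ : ContractingWith (1 / 2) Φ := by
    refine ⟨by norm_num, LipschitzWith.of_dist_le_mul fun ζ ζ' => ?_⟩
    rw [dist_eq_norm, dist_eq_norm]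
    refine (ContinuousMap.norm_le _ (by positivity)).2 fun t => ?_
    refine (pi_norm_le_iff_of_nonneg (by positivity)).2 fun i => ?_
    have h1 := incr_le (f := fun t => A ζ t i - A ζ' t i) t.2.1
      (b := fun u => ‖ζ - ζ'‖ / 2 * exp (lam * u))
      (b' := fun u => ‖ζ - ζ'‖ / 2 * (exp (lam * u) * (lam * 1)))
      (fun u _ => (hA ζ u i).sub (hA ζ' u i))
      (fun u _ => (((hasDerivAt_id u).const_mul lam).exp).const_mul _)
      (fun u hu => by
        rw [kk_sub ha (exc ζ) (exc ζ'), Real.norm_eq_abs]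
        have e : (fun u => ex ζ u - ex ζ' u) = ex (ζ - ζ') := by
          ext v j; simp [ex, mul_sub]
        rw [e]
        refine (kk_le ha hu.1 (exb (ζ - ζ') u) i).trans (le_of_eq ?_)
        rw [hlam]; field_simp; ring)
    have h0 : A ζ 0 i - A ζ' 0 i = 0 := by simp [A]
    rw [h0, sub_zero, Real.norm_eq_abs] at h1
    have h2 : 0 ≤ ‖ζ - ζ'‖ / 2 * exp (lam * 0) := by positivity
    have e : (Φ ζ - Φ ζ') t i = exp (-(lam * t)) * (A ζ t i - A ζ' t i) := by
      simp [Φ, mul_sub]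
    rw [e, Real.norm_eq_abs, abs_mul, abs_of_pos (exp_pos _), exp_neg, inv_mul_le_iff₀ (exp_pos _)]
    push_cast
    linarith
  set ζ := ContractingWith.fixedPoint Φ hΦ with hζ
  have hfix : Φ ζ = ζ := hΦ.fixedPoint_isFixedPt
  have hex : ∀ t ∈ Icc 0 T, ex ζ t = A ζ t := fun t ht => by
    have h1 : ζ ⟨t, ht⟩ = exp (-(lam * t)) • A ζ t := by
      conv_lhs => rw [← hfix]
      rfl
    simp only [ex, projIcc_of_mem hT.le ht, h1, smul_smul, ← exp_add, add_neg_cancel, exp_zero,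
      one_smul]
  have hhe : ∀ t ∈ Icc 0 T, ∀ i, i ≠ c → hh nx pv X σ a (ex ζ) t i =
      (A ζ t (nx i) - A ζ t (pv i)) / gp nx pv X σ t i := fun t ht i hi => by
    rw [hh, hex t ht, max_eq_right (S.gap i hi t ht)]
  refine ⟨A ζ, 2 * (exp (lam * T) * ‖ζ‖) / a, by positivity, fun t ht i => ?_, fun t ht i => ?_⟩
  · refine (hA ζ t i).congr_deriv ?_
    by_cases hi : i = c
    · subst hi
      have h1 := intervalIntegral.mul_integral_comp_mul_right (a := 0) (b := 1)
        (f := fun u => hh nx pv X σ a (ex ζ) u (nx i) - hh nx pv X σ a (ex ζ) u (pv i)) t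
      rw [zero_mul, one_mul, intervalIntegral.integral_sub
        ((hh_cont ha (exc ζ) _).intervalIntegrable _ _)
        ((hh_cont ha (exc ζ) _).intervalIntegrable _ _)] at h1
      rw [S.gp_c]
      simp only [A, kk, S.ne1, S.ne2, if_true, if_false, zero_add]
      rw [← h1, mul_comm 2 t, mul_div_mul_left _ _ ht.1.ne']
    · simp only [kk, hi, if_false]
      exact hhe t ⟨ht.1.le, ht.2⟩ i hi
  · have h1 := intervalIntegral.norm_integral_le_of_norm_le_const (a := 0) (b := t)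
      (C := 2 * (exp (lam * T) * ‖ζ‖) / a) (f := fun u => kk nx pv c X σ a (ex ζ) u i)
      fun u hu => by
        rw [uIoc_of_le ht.1] at hu
        exact kk_le ha hu.1.le
          (fun v hv => exb ζ T v ⟨hv.1, hv.2.trans (hu.2.trans ht.2)⟩) i
    rw [sub_zero, abs_of_nonneg ht.1, Real.norm_eq_abs] at h1
    simpa [A] using h1

variable {η : ℝ → ι → ℝ} {H : ℝ}

theorem Reg.incr (R : Reg nx pv c X σ T η H) (i : ι) {t : ℝ} (ht : t ∈ Icc 0 T) {p q : ℝ}
    (hp : 0 ≤ p) (hq : 0 ≤ q)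
    (h : ∀ u ∈ Ioc 0 t, |(η u (nx i) - η u (pv i)) / gp nx pv X σ u i| ≤ p + 2 * q * u) :
    |η t i - (if i = c then 1 else 0)| ≤ p * t + q * t ^ 2 := by
  rcases ht.1.eq_or_lt with rfl | ht0
  · simpa using R.near 0 ht i
  refine le_of_forall_pos_le_add fun δ hδ => ?_
  have hH := R.hH
  set e := min t (δ / (H + 1)) with he
  have e0 : 0 < e := lt_min ht0 (by positivity)
  have et : e ≤ t := min_le_left _ _
  have h1 := incr_le (f := fun u => η u i) et (b := fun u => p * u + q * u ^ 2)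
    (b' := fun u => p + 2 * q * u)
    (fun u hu => R.der u ⟨lt_of_lt_of_le e0 hu.1, hu.2.trans ht.2⟩ i)
    (fun u _ => by
      have := ((hasDerivAt_id u).const_mul p).add ((hasDerivAt_pow 2 u).const_mul q)
      refine this.congr_deriv ?_
      simp; ring)
    (fun u hu => h u ⟨lt_of_lt_of_le e0 hu.1, hu.2⟩)
  have h2 := R.near e ⟨e0.le, et.trans ht.2⟩ i
  have h3 : H * e ≤ δ := by
    have : e * (H + 1) ≤ δ := (le_div_iff₀ (by positivity)).1 (min_le_right _ _)
    nlinarith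
  have h4 := abs_sub_le (η t i) (η e i) (if i = c then 1 else 0)
  have h5 : 0 ≤ p * e + q * e ^ 2 := by positivity
  rw [Real.norm_eq_abs] at h1
  linarith

theorem Reg.bounds (S : Side nx pv c X σ (1 / 2) a) (R : Reg nx pv c X σ (1 / 2) η H) {b : ι}
    {L : ℝ} (hL : 100 ≤ L) (hb : b ≠ c) (hb1 : nx b ≠ b) (hb2 : pv b ≠ b) (hb3 : nx b ≠ pv b)
    (hc3 : nx c ≠ pv c)
    (far : ∀ i, i ≠ c → i ≠ b → ∀ t ∈ Icc (0 : ℝ) (1 / 2), L ≤ gp nx pv X σ t i)
    (nr : ∀ t ∈ Icc (0 : ℝ) (1 / 2), 2 * (1 - t) ≤ gp nx pv X σ t b) :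
    |η (1 / 2) c - 1| ≤ 1 / 4 ∧ |η (1 / 2) b| ≤ 1 / 2 ∧
      ∀ i, i ≠ c → i ≠ b → |η (1 / 2) i| ≤ 2 / L := by
  have hL0 : 0 < L := by linarith
  set Q := sSup ((fun t => ‖η t‖) '' Icc 0 (1 / 2)) with hQ
  have hH := R.hH
  have bdd : BddAbove ((fun t => ‖η t‖) '' Icc 0 (1 / 2)) := by
    refine ⟨1 + H * (1 / 2), ?_⟩
    rintro _ ⟨t, ht, rfl⟩
    exact (pi_norm_le_iff_of_nonneg (by positivity)).2 fun i => R.abs_le ht i
  have hQ1 : ∀ t ∈ Icc (0 : ℝ) (1 / 2), ∀ i, |η t i| ≤ Q := fun t ht i =>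
    (norm_le_pi_norm (η t) i).trans (le_csSup bdd ⟨t, ht, rfl⟩)
  have hQ0 : 0 ≤ Q := (abs_nonneg _).trans (hQ1 0 ⟨le_rfl, by norm_num⟩ c)
  have f1 : ∀ t ∈ Icc (0 : ℝ) (1 / 2), ∀ i, i ≠ c → i ≠ b → |η t i| ≤ 2 * Q / L * t := by
    intro t ht i hi hi'
    have := R.incr i ht (p := 2 * Q / L) (q := 0) (by positivity) le_rfl fun u hu => by
      have hu' : u ∈ Icc (0 : ℝ) (1 / 2) := ⟨hu.1.le, hu.2.trans ht.2⟩
      have hg := far i hi hi' u hu'
      rw [abs_div, abs_of_pos (lt_of_lt_of_le hL0 hg), mul_zero, zero_mul, add_zero]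
      gcongr
      linarith [abs_sub (η u (nx i)) (η u (pv i)), hQ1 u hu' (nx i), hQ1 u hu' (pv i)]
    simpa [hi] using this
  have f1' : ∀ t ∈ Icc (0 : ℝ) (1 / 2), ∀ i, i ≠ c → i ≠ b → |η t i| ≤ Q / 50 * t := by
    intro t ht i hi hi'
    refine (f1 t ht i hi hi').trans (mul_le_mul_of_nonneg_right ?_ ht.1)
    rw [div_le_div_iff₀ hL0 (by norm_num)]
    nlinarith
  have f2 : ∀ t ∈ Icc (0 : ℝ) (1 / 2), |η t b| ≤ 303 / 400 * Q * t := by
    intro t ht
    have := R.incr b ht (p := 101 / 200 * Q) (q := 101 / 200 * Q) (by positivity) (by positivity)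
      fun u hu => by
        have hu' : u ∈ Icc (0 : ℝ) (1 / 2) := ⟨hu.1.le, hu.2.trans ht.2⟩
        have hg := nr u hu'
        have hg0 : 0 < 2 * (1 - u) := by linarith [hu'.2]
        have h1 : |η u (nx b) - η u (pv b)| ≤ 101 / 100 * Q := by
          have h2 := abs_sub (η u (nx b)) (η u (pv b))
          by_cases h3 : nx b = c
          · have := f1' u hu' (pv b) (fun h => hb3 (h3.trans h.symm)) hb2
            nlinarith [hQ1 u hu' (nx b), hu'.2]
          · have := f1' u hu' (nx b) h3 hb1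
            nlinarith [hQ1 u hu' (pv b), hu'.2]
        rw [abs_div, abs_of_pos (lt_of_lt_of_le hg0 hg)]
        calc _ ≤ 101 / 100 * Q / (2 * (1 - u)) := by gcongr
          _ ≤ _ := by
            rw [div_le_iff₀ hg0]
            have : 0 ≤ Q * (u * (1 - 2 * u)) :=
              mul_nonneg hQ0 (mul_nonneg hu'.1 (by linarith [hu'.2]))
            nlinarith
    simp only [hb, if_false, sub_zero] at this
    have h3 : 0 ≤ Q * (t * (1 - 2 * t)) := mul_nonneg hQ0 (mul_nonneg ht.1 (by linarith [ht.2]))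
    nlinarith
  have f3 : ∀ t ∈ Icc (0 : ℝ) (1 / 2), |η t c - 1| ≤ 311 / 800 * Q * t := by
    intro t ht
    have := R.incr c ht (p := 311 / 800 * Q) (q := 0) (by positivity) le_rfl fun u hu => by
      have hu' : u ∈ Icc (0 : ℝ) (1 / 2) := ⟨hu.1.le, hu.2.trans ht.2⟩
      have hQu : 0 ≤ Q * u := mul_nonneg hQ0 hu.1.le
      have h1 : |η u (nx c) - η u (pv c)| ≤ 311 / 400 * Q * u := by
        have h2 := abs_sub (η u (nx c)) (η u (pv c))
        by_cases h3 : nx c = b
        · have := f1' u hu' (pv c) S.ne2 (fun h => hc3 (h3.trans h.symm))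
          have h4 := f2 u hu'
          rw [← h3] at h4
          nlinarith
        · have := f1' u hu' (nx c) S.ne1 h3
          by_cases h5 : pv c = b
          · have h4 := f2 u hu'
            rw [← h5] at h4
            nlinarith
          · have := f1' u hu' (pv c) S.ne2 h5
            nlinarith
      rw [S.gp_c, abs_div, abs_of_pos (by linarith [hu.1] : 0 < 2 * u),
        div_le_iff₀ (by linarith [hu.1])]
      nlinarith
    simpa using this
  have hQ2 : Q ≤ max (1 + 311 / 1600 * Q) (303 / 800 * Q) := by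
    refine csSup_le ⟨_, 0, ⟨le_rfl, by norm_num⟩, rfl⟩ ?_
    rintro _ ⟨t, ht, rfl⟩
    refine (pi_norm_le_iff_of_nonneg (le_max_of_le_right (by positivity))).2 fun i => ?_
    rw [Real.norm_eq_abs]
    have hQt : Q * t ≤ Q * (1 / 2) := mul_le_mul_of_nonneg_left ht.2 hQ0
    by_cases hi : i = c
    · refine le_max_of_le_left ?_
      have h1 := abs_add_le (η t c - 1) 1
      rw [sub_add_cancel, abs_one] at h1
      rw [hi]
      nlinarith [f3 t ht]
    · refine le_max_of_le_right ?_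
      by_cases hi' : i = b
      · rw [hi']; nlinarith [f2 t ht]
      · nlinarith [f1' t ht i hi hi']
  have hQ3 : Q ≤ 5 / 4 := by
    rcases le_max_iff.1 hQ2 with h | h <;> linarith
  have hm : (1 / 2 : ℝ) ∈ Icc (0 : ℝ) (1 / 2) := ⟨by norm_num, le_rfl⟩
  refine ⟨by linarith [f3 _ hm], by linarith [f2 _ hm], fun i hi hi' => ?_⟩
  refine (f1 _ hm i hi hi').trans ?_
  rw [div_mul_eq_mul_div]
  gcongr
  linarith

end Pool.Agent.MP_62f0b1_an.Xi

end MrgPart6

-- ======== part 7: formerly Pool.Agent.MP_62f0b1_an.xi.Symp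
section MrgPart7

/-!
Leading forms in involution that are invariant along two non-commuting directions are dependent.
-/

set_option autoImplicit false
set_option linter.unusedSectionVars false

open Set Filter Topology Asymptotics MvPolynomial Module
open scoped ContDiff

namespace Pool.Agent.MP_62f0b1_an.Xi

variable {κ : Type*} [Fintype κ] [DecidableEq κ]

theorem dep_of_isotropic {k : ℕ} (hcard : Fintype.card κ = 2 * (k + 2))
    (B : (κ → ℝ) →ₗ[ℝ] (κ → ℝ) →L[ℝ] ℝ) (anti : ∀ v w, B v w = -B w v) {t : κ → ℝ} (ht : t ≠ 0)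
    (hBt : B t = 0) {u₁ u₂ : κ → ℝ} (hu : B u₁ u₂ ≠ 0) (v : Fin (k + 1) → κ → ℝ)
    (hv : ∀ m m', B (v m) (v m') = 0) (h1 : ∀ m, B (v m) u₁ = 0) (h2 : ∀ m, B (v m) u₂ = 0) :
    ¬ LinearIndependent ℝ fun m => B (v m) := by
  intro hind
  let x : Fin (k + 2) → κ → ℝ := Fin.cons u₁ v
  have hself : B u₁ u₁ = 0 := by linarith [anti u₁ u₁]
  have hx : ∀ m m', B (x m) (x m') = 0 := fun m m' => by
    refine Fin.cases ?_ (fun m => ?_) m <;> refine Fin.cases ?_ (fun m' => ?_) m'
    · exact hself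
    · simp only [x, Fin.cons_zero, Fin.cons_succ]
      rw [anti, h1, neg_zero]
    · exact h1 m
    · exact hv m m'
  have hL : LinearIndependent ℝ fun m => B (x m) := by
    have e : (fun m => B (x m)) = Fin.cons (B u₁) fun m => B (v m) := by
      ext1 m; refine Fin.cases rfl (fun _ => rfl) m
    rw [e, linearIndependent_finCons]
    refine ⟨hind, fun h => hu ?_⟩
    obtain ⟨c, hc⟩ := (Submodule.mem_span_range_iff_exists_fun ℝ).1 h
    rw [← hc]
    simp [h2]
  obtain ⟨w, hw⟩ := exists_dual_family hL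
  let y : (Fin (k + 2) ⊕ Fin (k + 2)) ⊕ Unit → κ → ℝ := Sum.elim (Sum.elim w x) fun _ => t
  have hy : LinearIndependent ℝ y := by
    rw [Fintype.linearIndependent_iff]
    intro g hg
    simp only [y, Fintype.sum_sum_type, Sum.elim_inl, Sum.elim_inr, Finset.univ_unique,
      Finset.sum_singleton] at hg
    have a1 : ∀ i, g (.inl (.inl i)) = 0 := fun i => by
      have := congrArg (B (x i)) hg
      have a0 : B (x i) t = 0 := by rw [anti, hBt]; simp
      simpa [hw, hx, a0] using this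
    simp only [a1, zero_smul, Finset.sum_const_zero, zero_add] at hg
    have a2 : ∀ i, g (.inl (.inr i)) = 0 := by
      refine Fintype.linearIndependent_iff.1 hL (fun i => g (.inl (.inr i))) ?_
      have := congrArg B hg
      simpa [hBt] using this
    simp only [a2, zero_smul, Finset.sum_const_zero, zero_add] at hg
    rintro ((i | i) | i)
    · exact a1 i
    · exact a2 i
    · exact (smul_eq_zero.1 hg).resolve_right ht
  have := hy.fintype_card_le_finrank
  simp only [Fintype.card_sum, Fintype.card_fin, Fintype.card_unique, finrank_pi, hcard] at this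
  omega

theorem symp_flat {k : ℕ} (hcard : Fintype.card κ = 2 * (k + 2))
    (B : (κ → ℝ) →ₗ[ℝ] (κ → ℝ) →L[ℝ] ℝ) (anti : ∀ v w, B v w = -B w v) {t : κ → ℝ} (ht : t ≠ 0)
    (hBt : B t = 0) {u₁ u₂ : κ → ℝ} (hu : B u₁ u₂ ≠ 0) {f : Fin (k + 1) → (κ → ℝ) → ℝ}
    (hf : ∀ l, ContDiffAt ℝ ∞ (f l) 0)
    (hr : ∀ᶠ δ in 𝓝 (0 : κ → ℝ), ∀ l, ∃ v, B v = fderiv ℝ (f l) δ)
    (hc : ∀ᶠ δ in 𝓝 (0 : κ → ℝ), ∀ l l' v, B v = fderiv ℝ (f l) δ → fderiv ℝ (f l') δ v = 0)
    (hinv : ∀ P j G, Ld (cp f P) j G → ∀ z,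
      fderiv ℝ (ev G) z u₁ = 0 ∧ fderiv ℝ (ev G) z u₂ = 0)
    (v : Fin (k + 1) → κ → ℝ) (N : ℕ) :
    Od (fun δ => (Matrix.of fun l l' => fderiv ℝ (f l) δ (v l')).det) N := by
  refine ziglin hf (fun z G hG => ?_) v N
  have : Module.Free ℝ (LinearMap.range B) := Module.Free.of_divisionRing ℝ (LinearMap.range B)
  obtain ⟨g, hg⟩ := B.rangeRestrict.exists_rightInverse_of_surjective
    (LinearMap.range_rangeRestrict B)
  obtain ⟨H, hH⟩ := g.exists_extend
  have hBH : ∀ x, B (H (B x)) = B x := fun x => by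
    have a1 : H (B x) = g ⟨B x, x, rfl⟩ := LinearMap.congr_fun hH ⟨B x, x, rfl⟩
    rw [a1]
    exact congrArg Subtype.val (LinearMap.congr_fun hg ⟨B x, x, rfl⟩)
  have Hc : Continuous H := H.continuous_of_finiteDimensional
  have Bc : Continuous B := B.continuous_of_finiteDimensional
  choose P j hL using hG
  have hray : Tendsto (fun s : ℝ => s • z) (𝓝[>] 0) (𝓝 0) := by
    have : Continuous fun s : ℝ => s • z := by fun_prop
    simpa using (this.tendsto 0).mono_left (nhdsWithin_le_nhds (s := Ioi 0))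
  let α : Fin (k + 1) → ℝ → (κ → ℝ) →L[ℝ] ℝ := fun m s =>
    (s / s ^ j m) • fderiv ℝ (cp f (P m)) (s • z)
  have hα : ∀ m, Tendsto (α m) (𝓝[>] 0) (𝓝 (fderiv ℝ (ev (G m)) z)) := fun m =>
    (hL m).tendsto (cp_contDiffAt hf _) z
  have key : ∀ᶠ s in 𝓝[>] (0 : ℝ), (∀ m, B (H (α m s)) = α m s) ∧
      ∀ m m', α m' s (H (α m s)) = 0 := by
    filter_upwards [hray.eventually hr, hray.eventually hc,
      hray.eventually (eventually_all.2 fun l => ev_diff_near (hf l))] with s h1 h2 h3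
    choose w hw using h1
    have e : ∀ m, α m s = B (∑ l, (s / s ^ j m * cp f (pderiv l (P m)) (s • z)) • w l) := by
      intro m
      ext1 x
      simp only [α, smul_apply, cp_fderiv h3, map_sum, map_smul, hw,
        sum_apply, smul_eq_mul, Finset.mul_sum, mul_assoc]
    refine ⟨fun m => by rw [e, hBH], fun m m' => ?_⟩
    have a1 : ∀ l l', B (w l') (H (B (w l))) = 0 := fun l l' => by
      rw [hw l']
      exact h2 l l' _ (by rw [hBH, hw])
    rw [e, e]
    simp [a1]
  have k1 : ∀ m, B (H (fderiv ℝ (ev (G m)) z)) = fderiv ℝ (ev (G m)) z := fun m =>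
    tendsto_nhds_unique (((Bc.comp Hc).tendsto _).comp (hα m))
      ((hα m).congr' (key.mono fun s hs => (hs.1 m).symm))
  have k2 : ∀ m m', fderiv ℝ (ev (G m')) z (H (fderiv ℝ (ev (G m)) z)) = 0 := fun m m' =>
    tendsto_nhds_unique ((isBoundedBilinearMap_apply.continuous.tendsto _).comp
      ((hα m').prodMk_nhds ((Hc.tendsto _).comp (hα m))))
      (tendsto_const_nhds.congr' (key.mono fun s hs => (hs.2 m m').symm))
  have := dep_of_isotropic hcard B anti ht hBt hu (fun m => H (fderiv ℝ (ev (G m)) z))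
    (fun m m' => by rw [k1, k2]) (fun m => by rw [k1]; exact (hinv _ _ _ (hL m) z).1)
    (fun m => by rw [k1]; exact (hinv _ _ _ (hL m) z).2)
  simpa only [k1] using this

end Pool.Agent.MP_62f0b1_an.Xi

end MrgPart7

-- marker of a merged file
example : 731051 + 674495 = 731051 + 674495 := rfl
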