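import Pool.Agent.MP_62f0b1_an.xi.Mid
import Pool.Agent.MP_62f0b1_an.xi.Symp
import Mathlib.LinearAlgebra.Complex.FiniteDimensional

/-!
Commuting smooth integrals of `ξ` on odd-gons have flat Jacobian minors at a collinear polygon.
-/

set_option autoImplicit false
set_option linter.unusedSectionVars false

open Set Real Filter Topology Asymptotics Module
open scoped ContDiff

namespace Pool.Agent.MP_62f0b1_an.Xi

theorem exists_of_ker {κ : Type*} [Fintype κ] [DecidableEq κ]
    (B : (κ → ℝ) →ₗ[ℝ] (κ → ℝ) →L[ℝ] ℝ) (α : (κ → ℝ) →L[ℝ] ℝ)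
    (h : ∀ w, (∀ a, B a w = 0) → α w = 0) : ∃ v, B v = α := by
  have h1 : (⨅ i : κ, LinearMap.ker (B (Pi.single i 1) : (κ → ℝ) →ₗ[ℝ] ℝ)) ≤
      LinearMap.ker (α : (κ → ℝ) →ₗ[ℝ] ℝ) := fun w hw => h w fun a => by
    rw [Submodule.mem_iInf] at hw
    have e1 : a = ∑ i, a i • (Pi.single i 1 : κ → ℝ) := by
      ext b; simp [Finset.sum_apply, Pi.single_apply]
    have e2 : ∀ i, B (Pi.single i 1) w = 0 := hw
    rw [e1]
    simp [e2]
  obtain ⟨c, hc⟩ := (Submodule.mem_span_range_iff_exists_fun ℝ).1 (mem_span_of_iInf_ker_le_ker h1)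
  refine ⟨∑ i, c i • Pi.single i 1, ?_⟩
  ext1 w
  simpa using LinearMap.congr_fun hc w

theorem isOpen_polygon {n : ℕ} [NeZero n] : IsOpen {P : Fin n → ℂ | IsPolygon P} := by
  simp only [IsPolygon, ofPred_forall]
  exact isOpen_iInter_of_finite fun i => isOpen_ne_fun (by fun_prop) (by fun_prop)

theorem xi_flat {k : ℕ} (hk : Even (k + 1)) (h4 : 4 ≤ k + 1) :
    ∃ Y : Fin (k + 2) → ℂ, IsPolygon Y ∧ ∀ F : Fin (k + 1) → (Fin (k + 2) → ℂ) → ℝ,
      (∀ l, ContDiffOn ℝ ∞ (F l) {P | IsPolygon P}) →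
      (∀ l P, IsPolygon P → ∀ c : ℂ, F l (fun i => P i + c) = F l P) →
      (∀ l P, IsPolygon P → fderiv ℝ (F l) P (xiField P) = 0) →
      (∀ l l' P, IsPolygon P → ∀ v, (∀ w, omegaForm v w = fderiv ℝ (F l) P w) →
        fderiv ℝ (F l') P v = 0) →
      ∀ (v : Fin (k + 1) → Fin (k + 2) → ℂ) (N : ℕ),
        (fun P => (Matrix.of fun l l' => fderiv ℝ (F l) P (v l')).det) =O[𝓝 Y]
          fun P => ‖P - Y‖ ^ N := by
  set L : ℝ := 100 * (k + 2) with hL
  have hL1 : 100 ≤ L := by
    have : (0 : ℝ) ≤ k := Nat.cast_nonneg k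
    linarith
  obtain ⟨c, X, σ, D⟩ := exists_dbl hk h4 hL1
  obtain ⟨x, x', hx, hinv⟩ := D.two (κ := Fin (2 * (k + 2))) hL1
    (by rw [hL, Fintype.card_fin]; push_cast; linarith)
  let e : (Fin (2 * (k + 2)) → ℝ) ≃L[ℝ] (Fin (k + 2) → ℂ) :=
    ContinuousLinearEquiv.ofFinrankEq (by
      simp [Module.finrank_pi_fintype, Complex.finrank_real_complex, mul_comm])
  let m : (Fin (k + 2) → ℂ) ≃L[ℝ] (Fin (k + 2) → ℂ) :=
    (LinearEquiv.ofInjectiveEndo midL (midL_inj hk)).toContinuousLinearEquiv
  have hm : ∀ a, m a = mid a := fun _ => rfl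
  let e' := e.trans m
  have he' : ∀ a, e' a = mid (e a) := fun _ => rfl
  set y := bp X σ (1 / 2) with hy
  have hY : IsPolygon (mid y) := by
    rw [polygon_mid]
    intro i h
    have h1 : X (i + 1) + 1 / 2 * σ (i + 1) = X (i - 1) + 1 / 2 * σ (i - 1) := by
      simp only [hy, bp, bs] at h
      exact_mod_cast h
    by_cases a1 : i = c
    · rw [a1, D.s2, D.s0, D.col1] at h1
      linarith
    by_cases a2 : i = c + 1
    · rw [a2, D.s3, D.col2, add_sub_cancel_right, D.s1] at h1
      linarith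
    have h2 := D.far i a1 a2
    have h3 : X (i + 1) - X (i - 1) = 1 / 2 * (σ (i - 1) - σ (i + 1)) := by linarith
    rw [h3] at h2
    nlinarith [D.mul_le i (i + 1), D.mul_le i (i - 1)]
  refine ⟨mid y, hY, fun F hF htr hxi hpo v N => ?_⟩
  have hF' : ∀ l P, IsPolygon P → ContDiffAt ℝ ∞ (F l) P := fun l P hP =>
    (hF l).contDiffAt (isOpen_polygon.mem_nhds hP)
  let f : Fin (k + 1) → (Fin (2 * (k + 2)) → ℝ) → ℝ := fun l δ => F l (mid y + e' δ)
  have hfd : ∀ l δ, IsPolygon (mid y + e' δ) → ∀ w,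
      fderiv ℝ (f l) δ w = fderiv ℝ (F l) (mid y + e' δ) (e' w) := fun l δ h w => by
    have h1 := ((hF' l _ h).differentiableAt (by simp)).hasFDerivAt.comp δ
      (e'.hasFDerivAt.const_add (mid y))
    have h2 : fderiv ℝ (f l) δ = _ := h1.fderiv
    rw [h2]; rfl
  have hnear : ∀ᶠ δ in 𝓝 (0 : Fin (2 * (k + 2)) → ℝ), IsPolygon (mid y + e' δ) := by
    have : Continuous fun δ => mid y + e' δ := by fun_prop
    exact this.continuousAt.eventually (isOpen_polygon.mem_nhds (by simpa using hY))
  let B : (Fin (2 * (k + 2)) → ℝ) →ₗ[ℝ] (Fin (2 * (k + 2)) → ℝ) →L[ℝ] ℝ :=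
    LinearMap.toContinuousLinearMap.toLinearMap ∘ₗ LinearMap.mk₂ ℝ
      (fun a b => omegaForm (e' a) (e' b))
      (fun a a' b => by
        simp only [omega_eq, map_add, ← Finset.sum_add_distrib]
        refine Finset.sum_congr rfl fun i _ => Finset.sum_congr rfl fun j _ => ?_
        simp only [ip, Pi.add_apply, Complex.add_re, Complex.add_im]; ring)
      (fun s a b => by
        simp only [omega_eq, map_smul, smul_eq_mul, Finset.mul_sum]
        refine Finset.sum_congr rfl fun i _ => Finset.sum_congr rfl fun j _ => ?_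
        simp only [ip, Pi.smul_apply, Complex.smul_re, Complex.smul_im, smul_eq_mul]; ring)
      (fun a b b' => by
        simp only [omega_eq, map_add, ← Finset.sum_add_distrib]
        refine Finset.sum_congr rfl fun i _ => Finset.sum_congr rfl fun j _ => ?_
        simp only [ip, Pi.add_apply, Complex.add_re, Complex.add_im]; ring)
      (fun s a b => by
        simp only [omega_eq, map_smul, smul_eq_mul, Finset.mul_sum]
        refine Finset.sum_congr rfl fun i _ => Finset.sum_congr rfl fun j _ => ?_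
        simp only [ip, Pi.smul_apply, Complex.smul_re, Complex.smul_im, smul_eq_mul]; ring)
  have hB : ∀ a b, B a b = omegaForm (e' a) (e' b) := fun _ _ => rfl
  have hO := symp_flat (f := f) (by simp) B (fun a b => by rw [hB, hB, omega_anti])
    (t := e.symm fun _ => 1) (fun h => by
      have := congrFun (congrArg e h) 0
      simp at this) (by
      ext1 w
      rw [hB, he', e.apply_symm_apply, omega_mid hk]
      simp only [ip, Complex.one_re, Complex.one_im, Complex.sub_re, one_mul, zero_mul, add_zero,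
        Finset.sum_sub_distrib]
      rw [← Equiv.sum_comp (Equiv.subRight (1 : Fin (k + 2))) fun i => (e' w i).re]
      simp)
    (u₁ := e.symm (nd x)) (u₂ := e.symm (nd x')) (by
      rw [hB, he', he', e.apply_symm_apply, e.apply_symm_apply, omega_mid hk]
      have : ∀ i, ip (nd x i) (mid (nd x') i - mid (nd x') (i - 1)) =
          1 / 2 * (x i * (x' (i + 1) - x' (i - 1))) := fun i => by
        rw [mid_sub]; simp [ip, nd]; ring
      simp only [this, ← Finset.mul_sum]
      exact mul_ne_zero (by norm_num) (mul_ne_zero (by norm_num) hx))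
    (fun l => ContDiffAt.comp (g := F l) 0 (by simpa using hF' l _ hY)
      (contDiffAt_const.add e'.contDiff.contDiffAt))
    (hnear.mono fun δ hδ l => exists_of_ker B _ fun w hw => by
      rw [hfd l δ hδ]
      have h1 : e' w = fun _ => e' w 0 := funext (omega_ker hk fun a => by
        have := hw (e'.symm a)
        rwa [hB, e'.apply_symm_apply] at this)
      set P := mid y + e' δ
      have d1 : HasDerivAt (fun s : ℝ => P + s • e' w) (e' w) 0 :=
        (((hasDerivAt_id (0 : ℝ)).smul_const (e' w)).const_add P).congr_deriv (by simp)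
      have d2 := HasFDerivAt.comp_hasDerivAt_of_eq (0 : ℝ)
        ((hF' l _ hδ).differentiableAt (by simp)).hasFDerivAt d1 (by simp)
      have d3 : (F l ∘ fun s : ℝ => P + s • e' w) = fun _ => F l P := by
        ext s
        rw [← htr l P hδ (s • e' w 0), h1]
        rfl
      rw [d3] at d2
      exact d2.unique (hasDerivAt_const _ _))
    (hnear.mono fun δ hδ l l' u hu => by
      rw [hfd l' δ hδ]
      refine hpo l l' _ hδ _ fun w => ?_
      rw [← e'.apply_symm_apply w, ← hB, hu, hfd l δ hδ])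
    (fun P j G hG => hinv (cp (fun l M => F l (m M)) P) (fun M hM => ?_) e j G (by
      convert hG using 2 with δ
      simp only [cp, f, map_add]
      rfl))
    (fun l => e'.symm (v l)) N
  · have t1 : Tendsto (fun P => e'.symm (P - mid y)) (𝓝 (mid y)) (𝓝 0) := by
      have : Continuous fun P => e'.symm (P - mid y) := by fun_prop
      simpa using this.tendsto (mid y)
    have h1 := IsBigO.comp_tendsto hO t1
    have h2 : (fun P => ‖e'.symm (P - mid y)‖ ^ N) =O[𝓝 (mid y)] fun P => ‖P - mid y‖ ^ N :=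
      ((e'.symm.isBigO_comp (fun P => P - mid y) (𝓝 (mid y))).norm_norm).pow N
    refine (h1.trans h2).congr' ?_ EventuallyEq.rfl
    filter_upwards [isOpen_polygon.mem_nhds hY] with P hP
    have e1 : mid y + e' (e'.symm (P - mid y)) = P := by simp
    simp only [Function.comp_apply]
    congr 2
    ext l l'
    rw [hfd l _ (by rwa [e1]), e1, e'.apply_symm_apply]
  · have hP : IsPolygon (m M) := polygon_mid.2 hM
    have h1 : ∀ l, ContDiffAt ℝ ∞ (fun M => F l (m M)) M := fun l =>
      (hF' l _ hP).comp M m.contDiff.contDiffAt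
    refine ⟨cp_contDiffAt h1 P, ?_⟩
    rw [cp_fderiv fun l => (h1 l).differentiableAt (by simp)]
    refine Finset.sum_eq_zero fun l _ => mul_eq_zero_of_right _ ?_
    have h2 := ((hF' l _ hP).differentiableAt (by simp)).hasFDerivAt.comp M m.hasFDerivAt
    have h3 : fderiv ℝ (fun M => F l (m M)) M = _ := h2.fderiv
    rw [h3]
    have := hxi l _ hP
    rw [hm, xi_mid] at this
    exact this

end Pool.Agent.MP_62f0b1_an.Xi
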