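import Pool.Agent.MP_62f0b1_an.xi.Passage
import Pool.Agent.MP_62f0b1_an.xi.Symp
import Mathlib.Analysis.Polynomial.Basic
import Pool.Agent.MP_62f0b1_an.xi.Defs

-- ======== part 0: formerly Pool.Agent.MP_62f0b1_an.xi.Coll
section MrgPart0

/-!
Leading forms of smooth first integrals next to a collision are invariant along the regular
solution of the normal variational equation.
-/

set_option autoImplicit false
set_option linter.unusedSectionVars false

open Set Real Filter Topology Asymptotics MvPolynomial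
open scoped ContDiff

namespace Pool.Agent.MP_62f0b1_an.Xi

variable {ι : Type*} [Fintype ι] [DecidableEq ι] {κ : Type*} [Fintype κ] [DecidableEq κ]

/-- Smooth first integrals of `fld` away from collisions. -/
def Intg (nx pv : ι → ι) (f : (ι → ℂ) → ℝ) : Prop :=
  ∀ M : ι → ℂ, (∀ i, M (nx i) ≠ M (pv i)) →
    ContDiffAt ℝ ∞ f M ∧ fderiv ℝ f M (fld nx pv M) = 0

/-- The normal direction. -/
noncomputable def nd (x : ι → ℝ) : ι → ℂ := fun i => Complex.I * x i

/-- The base point. -/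
noncomputable def bp (X σ : ι → ℝ) (T : ℝ) : ι → ℂ := fun i => bs X σ T i

variable {nx pv : ι → ι} {c : ι} {X σ σ' : ι → ℝ} {T a T' a' : ℝ} {η η' : ℝ → ι → ℝ} {H H' : ℝ}
  {f : (ι → ℂ) → ℝ}

theorem fld_swap (z : ι → ℂ) : fld pv nx z = -fld nx pv z := by
  ext i
  simp only [fld, Pi.neg_apply]
  rw [norm_sub_rev, ← smul_neg, neg_sub]

theorem Intg.swap (hf : Intg nx pv f) : Intg pv nx f := fun M hM =>
  ⟨(hf M fun i => (hM i).symm).1, by
    rw [fld_swap, map_neg, (hf M fun i => (hM i).symm).2, neg_zero]⟩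

theorem Intg.const (hf : Intg nx pv f) {Z : ℝ → ι → ℂ} {u v : ℝ} (huv : u ≤ v)
    (hZ : ∀ t ∈ Icc u v, (∀ i, Z t (nx i) ≠ Z t (pv i)) ∧ HasDerivAt Z (fld nx pv (Z t)) t) :
    f (Z v) = f (Z u) := by
  have := incr_le (f := fun t => f (Z t)) (f' := fun _ => 0) huv (b := fun _ => 0)
    (b' := fun _ => 0)
    (fun t ht => by
      have h1 := hf _ (hZ t ht).1
      exact ((h1.1.differentiableAt (by simp)).hasFDerivAt.comp_hasDerivAt t
        (hZ t ht).2).congr_deriv h1.2)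
    (fun t _ => hasDerivAt_const t _) (fun t _ => by simp)
  simpa [sub_eq_zero] using this

theorem Side.nocoll (S : Side nx pv c X σ T a) (i : ι) : bp X σ T (nx i) ≠ bp X σ T (pv i) := by
  intro h
  have h1 := S.gp_pos (t := T) ⟨S.hT, le_rfl⟩ i
  have h2 : bs X σ T (nx i) = bs X σ T (pv i) := by simpa [bp] using h
  simp [gp, h2] at h1

theorem Intg.smooth (hf : Intg nx pv f) (S : Side nx pv c X σ T a) (e : (κ → ℝ) ≃L[ℝ] (ι → ℂ)) :
    ContDiffAt ℝ ∞ (fun δ => f (bp X σ T + e δ)) 0 := by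
  refine ContDiffAt.comp (g := f) 0 ?_ (contDiffAt_const.add e.contDiff.contDiffAt)
  simpa using (hf _ S.nocoll).1

theorem tend_small (A : ℝ) (m : ℕ) :
    Tendsto (fun l : ℝ => exp (-l) * (1 + |A| * l) ^ m) atTop (𝓝 0) := by
  have h := (tendsto_pow_mul_exp_neg_atTop_nhds_zero m).const_mul ((1 + |A|) ^ m)
  rw [mul_zero] at h
  refine squeeze_zero' ?_ ?_ h
  · filter_upwards [eventually_ge_atTop 0] with l hl using by positivity
  · filter_upwards [eventually_ge_atTop 1] with l hl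
    calc exp (-l) * (1 + |A| * l) ^ m ≤ exp (-l) * ((1 + |A|) * l) ^ m := by
          gcongr; linarith
      _ = _ := by rw [mul_pow]; ring

theorem transfer (S : Side nx pv c X σ T a) (S' : Side pv nx c X σ' T' a')
    (hσ : ∀ i, i ≠ c → σ' i = -σ i) (R : Reg nx pv c X σ T η H) (ν : ι → ℂ)
    (hg : pr nx pv (η T) ν ≠ 0) (k : ℝ) (hf : Intg nx pv f) (e : (κ → ℝ) ≃L[ℝ] (ι → ℂ))
    {i j : ℕ} {G : MvPolynomial κ ℝ} (hO : Od (fun δ => f (bp X σ' T' + e δ)) i)
    (hL : Ld (fun δ => f (bp X σ T + e δ)) j G) :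
    ∃ C, ∀ᶠ l : ℝ in atTop, exp (-l) ^ j * |ev G (e.symm ν + (k * l) • e.symm (nd (η T)))| ≤
      C * (exp (-l) * (1 + |k - pr nx pv (η T) ν| * l)) ^ i +
        C * (exp (-l) * (1 + |k| * l)) ^ (j + 1) := by
  obtain ⟨C, hC0, hC⟩ := passage S S' hσ R ν hg k
  obtain ⟨C₁, ρ₁, hC₁, hρ₁, h₁⟩ := Od.ball hO
  obtain ⟨C₂, ρ₂, hC₂, hρ₂, h₂⟩ := Od.ball hL.2
  set g := pr nx pv (η T) ν
  set K₁ := ‖(e.symm : (ι → ℂ) →L[ℝ] κ → ℝ)‖ * C with hK₁
  set K₂ := ‖e.symm ν‖ + ‖e.symm (nd (η T))‖ with hK₂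
  have hK₁0 : 0 ≤ K₁ := by positivity
  have hK₂0 : 0 ≤ K₂ := by positivity
  have t1 := (tend_small (k - g) 1).const_mul K₁
  have t2 := (tend_small k 1).const_mul K₂
  rw [mul_zero] at t1 t2
  refine ⟨C₁ * K₁ ^ i + C₂ * K₂ ^ (j + 1), ?_⟩
  filter_upwards [hC, t1.eventually (gt_mem_nhds hρ₁), t2.eventually (gt_mem_nhds hρ₂),
    eventually_ge_atTop 0] with l ⟨Z, hZ, hZ1, hZ2⟩ s1 s2 hl
  rw [pow_one] at s1 s2
  set s := exp (-l) with hs
  have hs0 : 0 < s := exp_pos _
  set w := e.symm ν + (k * l) • e.symm (nd (η T)) with hw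
  have e1 : Z T = bp X σ T + e (s • w) := by
    rw [hZ1, hw]
    ext i
    simp only [map_smul, map_add, ContinuousLinearEquiv.apply_symm_apply, Pi.add_apply,
      Pi.smul_apply, bp, nd, Complex.real_smul]
    push_cast; ring
  have e2 : Z (-T') = bp X σ' T' + e (e.symm (Z (-T') - bp X σ' T')) := by simp
  have n1 : ‖e.symm (Z (-T') - bp X σ' T')‖ ≤ K₁ * (s * (1 + |k - g| * l)) := by
    refine ((e.symm : (ι → ℂ) →L[ℝ] κ → ℝ).le_opNorm _).trans ?_
    rw [hK₁, mul_assoc]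
    gcongr
    refine (pi_norm_le_iff_of_nonneg (by positivity)).2 fun i => (hZ2 i).trans (le_of_eq ?_)
    ring
  have n2 : ‖s • w‖ ≤ K₂ * (s * (1 + |k| * l)) := by
    rw [norm_smul, Real.norm_eq_abs, abs_of_pos hs0, mul_left_comm]
    gcongr
    refine (norm_add_le _ _).trans ?_
    rw [norm_smul, Real.norm_eq_abs, abs_mul, abs_of_nonneg hl, hK₂]
    have : 0 ≤ |k| * l := by positivity
    nlinarith [norm_nonneg (e.symm ν), norm_nonneg (e.symm (nd (η T)))]
  have b1 := h₁ _ (n1.trans_lt s1)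
  have b2 := h₂ _ (n2.trans_lt s2)
  beta_reduce at b1 b2
  rw [← e2, ← hf.const (by linarith [S.hT, S'.hT]) hZ] at b1
  rw [← e1, ev_hom hL.1] at b2
  have b3 : |s ^ j * ev G w| ≤ |f (Z T)| + |f (Z T) - s ^ j * ev G w| := by
    have := abs_sub (f (Z T)) (f (Z T) - s ^ j * ev G w)
    rwa [sub_sub_cancel] at this
  rw [abs_mul, abs_of_pos (pow_pos hs0 j)] at b3
  have b4 : C₁ * ‖e.symm (Z (-T') - bp X σ' T')‖ ^ i ≤
      C₁ * K₁ ^ i * (s * (1 + |k - g| * l)) ^ i := by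
    rw [mul_assoc, ← mul_pow]; gcongr
  have b5 : C₂ * ‖s • w‖ ^ (j + 1) ≤ C₂ * K₂ ^ (j + 1) * (s * (1 + |k| * l)) ^ (j + 1) := by
    rw [mul_assoc, ← mul_pow]; gcongr
  have z1 : 0 ≤ C₂ * K₂ ^ (j + 1) * (s * (1 + |k - g| * l)) ^ i := by positivity
  have z2 : 0 ≤ C₁ * K₁ ^ i * (s * (1 + |k| * l)) ^ (j + 1) := by positivity
  rw [Real.norm_eq_abs] at b1 b2
  nlinarith

theorem zero_of_pr {x : ι → ℝ} {ν₀ : ι → ℂ} (h0 : pr nx pv x ν₀ ≠ 0) {φ : (ι → ℂ) → ℝ}
    (hφ : Continuous φ) (h : ∀ ν, pr nx pv x ν ≠ 0 → φ ν = 0) (ν : ι → ℂ) : φ ν = 0 := by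
  by_cases hν : pr nx pv x ν = 0
  swap
  · exact h ν hν
  have e : ∀ s : ℝ, pr nx pv x (ν + s • ν₀) = pr nx pv x ν + s * pr nx pv x ν₀ := fun s => by
    simp only [pr, Finset.mul_sum, ← Finset.sum_add_distrib]
    exact Finset.sum_congr rfl fun i _ => by simp; ring
  have h1 : Tendsto (fun s : ℝ => φ (ν + s • ν₀)) (𝓝[>] 0) (𝓝 (φ ν)) := by
    have : Continuous fun s : ℝ => φ (ν + s • ν₀) := hφ.comp (by fun_prop)
    simpa using (this.tendsto 0).mono_left (nhdsWithin_le_nhds (s := Ioi 0))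
  refine tendsto_nhds_unique h1 (tendsto_const_nhds.congr' ?_)
  filter_upwards [self_mem_nhdsWithin] with s hs
  refine (h _ ?_).symm
  rw [e, hν, zero_add]
  exact mul_ne_zero (ne_of_gt hs) h0

theorem od_transfer (S : Side nx pv c X σ T a) (S' : Side pv nx c X σ' T' a')
    (hσ : ∀ i, i ≠ c → σ' i = -σ i) (R : Reg nx pv c X σ T η H) {ν₀ : ι → ℂ}
    (h0 : pr nx pv (η T) ν₀ ≠ 0) (hf : Intg nx pv f) (e : (κ → ℝ) ≃L[ℝ] (ι → ℂ)) {j : ℕ}
    (hO : Od (fun δ => f (bp X σ' T' + e δ)) j) : Od (fun δ => f (bp X σ T + e δ)) j := by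
  suffices ∀ i ≤ j, Od (fun δ => f (bp X σ T + e δ)) i from this j le_rfl
  intro i
  induction i with
  | zero => exact fun _ => od_zero (hf.smooth S e).continuousAt
  | succ i ih =>
    intro hi
    obtain ⟨G, hG⟩ := exists_ld (hf.smooth S e) (ih (by omega))
    suffices G = 0 from (this ▸ hG).od_succ
    refine ev_eq_zero fun z => ?_
    have := zero_of_pr h0 (φ := fun ν => ev G (e.symm ν))
      ((ev_diff G).continuous.comp e.symm.continuous) (fun ν hν => ?_) (e z)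
    · simpa using this
    obtain ⟨C, hC⟩ := transfer S S' hσ R ν hν 0 hf e (hO.mono hi) hG
    have t1 := ((tend_small (0 - pr nx pv (η T) ν) (i + 1)).const_mul C).add
      ((tend_small 0 (i + 1)).const_mul C)
    rw [mul_zero, add_zero] at t1
    refine abs_nonpos_iff.1 (ge_of_tendsto t1 (hC.mono fun l hl => ?_))
    rw [zero_mul, zero_smul, add_zero] at hl
    refine le_of_mul_le_mul_left (hl.trans (le_of_eq ?_)) (pow_pos (exp_pos (-l)) i)
    simp only [mul_pow]; ring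

theorem collision (S : Side nx pv c X σ T a) (S' : Side pv nx c X σ' T' a')
    (hσ : ∀ i, i ≠ c → σ' i = -σ i) (R : Reg nx pv c X σ T η H) (R' : Reg pv nx c X σ' T' η' H')
    {ν₀ ν₁ : ι → ℂ} (h0 : pr nx pv (η T) ν₀ ≠ 0) (h1 : pr pv nx (η' T') ν₁ ≠ 0)
    (hf : Intg nx pv f) (e : (κ → ℝ) ≃L[ℝ] (ι → ℂ)) {j : ℕ} {G : MvPolynomial κ ℝ}
    (hL : Ld (fun δ => f (bp X σ T + e δ)) j G) (z : κ → ℝ) :
    fderiv ℝ (ev G) z (e.symm (nd (η T))) = 0 := by
  have hO := od_transfer S' S (fun i hi => by rw [hσ i hi, neg_neg]) R' h1 hf.swap e hL.od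
  set u := e.symm (nd (η T)) with hu
  have := zero_of_pr h0 (φ := fun ν => fderiv ℝ (ev G) (e.symm ν) u)
    (((fderiv_ev_cont G).comp e.symm.continuous).clm_apply continuous_const)
    (fun ν hν => ?_) (e z)
  · simpa using this
  obtain ⟨C, hC⟩ := transfer S S' hσ R ν hν (pr nx pv (η T) ν) hf e hO hL
  set g := pr nx pv (η T) ν
  set y := e.symm ν
  let p : Polynomial ℝ := aeval (fun a => Polynomial.C (y a) + Polynomial.C (g * u a) *
    Polynomial.X) G
  have hp : ∀ s : ℝ, p.eval s = ev G (y + (g * s) • u) := fun s => by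
    simp only [p, ev]
    rw [← Polynomial.coe_aeval_eq_eval, ← AlgHom.comp_apply, comp_aeval, aeval_eq_eval]
    congr 2
    ext a; simp; ring
  have t1 := (tend_small g (j + 1)).const_mul C
  rw [mul_zero] at t1
  have hb : IsBoundedUnder (· ≤ ·) atTop fun x => |p.eval x| := by
    refine ⟨C + 1, eventually_map.2 ?_⟩
    filter_upwards [hC, t1.eventually (ge_mem_nhds one_pos)] with l h2 h3
    rw [hp]
    refine le_trans (le_of_mul_le_mul_left (h2.trans (le_of_eq ?_)) (pow_pos (exp_pos (-l)) j))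
      (add_le_add (le_refl C) h3)
    simp only [mul_pow, sub_self, abs_zero, zero_mul, add_zero, one_pow]; ring
  have hc := Polynomial.eq_C_of_degree_le_zero ((Polynomial.isBoundedUnder_abs_atTop_iff p).1 hb)
  have d1 : HasDerivAt (fun s : ℝ => y + (g * s) • u) (g • u) 0 :=
    ((((hasDerivAt_id (0 : ℝ)).const_mul g).smul_const u).const_add y).congr_deriv (by simp)
  have d2 := (ev_diff G _).hasFDerivAt.comp_hasDerivAt 0 d1
  have d3 : (ev G ∘ fun s : ℝ => y + (g * s) • u) = fun _ => p.coeff 0 := by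
    ext s
    rw [Function.comp_apply, ← hp, hc]; simp
  rw [d3] at d2
  have d4 := d2.unique (hasDerivAt_const _ _)
  simpa [hν] using d4

end Pool.Agent.MP_62f0b1_an.Xi

end MrgPart0

-- ======== part 1: formerly Pool.Agent.MP_62f0b1_an.xi.Two
section MrgPart1

/-!
A collinear orbit between two simple collisions: two invariance directions that do not commute.
-/

set_option autoImplicit false
set_option linter.unusedSectionVars false

open Set Real Filter Topology Asymptotics MvPolynomial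
open scoped ContDiff

namespace Pool.Agent.MP_62f0b1_an.Xi

variable {ι : Type*} [Fintype ι] [DecidableEq ι] {κ : Type*} [Fintype κ] [DecidableEq κ]

/-- A collinear orbit whose gap `c` closes at time `0`, whose gap `nx c` closes at time `1`, and
whose other gaps are large. -/
structure Dbl (nx pv : ι → ι) (c : ι) (X σ : ι → ℝ) (L : ℝ) : Prop where
  inv1 : ∀ i, nx (pv i) = i
  inv2 : ∀ i, pv (nx i) = i
  sgn : ∀ i, σ i = 1 ∨ σ i = -1
  s1 : σ c = 1
  s2 : σ (nx c) = 1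
  s0 : σ (pv c) = -1
  s3 : σ (nx (nx c)) = -1
  col1 : X (nx c) = X (pv c)
  col2 : X (nx (nx c)) = X c + 2
  far : ∀ i, i ≠ c → i ≠ nx c → L ≤ σ i * (X (nx i) - X (pv i))

variable {nx pv : ι → ι} {c : ι} {X σ : ι → ℝ} {L : ℝ}

theorem Dbl.mul_le (D : Dbl nx pv c X σ L) (i j : ι) : -1 ≤ σ i * σ j ∧ σ i * σ j ≤ 1 := by
  rcases D.sgn i with h | h <;> rcases D.sgn j with h' | h' <;> simp [h, h']

theorem Dbl.swap (D : Dbl nx pv c X σ (L + 2)) :
    Dbl pv nx (nx c) (fun i => -(X i + σ i)) σ L where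
  inv1 := D.inv2
  inv2 := D.inv1
  sgn := D.sgn
  s1 := D.s2
  s2 := by rw [D.inv2, D.s1]
  s0 := D.s3
  s3 := by rw [D.inv2, D.s0]
  col1 := by rw [D.inv2, D.col2, D.s1, D.s3]; ring
  col2 := by rw [D.inv2, D.col1, D.s0, D.s2]; ring
  far := fun i h1 h2 => by
    rw [D.inv2] at h2
    linarith [D.far i h2 h1, D.mul_le i (nx i), D.mul_le i (pv i)]

theorem Dbl.mono (D : Dbl nx pv c X σ L) {L' : ℝ} (h : L' ≤ L) : Dbl nx pv c X σ L' :=
  { D with far := fun i h1 h2 => h.trans (D.far i h1 h2) }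

theorem Dbl.n1 (D : Dbl nx pv c X σ L) : pv c ≠ c := fun h => by
  have := D.s0; rw [h, D.s1] at this; norm_num at this

theorem Dbl.n2 (D : Dbl nx pv c X σ L) : nx c ≠ pv c := fun h => by
  have := D.s0; rw [← h, D.s2] at this; norm_num at this

theorem Dbl.n3 (D : Dbl nx pv c X σ L) : nx (nx c) ≠ nx c := fun h => by
  have := D.s3; rw [h, D.s2] at this; norm_num at this

theorem Dbl.n4 (D : Dbl nx pv c X σ L) : nx (nx c) ≠ c := fun h => by
  have := D.s3; rw [h, D.s1] at this; norm_num at this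

theorem Dbl.n5 (D : Dbl nx pv c X σ L) : nx c ≠ c := fun h => D.n4 (by rw [h, h])

theorem pr_ne {x : ι → ℝ} {b : ι} (i1 : ∀ i, nx (pv i) = i) (i2 : ∀ i, pv (nx i) = i)
    (h : nx c ≠ pv c) (hL : 100 ≤ L) (h1 : |x c - 1| ≤ 1 / 4) (h2 : |x b| ≤ 1 / 2)
    (h3 : ∀ i, i ≠ c → i ≠ b → |x i| ≤ 2 / L) :
    pr nx pv x (nd (Pi.single (pv c) 1)) ≠ 0 := by
  have e : pr nx pv x (nd (Pi.single (pv c) 1)) = x (pv (pv c)) - x c := by
    have a1 : ∀ i, nx i = pv c ↔ i = pv (pv c) := fun i =>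
      ⟨fun h => by rw [← h, i2], fun h => by rw [h, i1]⟩
    have a2 : ∀ i, pv i = pv c ↔ i = c := fun i =>
      ⟨fun h => by rw [← i1 i, h, i1], fun h => by rw [h]⟩
    simp [pr, nd, Pi.single_apply, a1, a2, mul_sub, Finset.sum_sub_distrib]
  have h4 : pv (pv c) ≠ c := fun h' => h (by conv_lhs => rw [← h', i1])
  have h5 : 2 / L ≤ 1 / 2 := by rw [div_le_iff₀ (by linarith)]; linarith
  have h6 : |x (pv (pv c))| ≤ 1 / 2 := by
    by_cases hb : pv (pv c) = b
    · rwa [hb]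
    · exact (h3 _ h4 hb).trans h5
  rw [e]
  rw [abs_le] at h1 h6
  linarith [h1.1, h6.2]

theorem Dbl.half (D : Dbl nx pv c X σ (L + 1)) (hL : 100 ≤ L) :
    ∃ x : ι → ℝ, |x c - 1| ≤ 1 / 4 ∧ |x (nx c)| ≤ 1 / 2 ∧
      (∀ i, i ≠ c → i ≠ nx c → |x i| ≤ 2 / L) ∧
      ∀ f, Intg nx pv f → ∀ (e : (κ → ℝ) ≃L[ℝ] (ι → ℂ)) j G,
        Ld (fun δ => f (bp X σ (1 / 2) + e δ)) j G → ∀ z, fderiv ℝ (ev G) z (e.symm (nd x)) = 0 := by
  let σ' : ι → ℝ := fun i => if i = c then 1 else -σ i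
  have hσ : ∀ i, i ≠ c → σ' i = -σ i := fun i hi => if_neg hi
  have hc : σ' c = 1 := if_pos rfl
  have sg : ∀ i, σ' i = 1 ∨ σ' i = -1 := fun i => by
    by_cases hi : i = c
    · rw [hi, hc]; exact Or.inl rfl
    · rw [hσ i hi]
      rcases D.sgn i with h | h <;> simp [h]
  have far : ∀ i, i ≠ c → i ≠ nx c → ∀ t ∈ Icc (0 : ℝ) (1 / 2), L ≤ gp nx pv X σ t i :=
    fun i h1 h2 t ht => by
      have := D.far i h1 h2
      have a1 := D.mul_le i (nx i)
      have a2 := D.mul_le i (pv i)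
      simp only [gp, bs]
      nlinarith [ht.1, ht.2]
  have nr : ∀ t ∈ Icc (0 : ℝ) (1 / 2), 2 * (1 - t) ≤ gp nx pv X σ t (nx c) := fun t _ => by
    simp only [gp, bs, D.inv2, D.s1, D.s2, D.s3, D.col2]; linarith
  have far' : ∀ i, i ≠ c → i ≠ nx c → ∀ t ∈ Icc (0 : ℝ) (1 / 2), L ≤ gp pv nx X σ' t i :=
    fun i h1 h2 t ht => by
      have := D.far i h1 h2
      simp only [gp, bs, hσ i h1]
      rcases D.sgn i with h | h <;> rcases sg (nx i) with a1 | a1 <;>
        rcases sg (pv i) with a2 | a2 <;> rw [h] at this <;> rw [h, a1, a2] <;>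
        linarith [ht.1, ht.2]
  have nr' : ∀ t ∈ Icc (0 : ℝ) (1 / 2), 2 * (1 - t) ≤ gp pv nx X σ' t (nx c) := fun t ht => by
    simp only [gp, bs, D.inv2, hc, hσ _ D.n5, hσ _ D.n4, D.s2, D.s3, D.col2]; linarith [ht.1]
  have S : Side nx pv c X σ (1 / 2) 1 :=
    ⟨by norm_num, one_pos, D.inv1, D.inv2, D.n5, D.n1, D.sgn, D.s1, D.s2, D.s0, D.col1,
      fun i hi t ht => by
        by_cases h : i = nx c
        · rw [h]; linarith [nr t ht, ht.2]
        · linarith [far i hi h t ht]⟩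
  have S' : Side pv nx c X σ' (1 / 2) 1 :=
    ⟨by norm_num, one_pos, D.inv2, D.inv1, D.n1, D.n5, sg, hc, by rw [hσ _ D.n1, D.s0, neg_neg],
      by rw [hσ _ D.n5, D.s2], D.col1.symm, fun i hi t ht => by
        by_cases h : i = nx c
        · rw [h]; linarith [nr' t ht, ht.2]
        · linarith [far' i hi h t ht]⟩
  obtain ⟨η, H, R⟩ := exists_reg S
  obtain ⟨η', H', R'⟩ := exists_reg S'
  have e1 : pv (nx c) ≠ nx c := by rw [D.inv2]; exact D.n5.symm
  have e2 : nx (nx c) ≠ pv (nx c) := by rw [D.inv2]; exact D.n4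
  obtain ⟨b1, b2, b3⟩ := R.bounds S hL D.n5 D.n3 e1 e2 D.n2 far nr
  obtain ⟨c1, c2, c3⟩ := R'.bounds S' hL D.n5 e1 D.n3 e2.symm D.n2.symm far' nr'
  exact ⟨η (1 / 2), b1, b2, b3, fun f hf e j G hG z =>
    collision S S' hσ R R' (pr_ne D.inv1 D.inv2 D.n2 hL b1 b2 b3)
      (pr_ne D.inv2 D.inv1 D.n2.symm hL c1 c2 c3) hf e hG z⟩

theorem Intg.neg {f : (ι → ℂ) → ℝ} (hf : Intg nx pv f) : Intg nx pv fun M => f (-M) := by
  intro M hM
  have h := hf (-M) fun i h => hM i (neg_injective h)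
  refine ⟨h.1.comp M contDiffAt_id.neg, ?_⟩
  have h1 := (h.1.differentiableAt (by simp)).hasFDerivAt.comp M (hasFDerivAt_id M).neg
  have h2 : fderiv ℝ (fun M => f (-M)) M = _ := h1.fderiv
  have e : fld nx pv (-M) = -fld nx pv M := by
    ext i
    simp only [fld, Pi.neg_apply]
    rw [neg_sub_neg, norm_sub_rev, ← smul_neg, neg_sub]
  rw [h2]
  simpa [e] using h.2

theorem Dbl.two (D : Dbl nx pv c X σ (L + 3)) (hL : 100 ≤ L)
    (hn : 100 * (Fintype.card ι : ℝ) ≤ L) :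
    ∃ x x' : ι → ℝ, ∑ i, x i * (x' (nx i) - x' (pv i)) ≠ 0 ∧
      ∀ f, Intg nx pv f → ∀ (e : (κ → ℝ) ≃L[ℝ] (ι → ℂ)) j G,
        Ld (fun δ => f (bp X σ (1 / 2) + e δ)) j G → ∀ z,
          fderiv ℝ (ev G) z (e.symm (nd x)) = 0 ∧ fderiv ℝ (ev G) z (e.symm (nd x')) = 0 := by
  obtain ⟨x, a1, a2, a3, a4⟩ := (D.mono (L' := L + 1) (by linarith)).half (κ := κ) hL
  obtain ⟨x', b1, b2, b3, b4⟩ :=
    (D.mono (L' := L + 1 + 2) (by linarith)).swap.half (κ := κ) hL
  rw [D.inv2] at b2 b3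
  refine ⟨x, x', ?_, fun f hf e j G hG z => ⟨a4 f hf e j G hG z, ?_⟩⟩
  · have hL0 : 0 < L := by linarith
    have h5 : 2 / L ≤ 1 / 50 := by rw [div_le_iff₀ hL0]; linarith
    have h6 : 0 ≤ 2 / L := by positivity
    have hx' : ∀ i, |x' i| ≤ 5 / 4 := fun i => by
      by_cases h1 : i = nx c
      · rw [h1, abs_le]; rw [abs_le] at b1; constructor <;> linarith [b1.1, b1.2]
      by_cases h2 : i = c
      · rw [h2]; linarith
      · linarith [b3 i h1 h2]
    rw [← Finset.add_sum_erase _ _ (Finset.mem_univ c),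
      ← Finset.add_sum_erase _ _ (Finset.mem_erase.2 ⟨D.n5, Finset.mem_univ (nx c)⟩), D.inv2]
    have s1 : |∑ i ∈ (Finset.univ.erase c).erase (nx c), x i * (x' (nx i) - x' (pv i))| ≤
        Fintype.card ι * (2 / L * (5 / 2)) := by
      refine (Finset.abs_sum_le_sum_abs _ _).trans ?_
      refine (Finset.sum_le_card_nsmul _ _ (2 / L * (5 / 2)) fun i hi => ?_).trans ?_
      · simp only [Finset.mem_erase] at hi
        rw [abs_mul]
        gcongr
        · exact a3 i hi.2.1 hi.1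
        · linarith [abs_sub (x' (nx i)) (x' (pv i)), hx' (nx i), hx' (pv i)]
      · rw [nsmul_eq_mul]
        gcongr
        exact Finset.card_le_univ _
    have s2 : (Fintype.card ι : ℝ) * (2 / L * (5 / 2)) ≤ 1 / 20 := by
      have : (Fintype.card ι : ℝ) * (2 / L * (5 / 2)) = 5 * Fintype.card ι / L := by ring
      rw [this, div_le_iff₀ hL0]; linarith
    have s3 := (b3 (pv c) D.n2.symm D.n1).trans h5
    have s4 := (b3 (nx (nx c)) D.n3 D.n4).trans h5
    have s5 := s1.trans s2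
    rw [abs_le] at a1 a2 b1 b2 s3 s4 s5
    have s6 : 3 / 4 * (3 / 4 - 1 / 50) ≤ x c * (x' (nx c) - x' (pv c)) :=
      mul_le_mul (by linarith [a1.1]) (by linarith [b1.1, s3.2]) (by norm_num) (by linarith [a1.1])
    have s7 : -(1 / 2 * (1 / 2 + 1 / 50)) ≤ x (nx c) * (x' (nx (nx c)) - x' c) := by
      have : |x (nx c) * (x' (nx (nx c)) - x' c)| ≤ 1 / 2 * (1 / 2 + 1 / 50) := by
        rw [abs_mul]
        gcongr <;> rw [abs_le] <;> constructor <;> linarith [a2.1, a2.2, s4.1, s4.2, b2.1, b2.2]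
      exact (abs_le.1 this).1
    linarith [s5.1]
  · have := b4 _ hf.neg.swap (e.trans (ContinuousLinearEquiv.neg ℝ)) j G (by
      convert hG using 3 with δ
      ext i
      simp only [bp, bs, Pi.neg_apply, Pi.add_apply, ContinuousLinearEquiv.trans_apply,
        ContinuousLinearEquiv.neg_apply]
      push_cast; ring) z
    simpa using this

end Pool.Agent.MP_62f0b1_an.Xi

end MrgPart1

-- ======== part 2: formerly Pool.Agent.MP_62f0b1_an.xi.Mid
section MrgPart2

/-!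
Midpoint coordinates on odd-gons, the form `ω` in them, and the collinear base orbit.
-/

set_option autoImplicit false
set_option linter.unusedSectionVars false

open Set Real Filter Topology

namespace Pool.Agent.MP_62f0b1_an.Xi

variable {k : ℕ}

/-- The polygon of midpoints. -/
noncomputable def mid (M : Fin (k + 1) → ℂ) : Fin (k + 1) → ℂ :=
  fun i => (1 / 2 : ℝ) • (M i + M (i + 1))

/-- Euclidean inner product in the plane. -/
def ip (z w : ℂ) : ℝ := z.re * w.re + z.im * w.im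

/-- The matrix of `ω`. -/
def am (i j : Fin (k + 1)) : ℝ :=
  (if i < j then (-1) ^ (i.val + j.val + 1) else 0) -
    if j < i then (-1) ^ (j.val + i.val + 1) else 0

theorem mid_sub (M : Fin (k + 1) → ℂ) (i : Fin (k + 1)) :
    mid M i - mid M (i - 1) = (1 / 2 : ℝ) • (M (i + 1) - M (i - 1)) := by
  simp only [mid, sub_add_cancel, Complex.real_smul]; ring

theorem polygon_mid {M : Fin (k + 1) → ℂ} :
    IsPolygon (mid M) ↔ ∀ i, M (i + 1) ≠ M (i - 1) := by
  refine forall_congr' fun i => ?_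
  rw [← sub_ne_zero, mid_sub, ← sub_ne_zero (a := M (i + 1))]
  simp

theorem xi_mid (M : Fin (k + 1) → ℂ) :
    xiField (mid M) = mid (fld (· + 1) (· - 1) M) := by
  have h : ∀ z : ℂ, (‖(1 / 2 : ℝ) • z‖⁻¹ : ℝ) • (1 / 2 : ℝ) • z = (‖z‖⁻¹ : ℝ) • z := fun z => by
    rw [smul_smul, norm_smul, mul_inv]
    congr 1
    norm_num; ring
  ext i
  have h1 := mid_sub M (i + 1)
  rw [add_sub_cancel_right] at h1
  have h2 : mid M i - mid M (i + 1) = -((1 / 2 : ℝ) • (M (i + 1 + 1) - M i)) := by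
    rw [← h1, neg_sub]
  rw [xiField, mid_sub, h2, norm_neg, smul_neg, h, h, sub_neg_eq_add]
  simp only [mid, fld, add_sub_cancel_right]

theorem omega_eq (v w : Fin (k + 1) → ℂ) :
    omegaForm v w = ∑ i, ∑ j, am i j * ip (v i) (w j) := by
  simp only [am, sub_mul, Finset.sum_sub_distrib]
  rw [Finset.sum_comm (f := fun i j : Fin (k + 1) =>
    (if j < i then (-1 : ℝ) ^ (j.val + i.val + 1) else 0) * ip (v i) (w j))]
  simp only [omegaForm, ← Finset.sum_sub_distrib]
  refine Finset.sum_congr rfl fun i _ => Finset.sum_congr rfl fun j _ => ?_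
  split_ifs
  · simp only [ip]; ring
  · simp

theorem am_add (hk : Even k) (i j : Fin (k + 1)) :
    am i j + am (i - 1) j = (if j = i then 1 else 0) - if j = i - 1 then 1 else 0 := by
  have hi := i.2
  have hj := j.2
  simp only [am, Fin.lt_def, Fin.ext_iff, Fin.coe_sub_one, Fin.val_zero, neg_one_pow_eq_ite,
    Nat.even_iff] at *
  split_ifs <;> first | omega | norm_num

theorem omega_mid (hk : Even k) (a w : Fin (k + 1) → ℂ) :
    omegaForm (mid a) w = 1 / 2 * ∑ i, ip (a i) (w i - w (i - 1)) := by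
  have e1 : ∀ i j, am i j * ip (mid a i) (w j) =
      1 / 2 * (am i j * ip (a i) (w j)) + 1 / 2 * (am i j * ip (a (i + 1)) (w j)) := by
    intro i j; simp [mid, ip]; ring
  simp only [omega_eq, e1, Finset.sum_add_distrib, ← Finset.mul_sum]
  rw [← mul_add, ← Equiv.sum_comp (Equiv.subRight (1 : Fin (k + 1)))
    (fun i => ∑ j, am i j * ip (a (i + 1)) (w j)), ← Finset.sum_add_distrib]
  congr 1
  refine Finset.sum_congr rfl fun i _ => ?_
  simp only [Equiv.subRight_apply, sub_add_cancel, ← Finset.sum_add_distrib, ← add_mul, am_add hk,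
    sub_mul, Finset.sum_sub_distrib, ite_mul, one_mul, zero_mul, Finset.sum_ite_eq',
    Finset.mem_univ, if_true]
  simp only [ip, Complex.sub_re, Complex.sub_im]; ring

theorem const_of_step {w : Fin (k + 1) → ℂ} (h : ∀ i, w i = w (i - 1)) (i : Fin (k + 1)) :
    w i = w 0 := by
  induction i using Fin.induction with
  | zero => rfl
  | succ i ih =>
    rw [h, ← ih]
    congr 1
    rw [Fin.ext_iff, Fin.coe_sub_one]
    simp

theorem omega_ker (hk : Even k) {w : Fin (k + 1) → ℂ} (h : ∀ v, omegaForm v w = 0)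
    (i : Fin (k + 1)) : w i = w 0 := by
  refine const_of_step (fun i => ?_) i
  have h1 := h (mid fun i => w i - w (i - 1))
  rw [omega_mid hk, mul_eq_zero] at h1
  have h2 := (Finset.sum_eq_zero_iff_of_nonneg
    fun i _ => add_nonneg (mul_self_nonneg _) (mul_self_nonneg _)).1
      (h1.resolve_left (by norm_num)) i (Finset.mem_univ _)
  rw [← sub_eq_zero, ← Complex.normSq_eq_zero]
  exact h2

theorem omega_anti (v w : Fin (k + 1) → ℂ) : omegaForm v w = -omegaForm w v := by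
  simp only [omegaForm, ← Finset.sum_neg_distrib]
  refine Finset.sum_congr rfl fun i _ => Finset.sum_congr rfl fun j _ => ?_
  split_ifs
  · ring
  · simp

/-- The midpoint map as a linear map. -/
noncomputable def midL : (Fin (k + 1) → ℂ) →ₗ[ℝ] Fin (k + 1) → ℂ where
  toFun := mid
  map_add' := fun a b => by ext i; simp [mid]; ring
  map_smul' := fun s a => by ext i; simp [mid]; ring

theorem midL_inj (hk : Even k) : Function.Injective (midL (k := k)) := by
  rw [injective_iff_map_eq_zero]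
  intro a ha
  have ha' : mid a = 0 := ha
  have h1 : ∀ i, a (i + 1) = -a i := fun i => by
    have := congrFun ha' i
    simp only [mid, Pi.zero_apply, smul_eq_zero] at this
    exact eq_neg_of_add_eq_zero_right (this.resolve_left (by norm_num))
  have h2 : ∀ (m : ℕ) i, a (i + m • 1) = (-1) ^ m * a i := fun m i => by
    induction m with
    | zero => simp
    | succ m ih => rw [succ_nsmul, ← add_assoc, h1, ih]; ring
  ext i
  have h3 := h2 (Fintype.card (Fin (k + 1))) i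
  rw [card_nsmul_eq_zero, add_zero, Fintype.card_fin, hk.add_one.neg_one_pow] at h3
  simpa using (by linear_combination h3 / 2 : a i = 0)

/-- Order of the points of the base orbit on the line. -/
def kz (n i : ℕ) : ℤ := if i = 2 then 0 else if i = 3 then n + 1 else if i % 2 = 0 then i else n + i

/-- Directions of motion on the base orbit. -/
def sz (n i : ℕ) : ℤ := if i = 1 ∨ i = 2 ∨ i + 1 = n then 1 else -1

theorem exists_dbl (hk : Even k) (h4 : 4 ≤ k) {L : ℝ} (hL : 100 ≤ L) :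
    ∃ c X σ, Dbl (ι := Fin (k + 1)) (· + 1) (· - 1) c X σ (L + 3) := by
  rw [Nat.even_iff] at hk
  have v1 : ∀ i : Fin (k + 1), (i + 1).val = if i.val = k then 0 else i.val + 1 := fun i => by
    simp [Fin.val_add_one, Fin.ext_iff]
  have v2 : ∀ i : Fin (k + 1), (i - 1).val = if i.val = 0 then k else i.val - 1 := fun i => by
    simp only [Fin.coe_sub_one, Fin.ext_iff, Fin.val_zero]
  let c : Fin (k + 1) := ⟨1, by omega⟩
  have c0 : c.val = 1 := rfl
  have c1 : (c + 1).val = 2 := by rw [v1, c0, if_neg (by omega)]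
  have c2 : (c + 1 + 1).val = 3 := by rw [v1, c1, if_neg (by omega)]
  have c3 : (c - 1).val = 0 := by rw [v2, c0, if_neg (by omega)]
  refine ⟨c, fun i => -L * kz (k + 1) i + if i.val = 3 then 2 else 0, fun i => sz (k + 1) i,
    fun i => sub_add_cancel _ _, fun i => add_sub_cancel_right _ _, fun i => ?_, ?_, ?_, ?_, ?_,
    ?_, ?_, fun i h1 h2 => ?_⟩
  · unfold sz; split_ifs <;> simp
  · simp [c0, sz]
  · simp [c1, sz]
  · rw [c3, sz, if_neg (by omega)]; simp
  · rw [c2, sz, if_neg (by omega)]; simp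
  · simp [c1, c3, kz]
  · simp [c2, c0, kz]
  · have hi := i.2
    rw [Ne, Fin.ext_iff] at h1 h2
    rw [c0] at h1
    rw [c1] at h2
    have h3 : 2 ≤ sz (k + 1) i * (kz (k + 1) (i - 1 : Fin (k + 1)) -
        kz (k + 1) (i + 1 : Fin (k + 1))) := by
      simp only [v1, v2, sz, kz]
      split_ifs <;> omega
    have h5 : (2 : ℝ) ≤ sz (k + 1) i * (kz (k + 1) (i - 1 : Fin (k + 1)) -
        kz (k + 1) (i + 1 : Fin (k + 1))) := by exact_mod_cast h3
    have h6 : (sz (k + 1) i : ℝ) = 1 ∨ (sz (k + 1) i : ℝ) = -1 := by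
      unfold sz; split_ifs <;> simp
    have h7 := mul_le_mul_of_nonneg_left h5 (by linarith : 0 ≤ L)
    rcases h6 with h | h <;> rw [h] at h7 ⊢ <;> split_ifs <;> linarith

end Pool.Agent.MP_62f0b1_an.Xi

end MrgPart2

-- marker of a merged file
example : 731051 + 636452 = 731051 + 636452 := rfl
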