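import Pool.Agent.MP_62f0b1_an.xi.Leave
import Mathlib.Analysis.SpecialFunctions.Exp

/-!
Passage of a perturbed orbit next to a simple collision.
-/

set_option autoImplicit false
set_option linter.unusedSectionVars false

open Set Real Filter Topology

namespace Pool.Agent.MP_62f0b1_an.Xi

variable {ι : Type*} [Fintype ι] [DecidableEq ι]

/-- The vector field in dual coordinates. -/
noncomputable def fld (nx pv : ι → ι) (z : ι → ℂ) : ι → ℂ :=
  fun i => (‖z (nx i) - z (pv i)‖⁻¹ : ℝ) • (z (nx i) - z (pv i))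

/-- The base orbit on both sides of the collision. -/
noncomputable def bf (c : ι) (X σ : ι → ℝ) (t : ℝ) (i : ι) : ℝ :=
  if i = c then X c + |t| else X i + t * σ i

variable {nx pv : ι → ι} {c : ι} {X σ σ' : ι → ℝ} {T a T' a' : ℝ} {η : ℝ → ι → ℝ} {H : ℝ}

theorem ev_small (A : ℝ) {δ : ℝ} (hδ : 0 < δ) : ∀ᶠ l : ℝ in atTop, A * (exp (-l) * l ^ 4) ≤ δ := by
  have h := (tendsto_pow_mul_exp_neg_atTop_nhds_zero 4).const_mul A
  rw [mul_zero] at h
  filter_upwards [h.eventually (ge_mem_nhds hδ)] with l hl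
  rwa [mul_comm (exp _)]

theorem bf_pos (S : Side nx pv c X σ T a) {t : ℝ} (ht : 0 ≤ t) (i : ι) :
    bf c X σ t i = bs X σ t i := by
  by_cases hi : i = c
  · simp [bf, bs, hi, S.sc, abs_of_nonneg ht]
  · simp [bf, bs, hi]

theorem bf_neg (S' : Side pv nx c X σ' T' a') (hσ : ∀ i, i ≠ c → σ' i = -σ i) {t : ℝ}
    (ht : 0 ≤ t) (i : ι) : bf c X σ (-t) i = bs X σ' t i := by
  by_cases hi : i = c
  · simp [bf, bs, hi, S'.sc, abs_of_nonneg ht]
  · simp [bf, bs, hi, hσ i hi]

theorem bf_gap (S : Side nx pv c X σ T a) (S' : Side pv nx c X σ' T' a')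
    (hσ : ∀ i, i ≠ c → σ' i = -σ i) {t : ℝ} (ht : t ∈ Icc (-T') T) {i : ι} (hi : i ≠ c) :
    min a a' ≤ σ i * (bf c X σ t (nx i) - bf c X σ t (pv i)) := by
  rcases le_total 0 t with h | h
  · rw [bf_pos S h, bf_pos S h]
    exact (min_le_left _ _).trans (S.gap i hi t ⟨h, ht.2⟩)
  · have e : t = -(-t) := (neg_neg t).symm
    rw [e, bf_neg S' hσ (neg_nonneg.2 h), bf_neg S' hσ (neg_nonneg.2 h)]
    have := S'.gap i hi (-t) ⟨neg_nonneg.2 h, by linarith [ht.1]⟩
    rw [gp, hσ i hi] at this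
    refine (min_le_right _ _).trans (this.trans (le_of_eq (by ring)))

theorem bf_lip (S : Side nx pv c X σ T a) (t u : ℝ) (i : ι) :
    |bf c X σ t i - bf c X σ u i| ≤ |t - u| := by
  by_cases hi : i = c
  · simp only [bf, hi, if_true, add_sub_add_left_eq_sub]
    exact abs_abs_sub_abs_le_abs_sub t u
  · simp only [bf, hi, if_false, add_sub_add_left_eq_sub, ← sub_mul, abs_mul]
    rcases S.sgn i with h | h <;> simp [h]

theorem bf_split (S : Side nx pv c X σ T a) (z : ι → ℂ) (t : ℝ) (i : ι) :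
    z (nx i) - z (pv i) = ((σ i * (σ i * (bf c X σ t (nx i) - bf c X σ t (pv i))) : ℝ) : ℂ) +
      ((z (nx i) - bf c X σ t (nx i)) - (z (pv i) - bf c X σ t (pv i))) := by
  rw [← mul_assoc, S.sq, one_mul]; push_cast; ring

theorem bf_c (S : Side nx pv c X σ T a) (t : ℝ) :
    bf c X σ t (nx c) - bf c X σ t (pv c) = 2 * t := by
  simp only [bf, S.ne1, S.ne2, if_false, S.snx, S.spv, S.col]; ring

theorem drift (S : Side nx pv c X σ T a) (S' : Side pv nx c X σ' T' a')
    (hσ : ∀ i, i ≠ c → σ' i = -σ i) {r M u v : ℝ} {Z : ℝ → ι → ℂ} (hr : 0 < r)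
    (hra : 2 * r ≤ min a a') (hZ : Sol nx pv r Z (-T') T) (hu : -T' ≤ u) (huv : u ≤ v)
    (hv : v ≤ T) (hM : ∀ t ∈ Icc u v, ∀ i, ‖Z t i - bf c X σ t i‖ ≤ M) :
    |((Z v (nx c)).im - (Z v (pv c)).im) - ((Z u (nx c)).im - (Z u (pv c)).im)| ≤
      24 * M / min a a' * (v - u) := by
  have hsub : Icc u v ⊆ Icc (-T') T := Icc_subset_Icc hu hv
  have ha : 0 < min a a' := lt_min S.ha S'.ha
  have hb : ∀ t ∈ Icc u v, ∀ i, i ≠ c →
      |(U r (Z t (nx i) - Z t (pv i))).im| ≤ 12 * M / min a a' := by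
    intro t ht i hi
    have hg := bf_gap S S' hσ (hsub ht) hi
    have h1 := U_lin hr (hra.trans hg) (S.sgn i)
      ((Z t (nx i) - bf c X σ t (nx i)) - (Z t (pv i) - bf c X σ t (pv i)))
    rw [← bf_split S] at h1
    have h2 := Complex.abs_im_le_norm (U r (Z t (nx i) - Z t (pv i)) - σ i)
    rw [Complex.sub_im, Complex.ofReal_im, sub_zero] at h2
    have hM0 : 0 ≤ M := (norm_nonneg _).trans (hM t ht i)
    have h3 : ‖(Z t (nx i) - bf c X σ t (nx i)) - (Z t (pv i) - bf c X σ t (pv i))‖ /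
        (σ i * (bf c X σ t (nx i) - bf c X σ t (pv i))) ≤ 2 * M / min a a' := by
      gcongr
      linarith [norm_sub_le (Z t (nx i) - bf c X σ t (nx i)) (Z t (pv i) - bf c X σ t (pv i)),
        hM t ht (nx i), hM t ht (pv i)]
    have e : 12 * M / min a a' = 6 * (2 * M / min a a') := by ring
    linarith
  have hY : ∀ t ∈ Icc u v, ∀ i,
      HasDerivAt (fun t => (Z t i).im) (U r (Z t (nx i) - Z t (pv i))).im t :=
    fun t ht i => Complex.imCLM.hasFDerivAt.comp_hasDerivAt t (hZ t (hsub ht) i)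
  have := incr_le (f := fun t => (Z t (nx c)).im - (Z t (pv c)).im) huv
    (b := fun t => 24 * M / min a a' * t) (b' := fun _ => 24 * M / min a a' * 1)
    (fun t ht => (hY t ht (nx c)).sub (hY t ht (pv c)))
    (fun t _ => (hasDerivAt_id t).const_mul _)
    (fun t ht => by
      rw [Real.norm_eq_abs]
      refine (abs_sub _ _).trans ?_
      have e : 24 * M / min a a' * 1 = 12 * M / min a a' + 12 * M / min a a' := by ring
      rw [e]
      exact add_le_add (hb t ht _ S.ne1) (hb t ht _ S.ne2))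
  rw [Real.norm_eq_abs] at this
  linarith

theorem pr_start (S : Side nx pv c X σ T a) (x y : ι → ℝ) (ν : ι → ℂ) (s m : ℝ) :
    pr nx pv x (fun i => (y i : ℂ) + s * (ν i + Complex.I * (m * x i : ℝ))) =
      s * pr nx pv x ν := by
  have h := S.sum_swap x x
  have h0 : ∑ i, x i * (x (nx i) - x (pv i)) = 0 := by linarith
  have : ∀ i, x i * (((y (nx i) : ℂ) + s * (ν (nx i) + Complex.I * (m * x (nx i) : ℝ))).im -
      ((y (pv i) : ℂ) + s * (ν (pv i) + Complex.I * (m * x (pv i) : ℝ))).im) =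
      s * (x i * ((ν (nx i)).im - (ν (pv i)).im)) + s * m * (x i * (x (nx i) - x (pv i))) := by
    intro i; simp; ring
  simp only [pr, this, Finset.sum_add_distrib, ← Finset.mul_sum, h0, mul_zero, add_zero]

theorem passage (S : Side nx pv c X σ T a) (S' : Side pv nx c X σ' T' a')
    (hσ : ∀ i, i ≠ c → σ' i = -σ i) (R : Reg nx pv c X σ T η H) (ν : ι → ℂ)
    (hg : pr nx pv (η T) ν ≠ 0) (κ : ℝ) :
    ∃ C, 0 ≤ C ∧ ∀ᶠ l : ℝ in atTop, ∃ Z : ℝ → ι → ℂ,
      (∀ t ∈ Icc (-T') T, (∀ i, Z t (nx i) ≠ Z t (pv i)) ∧ HasDerivAt Z (fld nx pv (Z t)) t) ∧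
      (Z T = fun i => (bs X σ T i : ℂ) +
        (exp (-l) : ℝ) * (ν i + Complex.I * (κ * l * η T i : ℝ))) ∧
      ∀ i, ‖Z (-T') i - bs X σ' T' i‖ ≤ C * exp (-l) * (1 + |κ - pr nx pv (η T) ν| * l) := by
  set g := pr nx pv (η T) ν with hgd
  have hg0 : 0 < |g| := abs_pos.2 hg
  set b := min a a' with hb
  have hb0 : 0 < b := lt_min S.ha S'.ha
  have hT := S.hT
  have hT' := S'.hT
  obtain ⟨C₁, hC₁, happ⟩ := approach S R (K := ‖ν‖ + |κ|) (by positivity)
  obtain ⟨C₂, hC₂, hlea⟩ := leave S' (K := C₁ + 4 + 48 * (C₁ + 4) / b + |g|) (by positivity)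
  set C₃ := C₁ + 4 + C₂ * (1 + |κ - g|) with hC₃
  have hC₃0 : 0 ≤ C₃ := by positivity
  refine ⟨C₂, hC₂, ?_⟩
  filter_upwards [eventually_ge_atTop 1, eventually_ge_atTop (2 * C₃), ev_small 1 one_pos,
    ev_small 1 hT, ev_small 1 hT', ev_small 2 hb0, ev_small (4 * C₃) hb0,
    ev_small (2 * (C₁ + 48 * C₃ / b)) hg0, ev_small 2 hg0] with l hl hl2 e1 e2 e3 e4 e5 e6 e7
  set s := exp (-l) with hs
  have hs0 : 0 < s := exp_pos _
  have hl0 : 0 < l := by linarith
  have hk : ∀ k ≤ 4, s * l ^ k ≤ s * l ^ 4 := fun k hk =>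
    mul_le_mul_of_nonneg_left (pow_le_pow_right₀ hl hk) hs0.le
  have k0 : s ≤ s * l ^ 4 := by simpa using hk 0 (by norm_num)
  have k1 : s * l ≤ s * l ^ 4 := by simpa using hk 1 (by norm_num)
  have k3 := hk 3 (by norm_num)
  have hs1 : s ≤ 1 := by linarith
  have hr : 0 < s ^ 2 := by positivity
  have hrs : s ^ 2 ≤ s := by nlinarith
  have hrb : 2 * s ^ 2 ≤ b := by linarith
  obtain ⟨Z, hZT, hZ⟩ := exists_sol nx pv hr (by linarith : -T' ≤ T)
    (fun i => (bs X σ T i : ℂ) + (s : ℝ) * (ν i + Complex.I * (κ * l * η T i : ℝ)))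
  have hsol : Sol nx pv (s ^ 2) Z (-T') T := fun t ht i => hasDerivAt_pi.1 (hZ t ht) i
  have hA : ApH nx pv X σ T a η (‖ν‖ + |κ|) (s ^ 2) s l (κ * s * l) Z :=
    { hr := hr
      hrs := hrs
      hra := hrb.trans (min_le_left _ _)
      hs := rfl
      hl := hl
      hsT := by linarith
      hsl := by linarith
      hμ := by
        rw [abs_mul, abs_mul, abs_of_pos hs0, abs_of_pos hl0]
        gcongr
        linarith [norm_nonneg ν]
      sol := fun t ht i => hsol t ⟨by linarith [ht.1], ht.2⟩ i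
      fin := fun i => by
        have e : dc X σ η (κ * s * l) Z T i = (s : ℝ) * ν i := by
          simp only [dc, hZT]; push_cast; ring
        rw [e, norm_mul, Complex.norm_real, Real.norm_eq_abs, abs_of_pos hs0, mul_comm]
        gcongr
        linarith [norm_le_pi_norm ν i, abs_nonneg κ] }
  obtain ⟨a1, a2, a3, a4⟩ := happ hA
  have hW : pr nx pv (η T) (Z T) = s * g := by rw [hZT, pr_start S]
  rw [hW] at a2 a4
  have hsl : s ≤ s * l := le_mul_of_one_le_right hs0.le hl
  -- middle region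
  have mid : ∀ t ∈ Icc (-s) s, ∀ i,
      ‖(Z s i - bf c X σ s i) - (Z t i - bf c X σ t i)‖ ≤ 4 * s := by
    intro t ht i
    have h1 := incr_le (f := fun t => Z t i) ht.2 (b := fun t => t) (b' := fun _ => 1)
      (fun u hu => hsol u ⟨by linarith [hu.1, ht.1], by linarith [hu.2]⟩ i)
      (fun u _ => hasDerivAt_id u) (fun u _ => norm_U_le hr _)
    have h2 := bf_lip S s t i
    rw [abs_of_nonneg (sub_nonneg.2 ht.2)] at h2
    have e : (Z s i - bf c X σ s i) - (Z t i - bf c X σ t i) =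
        (Z s i - Z t i) - ((bf c X σ s i - bf c X σ t i : ℝ) : ℂ) := by push_cast; ring
    rw [e]
    refine (norm_sub_le _ _).trans ?_
    rw [Complex.norm_real, Real.norm_eq_abs]
    linarith [ht.1]
  have dvs : ∀ i, dv X σ Z s i = Z s i - bf c X σ s i := fun i => by rw [bf_pos S hs0.le]; rfl
  have mid' : ∀ t ∈ Icc (-s) s, ∀ i, ‖Z t i - bf c X σ t i‖ ≤ (C₁ + 4) * s * l := by
    intro t ht i
    have h1 := a1 s ⟨le_rfl, by linarith⟩ i
    rw [dvs] at h1
    have h2 := norm_sub_le (Z s i - bf c X σ s i)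
      ((Z s i - bf c X σ s i) - (Z t i - bf c X σ t i))
    rw [sub_sub_cancel] at h2
    linarith [mid t ht i]
  have dvn : ∀ t, 0 ≤ t → ∀ i, dv X σ' (fun u => Z (-u)) t i = Z (-t) i - bf c X σ (-t) i :=
    fun t ht i => by rw [bf_neg S' hσ ht]; rfl
  have z1 : 0 ≤ 48 * (C₁ + 4) / b := by positivity
  have hms : -s ∈ Icc (-s) s := ⟨le_rfl, by linarith⟩
  obtain ⟨b1, b2⟩ := hlea (r := s ^ 2) (s := s) (l := l) (κ := κ * s * l - s * g / 2 * l)
    (ε := -(s * g)) (Z := fun u => Z (-u)) hr hrs (hrb.trans (min_le_right _ _)) rfl hl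
    (by linarith) (by linarith)
    (fun t ht i => by
      have h1 := (hsol (-t) ⟨by linarith [ht.2], by linarith [ht.1]⟩ i).scomp t
        (hasDerivAt_neg t)
      refine h1.congr_deriv ?_
      rw [neg_one_smul, ← U_neg, neg_sub])
    (fun i hi => by
      rw [dvn s hs0.le]
      have h1 := a3 i hi
      rw [dvs] at h1
      have h2 := norm_sub_le (Z s i - bf c X σ s i)
        ((Z s i - bf c X σ s i) - (Z (-s) i - bf c X σ (-s) i))
      rw [sub_sub_cancel] at h2
      have h3 := mid (-s) hms i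
      nlinarith)
    (by
      rw [dvn s hs0.le]
      rw [dvs] at a4
      have h2 := norm_sub_le (Z s c - bf c X σ s c - Complex.I * (κ * s * l - s * g / 2 * l : ℝ))
        ((Z s c - bf c X σ s c) - (Z (-s) c - bf c X σ (-s) c))
      have e : Z s c - bf c X σ s c - Complex.I * (κ * s * l - s * g / 2 * l : ℝ) -
          ((Z s c - bf c X σ s c) - (Z (-s) c - bf c X σ (-s) c)) =
          Z (-s) c - bf c X σ (-s) c - Complex.I * (κ * s * l - s * g / 2 * l : ℝ) := by ring
      rw [e] at h2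
      have h3 := mid (-s) hms c
      nlinarith)
    (by
      have h1 := drift S S' hσ hr hrb hsol (by linarith : -T' ≤ -s) (by linarith : -s ≤ s)
        (by linarith) mid'
      have e : (Z (-s) (pv c)).im - (Z (-s) (nx c)).im - -(s * g) =
          ((Z s (nx c)).im - (Z s (pv c)).im - ((Z (-s) (nx c)).im - (Z (-s) (pv c)).im)) -
            ((Z s (nx c)).im - (Z s (pv c)).im - s * g) := by ring
      change |(Z (-s) (pv c)).im - (Z (-s) (nx c)).im - -(s * g)| ≤ _
      rw [e]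
      refine (abs_sub _ _).trans ?_
      have e2 : 24 * ((C₁ + 4) * s * l) / min a a' * (s - -s) =
          48 * (C₁ + 4) / b * (s ^ 2 * l) := by rw [← hb]; field_simp; ring
      rw [e2] at h1
      have h3 : 48 * (C₁ + 4) / b * (s ^ 2 * l) ≤ 48 * (C₁ + 4) / b * (s ^ 2 * l ^ 2) := by
        gcongr; nlinarith
      have h4 : 0 ≤ (4 + |g|) * (s ^ 2 * l ^ 2) := by positivity
      nlinarith)
    (by
      rw [abs_neg, abs_mul, abs_of_pos hs0]
      nlinarith)
  have ek : |κ * s * l - s * g / 2 * l + -(s * g) / 2 * l| = |κ - g| * (s * l) := by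
    rw [← abs_of_pos (mul_pos hs0 hl0), ← abs_mul]; congr 1; ring
  rw [ek] at b1 b2
  have glob : ∀ t ∈ Icc (-T') T, ∀ i, ‖Z t i - bf c X σ t i‖ ≤ C₃ * s * l := by
    intro t ht i
    have z2 : 0 ≤ C₂ * (1 + |κ - g|) * (s * l) := by positivity
    have z3 : 0 ≤ (C₁ + 4) * (s * l) := by positivity
    rcases le_total s t with h | h
    · have := a1 t ⟨h, ht.2⟩ i
      rw [bf_pos S (hs0.le.trans h)]
      change ‖dv X σ Z t i‖ ≤ _
      nlinarith
    rcases le_total (-s) t with h' | h'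
    · have := mid' t ⟨h', h⟩ i
      nlinarith
    · have := b2 (-t) ⟨by linarith, by linarith [ht.1]⟩ i
      rw [dvn (-t) (by linarith), neg_neg] at this
      nlinarith
  have nocol : ∀ t ∈ Icc (-T') T, ∀ i, s ^ 2 ≤ ‖Z t (nx i) - Z t (pv i)‖ := by
    intro t ht i
    have hh : ‖(Z t (nx i) - bf c X σ t (nx i)) - (Z t (pv i) - bf c X σ t (pv i))‖ ≤
        2 * (C₃ * s * l) := by
      linarith [norm_sub_le (Z t (nx i) - bf c X σ t (nx i)) (Z t (pv i) - bf c X σ t (pv i)),
        glob t ht (nx i), glob t ht (pv i)]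
    have low : |bf c X σ t (nx i) - bf c X σ t (pv i)| - 2 * (C₃ * s * l) ≤
        ‖Z t (nx i) - Z t (pv i)‖ := by
      have h1 := norm_sub_le (Z t (nx i) - Z t (pv i))
        ((Z t (nx i) - bf c X σ t (nx i)) - (Z t (pv i) - bf c X σ t (pv i)))
      have e : Z t (nx i) - Z t (pv i) -
          ((Z t (nx i) - bf c X σ t (nx i)) - (Z t (pv i) - bf c X σ t (pv i))) =
          ((bf c X σ t (nx i) - bf c X σ t (pv i) : ℝ) : ℂ) := by push_cast; ring
      rw [e, Complex.norm_real, Real.norm_eq_abs] at h1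
      linarith
    by_cases hi : i = c
    · subst hi
      rw [bf_c S, abs_mul, abs_two] at low
      have hsl2 : s ≤ s * l ^ 2 := le_mul_of_one_le_right hs0.le (one_le_pow₀ hl)
      rcases le_total (s * l ^ 2) |t| with h | h
      · have : 2 * C₃ * (s * l) ≤ l * (s * l) := by gcongr
        nlinarith
      · have h1 : |((Z t (nx i)).im - (Z t (pv i)).im) - ((Z s (nx i)).im - (Z s (pv i)).im)| ≤
            24 * (C₃ * s * l) / b * (2 * (s * l ^ 2)) := by
          have z : 0 ≤ 24 * (C₃ * s * l) / b := by positivity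
          rcases le_total s t with h' | h'
          · refine (drift S S' hσ hr hrb hsol (by linarith : -T' ≤ s) h' ht.2
              fun u hu => glob u ⟨by linarith [hu.1], hu.2.trans ht.2⟩).trans ?_
            gcongr
            linarith [le_abs_self t]
          · rw [abs_sub_comm]
            refine (drift S S' hσ hr hrb hsol ht.1 h' (by linarith)
              fun u hu => glob u ⟨ht.1.trans hu.1, by linarith [hu.2]⟩).trans ?_
            gcongr
            linarith [neg_abs_le t]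
        have h2 := Complex.abs_im_le_norm (Z t (nx i) - Z t (pv i))
        rw [Complex.sub_im] at h2
        have h3 : |s * g| ≤ |(Z t (nx i)).im - (Z t (pv i)).im| +
            |((Z t (nx i)).im - (Z t (pv i)).im) - ((Z s (nx i)).im - (Z s (pv i)).im)| +
            |(Z s (nx i)).im - (Z s (pv i)).im - s * g| := by
          have e : s * g = ((Z t (nx i)).im - (Z t (pv i)).im) +
              -(((Z t (nx i)).im - (Z t (pv i)).im) - ((Z s (nx i)).im - (Z s (pv i)).im)) +
              -((Z s (nx i)).im - (Z s (pv i)).im - s * g) := by ring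
          have := abs_add_three ((Z t (nx i)).im - (Z t (pv i)).im)
            (-(((Z t (nx i)).im - (Z t (pv i)).im) - ((Z s (nx i)).im - (Z s (pv i)).im)))
            (-((Z s (nx i)).im - (Z s (pv i)).im - s * g))
          rwa [← e, abs_neg, abs_neg] at this
        rw [abs_mul, abs_of_pos hs0] at h3
        have e2 : 24 * (C₃ * s * l) / b * (2 * (s * l ^ 2)) = s * (48 * C₃ / b * (s * l ^ 3)) := by
          field_simp; ring
        have h4 : C₁ * s ^ 2 * l ^ 2 ≤ s * (C₁ * (s * l ^ 4)) := by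
          have := hk 2 (by norm_num)
          calc C₁ * s ^ 2 * l ^ 2 = s * (C₁ * (s * l ^ 2)) := by ring
            _ ≤ _ := by gcongr
        have h5 : s * (48 * C₃ / b * (s * l ^ 3)) ≤ s * (48 * C₃ / b * (s * l ^ 4)) := by gcongr
        have h6 : s * (2 * (C₁ + 48 * C₃ / b) * (s * l ^ 4)) ≤ s * |g| := by gcongr
        have h7 : s * (2 * s) ≤ s * |g| := by gcongr; linarith
        rw [e2] at h1
        nlinarith
    · have h1 := bf_gap S S' hσ ht hi
      have h2 : σ i * (bf c X σ t (nx i) - bf c X σ t (pv i)) ≤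
          |bf c X σ t (nx i) - bf c X σ t (pv i)| := by
        rcases S.sgn i with h | h <;> rw [h]
        · rw [one_mul]; exact le_abs_self _
        · rw [neg_one_mul]; exact neg_le_abs _
      have h3 : 4 * C₃ * (s * l) ≤ 4 * C₃ * (s * l ^ 4) := by gcongr
      rw [← hb] at h1
      nlinarith
  refine ⟨Z, fun t ht => ⟨fun i h => ?_, ?_⟩, hZT, fun i => ?_⟩
  · have := nocol t ht i
    rw [h, sub_self, norm_zero] at this
    linarith
  · refine (hZ t ht).congr_deriv (funext fun i => ?_)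
    rw [U_eq (nocol t ht i)]; rfl
  · have := b1 i
    change ‖dv X σ' (fun u => Z (-u)) T' i‖ ≤ _
    nlinarith

end Pool.Agent.MP_62f0b1_an.Xi
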